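import Mathlib

/-!
MP_fb225e_nt, project SZF: the positivity argument.
-/

namespace Pool.Agent.MPfb225e.Szf

/-- The positivity argument: `0 ≤ Σ w ((y + u x)² - d²)`, `y = Σ_i (c_i - 1)`. -/
theorem core {ι : Type*} {m : ℕ} (w x d : ι → ℝ) (c : Fin m → ι → ℕ) (n C κ G u Q : ℝ)
    (hw : ∀ i, 0 ≤ w i) (hsum : Summable w) (hx : ∀ i, |x i| ≤ C) (hc : ∀ j i, (c j i : ℝ) ≤ n)
    (hu : 0 ≤ u) (hd0 : ∀ i, 0 ≤ d i) (hd : ∀ i (k : ℤ), d i ≤ (k + u * x i) ^ 2)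
    (h1 : ∑' i, w i ≤ 1 + κ) (h2 : ∀ j, 1 - κ ≤ ∑' i, w i * c j i)
    (h3 : ∑ j, ∑ k, ∑' i, w i * ((c j i : ℝ) * c k i) ≤ (m : ℝ) ^ 2 + G + κ)
    (h4 : ∀ j, ∑' i, w i * (c j i * x i) ≤ -1 + κ) (h5 : -κ ≤ ∑' i, w i * x i)
    (h6 : ∑' i, w i * ((u * x i) ^ 2 - d i) ≤ Q) :
    0 ≤ G - 2 * u * m + Q + κ * (1 + 3 * (m : ℝ) ^ 2 + 4 * u * m) := by
  have hbd : ∀ f : ι → ℝ, (∃ D, ∀ i, |f i| ≤ D) → Summable fun i => w i * f i := by
    rintro f ⟨D, hD⟩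
    refine Summable.of_norm_bounded (hsum.mul_right D) fun i => ?_
    rw [Real.norm_eq_abs, abs_mul, abs_of_nonneg (hw i)]
    exact mul_le_mul_of_nonneg_left (hD i) (hw i)
  have hcb : ∀ j i, |(c j i : ℝ)| ≤ n := fun j i => by
    rw [abs_of_nonneg (Nat.cast_nonneg _)]; exact hc j i
  have s1 : ∀ j, Summable fun i => w i * (c j i : ℝ) := fun j => hbd _ ⟨n, hcb j⟩
  have s2 : ∀ j k, Summable fun i => w i * ((c j i : ℝ) * c k i) := fun j k =>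
    hbd _ ⟨n * n, fun i => by
      rw [abs_mul]
      exact mul_le_mul (hcb j i) (hcb k i) (abs_nonneg _) ((abs_nonneg _).trans (hcb j i))⟩
  have s3 : ∀ j, Summable fun i => w i * (c j i * x i) := fun j =>
    hbd _ ⟨n * C, fun i => by
      rw [abs_mul]
      exact mul_le_mul (hcb j i) (hx i) (abs_nonneg _) ((abs_nonneg _).trans (hcb j i))⟩
  have s4 : Summable fun i => w i * x i := hbd _ ⟨C, hx⟩
  have hdb : ∀ i, |(u * x i) ^ 2 - d i| ≤ (u * C) ^ 2 := fun i => by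
    have e1 := hd i 0
    rw [Int.cast_zero, zero_add] at e1
    have e2 := hd0 i
    have e3 : (u * x i) ^ 2 ≤ (u * C) ^ 2 := by
      rw [← sq_abs (u * x i), abs_mul, abs_of_nonneg hu]
      exact pow_le_pow_left₀ (mul_nonneg hu (abs_nonneg _)) (mul_le_mul_of_nonneg_left (hx i) hu) 2
    rw [abs_of_nonneg (by linarith)]
    linarith
  have s5 : Summable fun i => w i * ((u * x i) ^ 2 - d i) := hbd _ ⟨_, hdb⟩
  set y : ι → ℝ := fun i => (∑ j, (c j i : ℝ)) - m with hy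
  have hpos : 0 ≤ ∑' i, w i * ((y i + u * x i) ^ 2 - d i) := by
    refine tsum_nonneg fun i => mul_nonneg (hw i) ?_
    have e1 := hd i ((∑ j, (c j i : ℤ)) - m)
    push_cast at e1
    rw [hy]
    simp only
    linarith
  have hexp : ∀ i, w i * ((y i + u * x i) ^ 2 - d i) =
      ((∑ j, ∑ k, w i * ((c j i : ℝ) * c k i)) - 2 * m * (∑ j, w i * (c j i : ℝ)) +
        (m : ℝ) ^ 2 * w i) + 2 * u * ((∑ j, w i * (c j i * x i)) - m * (w i * x i)) +
        w i * ((u * x i) ^ 2 - d i) := by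
    intro i
    have e1 : (∑ j, ∑ k, w i * ((c j i : ℝ) * c k i)) = w i * (∑ j, (c j i : ℝ)) ^ 2 := by
      rw [sq, Finset.sum_mul_sum, Finset.mul_sum]
      refine Finset.sum_congr rfl fun j _ => ?_
      rw [Finset.mul_sum]
    have e2 : (∑ j, w i * (c j i : ℝ)) = w i * ∑ j, (c j i : ℝ) := by rw [Finset.mul_sum]
    have e3 : (∑ j, w i * ((c j i : ℝ) * x i)) = w i * x i * ∑ j, (c j i : ℝ) := by
      rw [Finset.mul_sum]
      exact Finset.sum_congr rfl fun j _ => by ring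
    rw [e1, e2, e3, hy]
    simp only
    ring
  have hs1 : HasSum (fun i => ∑ j, ∑ k, w i * ((c j i : ℝ) * c k i))
      (∑ j, ∑ k, ∑' i, w i * ((c j i : ℝ) * c k i)) :=
    hasSum_sum fun j _ => hasSum_sum fun k _ => (s2 j k).hasSum
  have hs2 : HasSum (fun i => ∑ j, w i * (c j i : ℝ)) (∑ j, ∑' i, w i * (c j i : ℝ)) :=
    hasSum_sum fun j _ => (s1 j).hasSum
  have hs3 : HasSum (fun i => ∑ j, w i * (c j i * x i)) (∑ j, ∑' i, w i * (c j i * x i)) :=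
    hasSum_sum fun j _ => (s3 j).hasSum
  have htot := (((hs1.sub (hs2.mul_left (2 * (m : ℝ)))).add (hsum.hasSum.mul_left ((m : ℝ) ^ 2))).add
    ((hs3.sub (s4.hasSum.mul_left (m : ℝ))).mul_left (2 * u))).add s5.hasSum
  have hval : (∑' i, w i * ((y i + u * x i) ^ 2 - d i)) = _ :=
    (htot.congr_fun hexp).tsum_eq
  rw [hval] at hpos
  have t2 : (m : ℝ) * (1 - κ) ≤ ∑ j, ∑' i, w i * (c j i : ℝ) := by
    calc (m : ℝ) * (1 - κ) = ∑ _j : Fin m, (1 - κ) := by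
          rw [Finset.sum_const, Finset.card_univ, Fintype.card_fin, nsmul_eq_mul]
      _ ≤ _ := Finset.sum_le_sum fun j _ => h2 j
  have t4 : (∑ j, ∑' i, w i * (c j i * x i)) ≤ (m : ℝ) * (-1 + κ) := by
    calc (∑ j, ∑' i, w i * (c j i * x i)) ≤ ∑ _j : Fin m, (-1 + κ) :=
          Finset.sum_le_sum fun j _ => h4 j
      _ = (m : ℝ) * (-1 + κ) := by
          rw [Finset.sum_const, Finset.card_univ, Fintype.card_fin, nsmul_eq_mul]
  have hm : (0 : ℝ) ≤ m := Nat.cast_nonneg m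
  have t5 : 2 * u * ((∑ j, ∑' i, w i * (c j i * x i)) - m * ∑' i, w i * x i) ≤
      2 * u * ((m : ℝ) * (-1 + κ) + m * κ) := by
    refine mul_le_mul_of_nonneg_left ?_ (by positivity)
    have := mul_le_mul_of_nonneg_left h5 hm
    linarith
  have t6 : (m : ℝ) ^ 2 * ∑' i, w i ≤ (m : ℝ) ^ 2 * (1 + κ) :=
    mul_le_mul_of_nonneg_left h1 (by positivity)
  have t7 : 2 * (m : ℝ) * (m * (1 - κ)) ≤ 2 * m * ∑ j, ∑' i, w i * (c j i : ℝ) :=
    mul_le_mul_of_nonneg_left t2 (by positivity)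
  nlinarith

end Pool.Agent.MPfb225e.Szf
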