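import Mathlib
import Pool.Agent.Lib.MP_fb225e_nt.Zfr.PlacesBias
import Pool.Agent.Lib.MP_fb225e_nt.Fam.Mean

/-!
MP_fb225e_nt, project SZF: weighted sums over the primes.
-/

namespace Pool.Agent.MPfb225e.Szf

open Filter Topology Complex
open NumberField IsDedekindDomain

universe u

/-- The weight `log p · p^(-1-ε)`. -/
noncomputable def lp (ε : ℝ) (p : Nat.Primes) : ℝ := Real.log p * (p : ℝ) ^ (-(1 + ε))

theorem lp_nonneg (ε : ℝ) (p : Nat.Primes) : 0 ≤ lp ε p :=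
  mul_nonneg (Real.log_natCast_nonneg _) (Real.rpow_nonneg (by positivity) _)

theorem summable_lp {ε : ℝ} (hε : 0 < ε) : Summable (lp ε) :=
  (Zfr.pb_summable hε).comp_injective Nat.Primes.coe_nat_injective

theorem lp_le_one {ε : ℝ} (hε : 0 < ε) (p : Nat.Primes) : lp ε p ≤ 1 := by
  have hp : (1 : ℝ) ≤ p := by exact_mod_cast p.2.one_lt.le
  refine (Zfr.pb_term_le hp hε).trans ?_
  rw [div_le_one (by linarith)]
  have := Real.log_le_sub_one_of_pos (show (0 : ℝ) < p by linarith)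
  linarith

theorem summable_lp_mul {ε : ℝ} (hε : 0 < ε) {f : Nat.Primes → ℝ} {C : ℝ} (hf : ∀ p, |f p| ≤ C) :
    Summable fun p => lp ε p * f p := by
  refine Summable.of_norm_bounded ((summable_lp hε).mul_right C) fun p => ?_
  rw [Real.norm_eq_abs, abs_mul, abs_of_nonneg (lp_nonneg ε p)]
  exact mul_le_mul_of_nonneg_left (hf p) (lp_nonneg ε p)

/-- The eigenvalues are bounded, and those of the base change are given by those over `ℚ`. -/
theorem lam_data (E : WeierstrassCurve ℚ) [E.IsElliptic] : ∃ (B : ℕ) (C : ℝ), 2 ≤ C ∧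
    (∀ p : ℕ, p.Prime → |Fam.lam E p| ≤ C) ∧ (∀ p : ℕ, p.Prime → B < p → |Fam.lam E p| ≤ 2) ∧
    ∀ (K : Type u) [Field K] [NumberField K] (v : HeightOneSpectrum (𝓞 K)), (Fam.N v).Prime →
      B < Fam.N v → Zfr.xK (E.baseChange K) v = Fam.lam E (Fam.N v) := by
  obtain ⟨W₀, C₀, hC₀⟩ := Fam.exists_int_model E
  have hΔ := Fam.disc_ne_zero E hC₀
  set B : ℕ := max 3 W₀.Δ.natAbs with hB
  have hgood : ∀ p : ℕ, p.Prime → B < p → 3 < p ∧ ((W₀.Δ : ℤ) : ZMod p) ≠ 0 := by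
    intro p hp hlt
    have h3' : 3 < p := lt_of_le_of_lt (le_max_left _ _) hlt
    have h4 : W₀.Δ.natAbs < p := lt_of_le_of_lt (le_max_right _ _) hlt
    refine ⟨h3', ?_⟩
    intro h
    rw [ZMod.intCast_zmod_eq_zero_iff_dvd] at h
    have h6 := Int.natAbs_dvd_natAbs.2 h
    rw [Int.natAbs_natCast] at h6
    have := Nat.le_of_dvd (Nat.pos_of_ne_zero (Int.natAbs_ne_zero.2 hΔ)) h6
    omega
  have hbig : ∀ p : ℕ, p.Prime → B < p → |Fam.lam E p| ≤ 2 := by
    intro p hp hlt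
    obtain ⟨h3, h5⟩ := hgood p hp hlt
    rw [Fam.lam_eq_yy E W₀ C₀ hC₀ hp h3 h5]
    exact Fam.abs_yy_le W₀ p
  refine ⟨B, 2 + ∑ p ∈ Finset.range (B + 1), |Fam.lam E p|, ?_, ?_, hbig, ?_⟩
  · have : 0 ≤ ∑ p ∈ Finset.range (B + 1), |Fam.lam E p| := Finset.sum_nonneg fun _ _ => abs_nonneg _
    linarith
  · intro p hp
    by_cases hlt : B < p
    · have h1 := hbig p hp hlt
      have : 0 ≤ ∑ p ∈ Finset.range (B + 1), |Fam.lam E p| :=
        Finset.sum_nonneg fun _ _ => abs_nonneg _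
      linarith
    · have : |Fam.lam E p| ≤ ∑ p ∈ Finset.range (B + 1), |Fam.lam E p| :=
        Finset.single_le_sum (f := fun p => |Fam.lam E p|) (fun _ _ => abs_nonneg _)
          (Finset.mem_range.2 (by omega))
      linarith
  · intro K _ _ v hp hlt
    obtain ⟨h3, h5⟩ := hgood _ hp hlt
    obtain ⟨h7, h8⟩ := Fam.coeff_eq_yy E W₀ C₀ hC₀ v rfl hp h3 h5
    have h9 := Fam.lam_eq_yy E W₀ C₀ hC₀ hp h3 h5
    unfold Zfr.xK
    rw [if_neg h7, h8, h9]

end Pool.Agent.MPfb225e.Szf
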