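import Mathlib
import Pool.Agent.Lib.MP_fb225e_nt.Fam.Tensor

/-!
MP_fb225e_nt, project SZF: the index of `𝓞 K ⊗ 𝓞 L` in the product of the maximal orders of the
factors of `K ⊗ L` is killed by the discriminant of `L`.
-/

open Filter Topology Complex
open NumberField IsDedekindDomain

namespace Pool.Agent.MPfb225e.Szf

universe u

section index

open scoped TensorProduct
open Module

variable (K L : Type u) [Field K] [NumberField K] [Field L] [NumberField L]

/-- An element with integral components has integral images in every field. -/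
theorem Index_image (a : K ⊗[ℚ] L)
    (ha : ∀ I : MaximalSpectrum (K ⊗[ℚ] L), IsIntegral ℤ (Ideal.Quotient.mk I.asIdeal a))
    (φ : K ⊗[ℚ] L →+* ℂ) : IsIntegral ℤ (φ a) := by
  have h1 : (RingHom.ker φ).IsPrime := RingHom.ker_isPrime φ
  have h2 : (RingHom.ker φ).IsMaximal := Ideal.IsPrime.isMaximal' h1
  have h3 := ha ⟨RingHom.ker φ, h2⟩
  have h4 : ∀ x ∈ RingHom.ker φ, φ x = 0 := fun x hx => hx
  have h5 := h3.map (Ideal.Quotient.lift (RingHom.ker φ) φ h4).toIntAlgHom
  exact h5

theorem Index_adj {ι : Type*} [Fintype ι] [DecidableEq ι] {M : Matrix ι ι ℂ}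
    (h : ∀ i j, IsIntegral ℤ (M i j)) (i j : ι) : IsIntegral ℤ (M.adjugate i j) := by
  rw [Matrix.adjugate_apply]
  refine IsIntegral.det fun k l => ?_
  rw [Matrix.updateRow_apply]
  split_ifs
  · rw [Pi.single_apply]
    split_ifs
    · exact isIntegral_one
    · exact isIntegral_zero
  · exact h k l

theorem Index_key (a : K ⊗[ℚ] L)
    (ha : ∀ I : MaximalSpectrum (K ⊗[ℚ] L), IsIntegral ℤ (Ideal.Quotient.mk I.asIdeal a)) :
    ∃ z, Fam.nu K L z = (NumberField.discr L) • a := by
  classical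
  set ω := integralBasis L with hω
  set Bt := Algebra.TensorProduct.basis K ω with hBt
  have hsum : ∑ i, (Bt.repr a i) ⊗ₜ[ℚ] (ω i) = a := by
    conv_rhs => rw [← Bt.sum_repr a]
    refine Finset.sum_congr rfl fun i _ => ?_
    rw [hBt, Algebra.TensorProduct.basis_repr_symm_apply']
  set k : Free.ChooseBasisIndex ℤ (𝓞 L) → K := fun i => Bt.repr a i with hk
  -- embeddings
  obtain ⟨σ⟩ : Nonempty (K →ₐ[ℚ] ℂ) := ⟨IsAlgClosed.lift (R := ℚ) (S := K) (M := ℂ)⟩
  have hcard : Fintype.card (Free.ChooseBasisIndex ℤ (𝓞 L)) = Fintype.card (L →ₐ[ℚ] ℂ) := by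
    rw [AlgHom.card, finrank_eq_card_basis ω]
  let e : Free.ChooseBasisIndex ℤ (𝓞 L) ≃ (L →ₐ[ℚ] ℂ) := Fintype.equivOfCardEq hcard
  set T := Algebra.embeddingsMatrixReindex ℚ ℂ ω e with hT
  have hTij : ∀ i j, T i j = e j (ω i) := by
    intro i j
    rfl
  have hTint : ∀ i j, IsIntegral ℤ (T i j) := by
    intro i j
    rw [hTij, hω, integralBasis_apply]
    exact (RingOfIntegers.isIntegral_coe (RingOfIntegers.basis L i)).map
      ((e j).restrictScalars ℤ)
  have hdisc : ((NumberField.discr L : ℤ) : ℂ) = T.det ^ 2 := by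
    have h1 := Algebra.discr_eq_det_embeddingsMatrixReindex_pow_two ℚ ℂ ω e
    rw [hω, ← NumberField.coe_discr, ← hω, ← hT] at h1
    rw [← h1]
    simp
  -- the images
  let φ : ∀ j, K ⊗[ℚ] L →ₐ[ℚ] ℂ := fun j =>
    Algebra.TensorProduct.lift σ (e j) (fun _ _ => Commute.all _ _)
  have hφ : ∀ j, φ j a = ∑ i, σ (k i) * T i j := by
    intro j
    conv_lhs => rw [← hsum]
    rw [map_sum]
    refine Finset.sum_congr rfl fun i _ => ?_
    exact Algebra.TensorProduct.lift_tmul _ _ _ _ _
  have hx : ∀ j, IsIntegral ℤ (φ j a) := fun j => Index_image K L a ha (φ j : K ⊗[ℚ] L →+* ℂ)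
  have hdet : ∀ i, T.det * σ (k i) = ∑ j, φ j a * T.adjugate j i := by
    intro i
    have h1 : Matrix.vecMul (Matrix.vecMul (fun i => σ (k i)) T) T.adjugate i =
        T.det * σ (k i) := by
      rw [Matrix.vecMul_vecMul, Matrix.mul_adjugate, Matrix.vecMul_smul, Matrix.vecMul_one]
      simp [mul_comm]
    rw [← h1]
    simp only [Matrix.vecMul, dotProduct]
    refine Finset.sum_congr rfl fun j _ => ?_
    rw [hφ]
  have hkint : ∀ i, IsIntegral ℤ ((NumberField.discr L : ℤ) • k i) := by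
    intro i
    have h1 : IsIntegral ℤ (T.det * (T.det * σ (k i))) := by
      refine (IsIntegral.det hTint).mul ?_
      rw [hdet]
      exact IsIntegral.sum _ fun j _ => (hx j).mul (Index_adj hTint j i)
    have h2 : T.det * (T.det * σ (k i)) = σ ((NumberField.discr L : ℤ) • k i) := by
      rw [map_zsmul, zsmul_eq_mul, hdisc]
      ring
    rw [h2] at h1
    exact (isIntegral_algHom_iff (σ.restrictScalars ℤ) σ.toRingHom.injective).1 h1
  choose c hc using fun i => ((IsIntegralClosure.isIntegral_iff (A := 𝓞 K)).1 (hkint i) :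
    ∃ c : 𝓞 K, (c : K) = (NumberField.discr L : ℤ) • k i)
  refine ⟨∑ i, c i ⊗ₜ (RingOfIntegers.basis L i), ?_⟩
  rw [map_sum]
  conv_rhs => rw [← hsum, Finset.smul_sum]
  refine Finset.sum_congr rfl fun i _ => ?_
  have h : ((c i : 𝓞 K) : K) = (NumberField.discr L : ℤ) • k i := hc i
  rw [Fam.nu_tmul, h, hω, integralBasis_apply]
  exact (TensorProduct.smul_tmul' _ _ _).symm

end index

/-- A1. The index of `𝓞 K ⊗ 𝓞 L` in the product of the maximal orders is killed by `disc L`. -/
theorem psi_discr (K L : Type u) [Field K] [NumberField K] [Field L] [NumberField L]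
    (b : ∀ I : MaximalSpectrum (TensorProduct ℚ K L), 𝓞 (Fam.Fac K L I)) :
    ∃ z, Fam.psi K L z = ((NumberField.discr L).natAbs : _) * b := by
  have h2 : ∀ I : MaximalSpectrum (TensorProduct ℚ K L), (Ideal.Quotient.mk I.asIdeal)
      ((IsArtinianRing.equivPi (TensorProduct ℚ K L)).symm
      fun I => ((b I : 𝓞 (Fam.Fac K L I)) : Fam.Fac K L I)) =
        ((b I : 𝓞 (Fam.Fac K L I)) : Fam.Fac K L I) := by
    intro I
    have := congrFun ((IsArtinianRing.equivPi (TensorProduct ℚ K L)).apply_symm_apply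
      fun I => ((b I : 𝓞 (Fam.Fac K L I)) : Fam.Fac K L I)) I
    rw [IsArtinianRing.equivPi_apply] at this
    exact this
  obtain ⟨z, hz⟩ := Index_key K L ((IsArtinianRing.equivPi (TensorProduct ℚ K L)).symm
      fun I => ((b I : 𝓞 (Fam.Fac K L I)) : Fam.Fac K L I)) (fun I => by
        rw [h2 I]
        exact RingOfIntegers.isIntegral_coe (b I))
  have h3 : Fam.psi K L z = (NumberField.discr L) • b := by
    funext I
    rw [Fam.psi_apply]
    apply RingOfIntegers.ext
    rw [Fam.psiI_coe, hz, map_zsmul, h2]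
    simp
  rcases Int.natAbs_eq (NumberField.discr L) with h | h
  · refine ⟨z, ?_⟩
    rw [h3, ← Int.cast_natCast, ← h]
    simp
  · refine ⟨-z, ?_⟩
    have h4 : (((NumberField.discr L).natAbs : ℕ) : ℤ) = -(NumberField.discr L) := by omega
    rw [map_neg, h3, ← Int.cast_natCast, h4]
    simp

/-- A2. -/
theorem homCount_mul_of_not_dvd (K L : Type u) [Field K] [NumberField K] [Field L] [NumberField L]
    {p : ℕ} (hp : p.Prime) (h : ¬ p ∣ (NumberField.discr L).natAbs) :
    Fam.homCount K p * Fam.homCount L p =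
      ∑ I : MaximalSpectrum (TensorProduct ℚ K L), Fam.homCount (Fam.Fac K L I) p := by
  have : Fact p.Prime := ⟨hp⟩
  have h1 := Fam.card_comp (Fam.psi K L) (Fam.psi_injective K L) (psi_discr K L) h
  rw [Fam.card_pi, Fam.card_tensor] at h1
  exact h1.symm

end Pool.Agent.MPfb225e.Szf
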