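import Mathlib
import Pool.Agent.Lib.MP_fb225e_nt.Zfr.Local

/-!
MP_fb225e_nt, project SZF, module B: Landau's local lemma, two-sided.
-/

set_option autoImplicit false

namespace Pool.Agent.MPfb225e.Szf

open Filter Topology Complex Metric

/-- the case without zeros near the centre -/
theorem locF_nozero (f : ℂ → ℂ) (c s : ℂ) (r B : ℝ) (k : ℕ) (hr : 0 < r)
    (hd : ∀ z ∈ closedBall c (4 * r), DifferentiableAt ℂ f z)
    (hB : ∀ z ∈ closedBall c (4 * r), ‖f z‖ ≤ B)
    (hBk : B < 2 ^ (k + 1) * ‖f c‖) (hfc : f c ≠ 0) (hsc : ‖s - c‖ ≤ r)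
    (hz : ∀ z ∈ closedBall c (4 / 3 * r), f z ≠ 0) :
    ‖deriv f s / f s‖ ≤ 84 * ((k + 1 : ℕ) : ℝ) / r := by
  set R : ℝ := 4 / 3 * r with hR
  have hR0 : 0 < R := by positivity
  have hsub : ball c R ⊆ closedBall c (4 * r) := by
    refine ball_subset_closedBall.trans (closedBall_subset_closedBall ?_)
    rw [hR]; linarith
  have hne : ∀ z ∈ ball c R, f z ≠ 0 := fun z hz' => hz z (ball_subset_closedBall hz')
  have hdb : DifferentiableOn ℂ f (ball c R) := fun z hz' =>
    (hd z (hsub hz')).differentiableWithinAt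
  have hdq : DifferentiableOn ℂ (fun z => deriv f z / f z) (ball c R) :=
    (hdb.deriv isOpen_ball).div hdb hne
  obtain ⟨g, hgc, hg⟩ := hdq.isExactOn_ball.with_val_at c 0
  -- `f = f c * exp g`
  have hconst : ∀ z ∈ ball c R, f z = f c * exp (g z) := by
    have hder : ∀ z ∈ ball c R, HasDerivAt (fun z => f z * exp (-g z)) 0 z := by
      intro z hz'
      have h1 : HasDerivAt f (deriv f z) z := (hd z (hsub hz')).hasDerivAt
      have h2 : HasDerivAt (fun z => exp (-g z)) (exp (-g z) * -(deriv f z / f z)) z :=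
        ((hg z hz').neg).cexp
      have h3 := h1.mul h2
      have h4 : deriv f z * exp (-g z) + f z * (exp (-g z) * -(deriv f z / f z)) = 0 := by
        field_simp [hne z hz']
        ring
      rw [h4] at h3
      exact h3
    intro z hz'
    have hcon : (fun z => f z * exp (-g z)) z = (fun z => f z * exp (-g z)) c := by
      refine (convex_ball c R).is_const_of_fderivWithin_eq_zero (𝕜 := ℂ) (f := fun z => f z * exp (-g z))
        (fun w hw => (hder w hw).differentiableAt.differentiableWithinAt) ?_ hz'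
        (mem_ball_self hR0)
      intro w hw
      rw [fderivWithin_of_isOpen isOpen_ball hw]
      ext
      simp [(hder w hw).deriv]
    simp only [hgc, neg_zero, exp_zero, mul_one] at hcon
    rw [← hcon, mul_assoc, ← exp_add]
    simp
  -- bound for the real part
  set M : ℝ := ((k + 1 : ℕ) : ℝ) * Real.log 2 with hM
  have hM0 : 0 < M := by
    have : 0 < Real.log 2 := Real.log_pos one_lt_two
    positivity
  have hfc0 : 0 < ‖f c‖ := norm_pos_iff.mpr hfc
  have hre : ∀ z ∈ ball c R, (g z).re ≤ M := by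
    intro z hz'
    have h1 : ‖f z‖ < 2 ^ (k + 1) * ‖f c‖ := lt_of_le_of_lt (hB z (hsub hz')) hBk
    rw [hconst z hz', norm_mul, Complex.norm_exp, mul_comm] at h1
    have h2 : Real.exp (g z).re < 2 ^ (k + 1) := lt_of_mul_lt_mul_right h1 hfc0.le
    have h3 : (g z).re < Real.log (2 ^ (k + 1)) := (Real.lt_log_iff_exp_lt (by positivity)).mpr h2
    rw [Real.log_pow] at h3
    exact h3.le
  -- Borel-Caratheodory
  have hgd : DifferentiableOn ℂ g (ball c R) := fun z hz' =>
    (hg z hz').differentiableAt.differentiableWithinAt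
  have hbc : ∀ z ∈ closedBall c (7 / 6 * r), ‖g z‖ ≤ 14 * M := by
    intro z hz'
    rw [mem_closedBall, dist_eq_norm] at hz'
    set G : ℂ → ℂ := fun w => g (c + w) with hG
    have hmaps : Set.MapsTo (fun w => c + w) (ball (0 : ℂ) R) (ball c R) := by
      intro w hw
      rw [mem_ball, dist_zero_right] at hw
      simp only [mem_ball, dist_eq_norm, add_sub_cancel_left]
      exact hw
    have hGd : DifferentiableOn ℂ G (ball 0 R) :=
      hgd.comp (by fun_prop) hmaps
    have hGm : Set.MapsTo G (ball 0 R) {z | z.re ≤ M} := fun w hw => hre _ (hmaps hw)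
    have hw : z - c ∈ ball (0 : ℂ) R := by
      rw [mem_ball, dist_zero_right]
      exact lt_of_le_of_lt hz' (by rw [hR]; linarith)
    have h1 := Complex.borelCaratheodory_zero hM0 hGd hGm hR0 hw (by simp [hG, hgc])
    have h2 : G (z - c) = g z := by simp [hG]
    rw [h2] at h1
    refine h1.trans ?_
    have h3 : r / 6 ≤ R - ‖z - c‖ := by rw [hR]; linarith
    have h4 : 0 < R - ‖z - c‖ := lt_of_lt_of_le (by positivity) h3
    rw [div_le_iff₀ h4]
    nlinarith [norm_nonneg (z - c)]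
  -- Cauchy estimate
  have hball : closedBall s (r / 6) ⊆ closedBall c (7 / 6 * r) := by
    refine closedBall_subset_closedBall' ?_
    rw [dist_eq_norm]
    linarith
  have hball2 : closedBall c (7 / 6 * r) ⊆ ball c R := by
    refine closedBall_subset_ball ?_
    rw [hR]; linarith
  have hdc : DiffContOnCl ℂ g (ball s (r / 6)) :=
    hgd.diffContOnCl_ball (hball.trans hball2)
  have hder : ‖deriv g s‖ ≤ 14 * M / (r / 6) :=
    Complex.norm_deriv_le_of_forall_mem_sphere_norm_le (by positivity) hdc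
      (fun z hz' => hbc z (hball (sphere_subset_closedBall hz')))
  have hs : s ∈ ball c R := by
    rw [mem_ball, dist_eq_norm]
    exact lt_of_le_of_lt hsc (by rw [hR]; linarith)
  rw [(hg s hs).deriv] at hder
  refine hder.trans ?_
  rw [div_div_eq_mul_div]
  have hlog : Real.log 2 ≤ 1 := by
    have := Real.log_two_lt_d9
    linarith
  have hk0 : (0 : ℝ) ≤ ((k + 1 : ℕ) : ℝ) := Nat.cast_nonneg _
  have : 14 * M * 6 ≤ 84 * ((k + 1 : ℕ) : ℝ) := by
    rw [hM]
    nlinarith
  gcongr


/-- removing the zeros near the centre one after the other -/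
theorem locF_ind (k : ℕ) : ∀ (f : ℂ → ℂ) (c : ℂ) (r B : ℝ), 0 < r →
    (∀ z ∈ closedBall c (4 * r), DifferentiableAt ℂ f z) →
    (∀ z ∈ closedBall c (4 * r), ‖f z‖ ≤ B) →
    B < 2 ^ k * ‖f c‖ → f c ≠ 0 →
    ∃ (m : ℕ) (ρ : Fin m → ℂ), (∀ j, f (ρ j) = 0 ∧ ‖ρ j - c‖ ≤ 2 * r) ∧
      ∀ s : ℂ, ‖s - c‖ ≤ r → f s ≠ 0 →
        ‖deriv f s / f s - ∑ j, (s - ρ j)⁻¹‖ ≤ 84 * (k : ℝ) / r := by
  induction k with
  | zero =>
    intro f c r B hr _ hB hBk _
    exfalso
    have h1 := hB c (mem_closedBall_self (by positivity))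
    rw [pow_zero, one_mul] at hBk
    linarith
  | succ k ih =>
    intro f c r B hr hd hB hBk hfc
    by_cases hex : ∃ ρ ∈ closedBall c (4 / 3 * r), f ρ = 0
    · obtain ⟨ρ, hρ, hρ0⟩ := hex
      rw [mem_closedBall, dist_eq_norm] at hρ
      have hρb : ρ ∈ ball c (4 * r) := by
        rw [mem_ball, dist_eq_norm]
        linarith
      set h : ℂ → ℂ := dslope f ρ with hh
      have hfh : ∀ z, f z = (z - ρ) * h z := by
        intro z
        have := sub_smul_dslope f ρ z
        rw [hρ0, sub_zero, smul_eq_mul] at this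
        exact this.symm
      have hdh : ∀ z ∈ closedBall c (4 * r), DifferentiableAt ℂ h z := by
        intro z hz'
        by_cases hzρ : z = ρ
        · subst hzρ
          have h1 : DifferentiableOn ℂ (dslope f z) (ball c (4 * r)) :=
            (Complex.differentiableOn_dslope (isOpen_ball.mem_nhds hρb)).mpr
              (fun w hw => (hd w (ball_subset_closedBall hw)).differentiableWithinAt)
          exact h1.differentiableAt (isOpen_ball.mem_nhds hρb)
        · exact (differentiableAt_dslope_of_ne hzρ).mpr (hd z hz')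
      have hhc : h c ≠ 0 := fun h0 => hfc (by rw [hfh, h0, mul_zero])
      have hbd : ∀ z ∈ closedBall c (4 * r), ‖h z‖ ≤ B / (8 / 3 * r) := by
        refine Zfr.locA_max (by positivity) hdh ?_
        intro z hz'
        have h1 : 8 / 3 * r ≤ ‖z - ρ‖ := by
          have h2 : ‖z - c‖ ≤ ‖z - ρ‖ + ‖ρ - c‖ := by
            have : z - c = (z - ρ) + (ρ - c) := by ring
            rw [this]
            exact norm_add_le _ _
          linarith
        have h3 := hB z (by rw [mem_closedBall, dist_eq_norm]; exact hz'.le)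
        rw [hfh, norm_mul] at h3
        rw [le_div_iff₀ (by positivity)]
        calc ‖h z‖ * (8 / 3 * r) ≤ ‖h z‖ * ‖z - ρ‖ := by gcongr
          _ = ‖z - ρ‖ * ‖h z‖ := mul_comm _ _
          _ ≤ B := h3
      have hlow : B / (8 / 3 * r) < 2 ^ k * ‖h c‖ := by
        rw [div_lt_iff₀ (by positivity)]
        refine lt_of_lt_of_le hBk ?_
        rw [hfh c, norm_mul, pow_succ]
        have h1 : ‖c - ρ‖ ≤ 4 / 3 * r := by rw [norm_sub_rev]; exact hρ
        calc 2 ^ k * 2 * (‖c - ρ‖ * ‖h c‖) ≤ 2 ^ k * 2 * (4 / 3 * r * ‖h c‖) := by gcongr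
          _ = 2 ^ k * ‖h c‖ * (8 / 3 * r) := by ring
      obtain ⟨m, σ, hσ, hm⟩ := ih h c r (B / (8 / 3 * r)) hr hdh hbd hlow hhc
      refine ⟨m + 1, Fin.cons ρ σ, ?_, ?_⟩
      · intro j
        refine Fin.cases ?_ (fun j => ?_) j
        · rw [Fin.cons_zero]
          exact ⟨hρ0, by linarith⟩
        · rw [Fin.cons_succ]
          exact ⟨by rw [hfh, (hσ j).1, mul_zero], (hσ j).2⟩
      · intro s hsc hfs
        have hhs : h s ≠ 0 := fun h0 => hfs (by rw [hfh, h0, mul_zero])
        have hscl : s ∈ closedBall c (4 * r) := by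
          rw [mem_closedBall, dist_eq_norm]
          linarith
        rw [Zfr.locA_deriv hfh (hdh s hscl) hfs, Fin.sum_univ_succ, Fin.cons_zero]
        simp only [Fin.cons_succ]
        have h1 : (s - ρ)⁻¹ + deriv h s / h s - ((s - ρ)⁻¹ + ∑ j, (s - σ j)⁻¹) =
            deriv h s / h s - ∑ j, (s - σ j)⁻¹ := by ring
        rw [h1]
        refine (hm s hsc hhs).trans ?_
        push_cast
        gcongr
        linarith
    · push Not at hex
      refine ⟨0, Fin.elim0, fun j => j.elim0, ?_⟩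
      intro s hsc _
      simp only [Finset.univ_eq_empty, Finset.sum_empty, sub_zero]
      exact locF_nozero f c s r B k hr hd hB hBk hfc hsc hex

/-- B. Landau's local lemma, two-sided. -/
theorem local_factor : ∃ C : ℝ, 0 < C ∧ ∀ (f : ℂ → ℂ) (c : ℂ) (r B L : ℝ), 0 < r → 0 ≤ L →
    (∀ z ∈ Metric.closedBall c (4 * r), DifferentiableAt ℂ f z) →
    (∀ z ∈ Metric.closedBall c (4 * r), ‖f z‖ ≤ B) →
    B ≤ Real.exp L * ‖f c‖ → f c ≠ 0 →
    ∃ (k : ℕ) (ρ : Fin k → ℂ), (∀ j, f (ρ j) = 0 ∧ ‖ρ j - c‖ ≤ 2 * r) ∧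
      ∀ s : ℂ, ‖s - c‖ ≤ r → f s ≠ 0 →
        ‖deriv f s / f s - ∑ j, (s - ρ j)⁻¹‖ ≤ C * (L + 1) / r := by
  refine ⟨168, by norm_num, ?_⟩
  intro f c r B L hr hL hd hB hBL hfc
  set k : ℕ := ⌊2 * L⌋₊ + 1 with hk
  have hk1 : 2 * L < (k : ℝ) := by
    rw [hk]
    push_cast
    exact Nat.lt_floor_add_one _
  have hk2 : (k : ℝ) ≤ 2 * L + 1 := by
    rw [hk]
    push_cast
    have := Nat.floor_le (a := 2 * L) (by positivity)
    linarith
  have hfc0 : 0 < ‖f c‖ := norm_pos_iff.mpr hfc
  have hlog : (1 : ℝ) / 2 < Real.log 2 := by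
    have := Real.log_two_gt_d9
    linarith
  have hexp : Real.exp L < 2 ^ k := by
    have h1 : Real.exp L < Real.exp (k * Real.log 2) := by
      rw [Real.exp_lt_exp]
      nlinarith
    have h2 : Real.exp (k * Real.log 2) = 2 ^ k := by
      rw [← Real.log_pow, Real.exp_log (by positivity)]
    rwa [h2] at h1
  have hBk : B < 2 ^ k * ‖f c‖ := lt_of_le_of_lt hBL (mul_lt_mul_of_pos_right hexp hfc0)
  obtain ⟨m, ρ, hρ, hm⟩ := locF_ind k f c r B hr hd hB hBk hfc
  refine ⟨m, ρ, hρ, fun s hsc hfs => (hm s hsc hfs).trans ?_⟩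
  have h84 : 84 * (k : ℝ) ≤ 168 * (L + 1) := by linarith
  exact div_le_div_of_nonneg_right h84 hr.le

end Pool.Agent.MPfb225e.Szf
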