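import Mathlib
import Pool.Agent.Lib.MP_fb225e_nt.Zfr.PlacesBias
import Pool.Agent.Lib.MP_fb225e_nt.Zfr.CurveData
import Pool.Agent.Lib.MP_fb225e_nt.Fam.Mean

/-!
MP_fb225e_nt, project SZF, module D: from the places of `K` to the rational primes, two-sided,
uniform in `K`.
-/

set_option linter.all false

namespace Pool.Agent.MPfb225e.Szf

open Filter Topology Complex
open NumberField IsDedekindDomain

universe u

open Zfr

theorem pr_sub (f : ℕ → ℝ) (k : Nat.Primes → ℝ) (h0 : ∀ m, ¬ m.Prime → f m = 0)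
    (h1 : ∀ (m : ℕ) (hm : m.Prime), f m = k ⟨m, hm⟩) : ∑' m, f m = ∑' p, k p := by
  have h4 : Function.support f ⊆ {m : ℕ | m.Prime} := by
    intro m hm
    by_contra h
    exact hm (h0 m h)
  rw [← tsum_subtype_eq_of_support_subset h4]
  have e : (fun p : {m : ℕ | m.Prime} => f p) = fun p => k ⟨p.1, p.2⟩ :=
    funext fun p => h1 p.1 p.2
  rw [e]
  rfl

/-- sums over the places of prime norm -/
theorem pr_fibers {K : Type u} [Field K] [NumberField K] (g : ℕ → ℝ)
    (hs : Summable fun v : HeightOneSpectrum (𝓞 K) =>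
      if (Fam.N v).Prime then g (Fam.N v) else 0) :
    (∑' v : HeightOneSpectrum (𝓞 K), if (Fam.N v).Prime then g (Fam.N v) else 0) =
      ∑' p : Nat.Primes, (Fam.homCount K p * g p) := by
  classical
  obtain ⟨h, hh⟩ : ∃ h : ℕ → ℝ, ∀ m, h m = if m.Prime then g m else 0 := ⟨_, fun _ => rfl⟩
  have hfun : (fun v : HeightOneSpectrum (𝓞 K) =>
      if (Fam.N v).Prime then g (Fam.N v) else 0) = fun v => h (Fam.N v) :=
    funext fun v => (hh _).symm
  rw [hfun] at hs ⊢
  let e := Equiv.sigmaFiberEquiv (fun v : HeightOneSpectrum (𝓞 K) => Fam.N v)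
  have hs' : Summable fun x : (Σ m : ℕ, {v : HeightOneSpectrum (𝓞 K) // Fam.N v = m}) =>
      h (Fam.N (e x)) :=
    (Equiv.summable_iff (f := fun v : HeightOneSpectrum (𝓞 K) => h (Fam.N v)) e).2 hs
  have h1 : ∑' v : HeightOneSpectrum (𝓞 K), h (Fam.N v) =
      ∑' m : ℕ, ∑' v : {v : HeightOneSpectrum (𝓞 K) // Fam.N v = m}, h (Fam.N v.1) := by
    rw [← e.tsum_eq]
    exact hs'.tsum_sigma
  rw [h1]
  have h2 : ∀ m : ℕ, ∑' v : {v : HeightOneSpectrum (𝓞 K) // Fam.N v = m}, h (Fam.N v.1) =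
      (Nat.card {v : HeightOneSpectrum (𝓞 K) // Fam.N v = m} : ℝ) * h m := by
    intro m
    have := Fam.finite_fiber (K := K) m
    have := Fintype.ofFinite {v : HeightOneSpectrum (𝓞 K) // Fam.N v = m}
    have h3 : ∀ v : {v : HeightOneSpectrum (𝓞 K) // Fam.N v = m}, h (Fam.N v.1) = h m := fun v => by
      rw [v.2]
    rw [tsum_fintype, Finset.sum_congr rfl fun v _ => h3 v, Finset.sum_const, Finset.card_univ,
      ← Nat.card_eq_fintype_card, nsmul_eq_mul]
  rw [tsum_congr h2]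
  refine pr_sub _ _ (fun m hm => ?_) (fun m hm => ?_)
  · rw [hh, if_neg hm, mul_zero]
  · rw [hh, if_pos hm, Fam.card_fiber hm]

/-- D. From the places of `K` to the rational primes, uniformly in `K`. -/
theorem compare' (n B : ℕ) (C : ℝ) (hC : 0 ≤ C) : ∃ D : ℝ, ∀ (K : Type u) [Field K] [NumberField K],
    Module.finrank ℚ K = n → ∀ (x : HeightOneSpectrum (𝓞 K) → ℝ) (y : ℕ → ℝ), (∀ v, |x v| ≤ C) →
    (∀ p : ℕ, p.Prime → |y p| ≤ C) → (∀ v, (Fam.N v).Prime → B < Fam.N v → x v = y (Fam.N v)) →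
    ∀ ε : ℝ, 0 < ε →
    |(∑' v : HeightOneSpectrum (𝓞 K), Real.log (nrm v) * nrm v ^ (-(1 + ε)) * x v) -
      ∑' p : Nat.Primes, Real.log p * (p : ℝ) ^ (-(1 + ε)) * (Fam.homCount K p * y p)| ≤ D := by
  classical
  set F1 : ℕ → ℝ := fun m => C * (4 * (m : ℝ) ^ (-(3 / 2 : ℝ))) with hF1
  set F2 : ℕ → ℝ := fun m => if m ≤ B then 2 * C else 0 with hF2
  have hs1 : Summable F1 := ((Real.summable_nat_rpow.2 (by norm_num)).mul_left _).mul_left _
  have hs2 : Summable F2 := by
    refine summable_of_ne_finset_zero (s := Finset.range (B + 1)) fun m hm => ?_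
    rw [hF2]
    simp only
    rw [if_neg]
    intro h
    exact hm (Finset.mem_range.2 (by omega))
  have h10 : ∀ m, 0 ≤ F1 m := fun m => by rw [hF1]; positivity
  have h20 : ∀ m, 0 ≤ F2 m := fun m => by rw [hF2]; simp only; split_ifs <;> linarith
  set G : ℕ → ℝ := fun m => F1 m + F2 m with hG
  have hG0 : ∀ m, 0 ≤ G m := fun m => by
    have h1 := h10 m
    have h2 := h20 m
    rw [hG]; simp only; linarith
  have hGs : Summable G := hs1.add hs2
  refine ⟨n * ∑' m, G m, ?_⟩
  intro K _ _ hn x y hx hy hxy ε hε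
  have hn' : Module.finrank ℤ (𝓞 K) = n := by rw [RingOfIntegers.rank, hn]
  -- weights
  set w : ℕ → ℝ := fun m => Real.log m * (m : ℝ) ^ (-(1 + ε)) with hw
  have hw0 : ∀ m : ℕ, 0 ≤ w m := by
    intro m
    exact mul_nonneg (Real.log_natCast_nonneg m) (by positivity)
  have hws : Summable fun v : HeightOneSpectrum (𝓞 K) => w (Fam.N v) := summable_lw ε hε
  set d : HeightOneSpectrum (𝓞 K) → ℝ := fun v =>
    w (Fam.N v) * x v - (if (Fam.N v).Prime then w (Fam.N v) * y (Fam.N v) else 0) with hd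
  have hsx : Summable fun v : HeightOneSpectrum (𝓞 K) => w (Fam.N v) * x v := by
    refine Summable.of_norm_bounded (hws.mul_left C) fun v => ?_
    rw [Real.norm_eq_abs, abs_mul, abs_of_nonneg (hw0 _), mul_comm]
    exact mul_le_mul_of_nonneg_right (hx v) (hw0 _)
  have hsy : Summable fun v : HeightOneSpectrum (𝓞 K) =>
      if (Fam.N v).Prime then w (Fam.N v) * y (Fam.N v) else 0 := by
    refine Summable.of_norm_bounded (hws.mul_left C) fun v => ?_
    split_ifs with hp
    · rw [Real.norm_eq_abs, abs_mul, abs_of_nonneg (hw0 _), mul_comm]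
      exact mul_le_mul_of_nonneg_right (hy _ hp) (hw0 _)
    · rw [norm_zero]
      exact mul_nonneg hC (hw0 _)
  have hpt : ∀ v : HeightOneSpectrum (𝓞 K), |d v| ≤ G (Fam.N v).minFac := by
    intro v
    have hN1 := Fam.one_lt_N v
    have hN1' : (1 : ℝ) ≤ (Fam.N v : ℝ) := by exact_mod_cast hN1.le
    have h1 := h10 (Fam.N v).minFac
    have h2 := h20 (Fam.N v).minFac
    have h5 : w (Fam.N v) ≤ Real.log (Fam.N v : ℝ) / (Fam.N v : ℝ) := pb_term_le hN1' hε
    have hGm : G (Fam.N v).minFac = F1 (Fam.N v).minFac + F2 (Fam.N v).minFac := rfl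
    rw [hGm]
    by_cases hp : (Fam.N v).Prime
    · have hmf : (Fam.N v).minFac = Fam.N v := hp.minFac_eq
      rw [hmf] at h1 h2 ⊢
      have hdv : d v = w (Fam.N v) * (x v - y (Fam.N v)) := by
        rw [hd]; simp only; rw [if_pos hp]; ring
      by_cases hlt : Fam.N v ≤ B
      · have h4 : F2 (Fam.N v) = 2 * C := by rw [hF2]; simp only; rw [if_pos hlt]
        have h6 : Real.log (Fam.N v : ℝ) / (Fam.N v : ℝ) ≤ 1 := by
          rw [div_le_one (by linarith)]
          have := Real.log_le_sub_one_of_pos (show (0 : ℝ) < (Fam.N v : ℝ) by linarith)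
          linarith
        have h7 : |x v - y (Fam.N v)| ≤ 2 * C := by
          refine (abs_sub _ _).trans ?_
          linarith [hx v, hy (Fam.N v) hp]
        have h8 : |d v| ≤ 1 * (2 * C) := by
          rw [hdv, abs_mul, abs_of_nonneg (hw0 _)]
          exact mul_le_mul (h5.trans h6) h7 (abs_nonneg _) zero_le_one
        linarith
      · rw [not_le] at hlt
        have h9 : d v = 0 := by rw [hdv, hxy v hp hlt]; ring
        rw [h9, abs_zero]
        linarith
    · have h4 := Fam.sq_minFac_le v hp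
      have hm0 : 0 < (Fam.N v).minFac := Nat.minFac_pos _
      have h6 := pb_log_div_le hN1'
      have h7 : (Fam.N v : ℝ) ^ (-(3 / 4 : ℝ)) ≤ (((Fam.N v).minFac : ℝ) ^ 2) ^ (-(3 / 4 : ℝ)) := by
        apply Real.rpow_le_rpow_of_nonpos
        · positivity
        · exact_mod_cast h4
        · norm_num
      have h8 : (((Fam.N v).minFac : ℝ) ^ 2) ^ (-(3 / 4 : ℝ)) =
          ((Fam.N v).minFac : ℝ) ^ (-(3 / 2 : ℝ)) := by
        rw [← Real.rpow_natCast, ← Real.rpow_mul (by positivity)]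
        norm_num
      rw [h8] at h7
      have h9 : F1 (Fam.N v).minFac = C * (4 * ((Fam.N v).minFac : ℝ) ^ (-(3 / 2 : ℝ))) := rfl
      have h10' : w (Fam.N v) ≤ 4 * ((Fam.N v).minFac : ℝ) ^ (-(3 / 2 : ℝ)) := by linarith
      have hdv : d v = w (Fam.N v) * x v := by
        rw [hd]; simp only; rw [if_neg hp, sub_zero]
      have h11 : |d v| ≤ (4 * ((Fam.N v).minFac : ℝ) ^ (-(3 / 2 : ℝ))) * C := by
        rw [hdv, abs_mul, abs_of_nonneg (hw0 _)]
        exact mul_le_mul h10' (hx v) (abs_nonneg _) (by positivity)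
      linarith
  have hfib := pr_fibers (K := K) (fun m => w m * y m) hsy
  have hgoal : (∑' v : HeightOneSpectrum (𝓞 K), Real.log (nrm v) * nrm v ^ (-(1 + ε)) * x v) -
      ∑' p : Nat.Primes, Real.log p * (p : ℝ) ^ (-(1 + ε)) * (Fam.homCount K p * y p) =
      ∑' v, d v := by
    have e1 : (∑' v : HeightOneSpectrum (𝓞 K), Real.log (nrm v) * nrm v ^ (-(1 + ε)) * x v) =
      ∑' v : HeightOneSpectrum (𝓞 K), w (Fam.N v) * x v := rfl
    have e2 : (∑' p : Nat.Primes, Real.log p * (p : ℝ) ^ (-(1 + ε)) *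
        (Fam.homCount K p * y p)) = ∑' p : Nat.Primes, (Fam.homCount K p * (w p * y p)) := by
      refine tsum_congr fun p => ?_
      rw [hw]
      ring
    rw [e1, e2, ← hfib, ← hsx.tsum_sub hsy]
  rw [hgoal]
  have hfinb : ∀ V : Finset (HeightOneSpectrum (𝓞 K)), ∑ v ∈ V, ‖d v‖ ≤ n * ∑' m, G m := by
    intro V
    calc ∑ v ∈ V, ‖d v‖
        ≤ ∑ v ∈ V, G (Fam.N v).minFac := Finset.sum_le_sum fun v _ => hpt v
      _ = ∑ p ∈ V.image (fun v => (Fam.N v).minFac),
          ((V.filter fun v => (Fam.N v).minFac = p).card : ℝ) * G p := by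
          rw [Finset.sum_comp (fun p : ℕ => G p) fun v => (Fam.N v).minFac]
          simp only [nsmul_eq_mul]
      _ ≤ ∑ p ∈ V.image (fun v => (Fam.N v).minFac), (n : ℝ) * G p := by
          refine Finset.sum_le_sum fun p hp => ?_
          obtain ⟨v, -, rfl⟩ := Finset.mem_image.1 hp
          refine mul_le_mul_of_nonneg_right ?_ (hG0 _)
          have h1 := Fam.one_lt_N v
          rw [← hn']
          exact_mod_cast Fam.card_above_le (Nat.minFac_prime (by omega)) _
            fun w hw => (Finset.mem_filter.1 hw).2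
      _ ≤ ∑' p, (n : ℝ) * G p := (hGs.mul_left _).sum_le_tsum _
          fun p _ => mul_nonneg (by positivity) (hG0 p)
      _ = n * ∑' m, G m := tsum_mul_left
  have hds : Summable fun v => ‖d v‖ := summable_of_sum_le (fun v => norm_nonneg _) hfinb
  rw [← Real.norm_eq_abs]
  exact (norm_tsum_le_tsum_norm hds).trans (Real.tsum_le_of_sum_le (fun v => norm_nonneg _) hfinb)

end Pool.Agent.MPfb225e.Szf
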