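import Mathlib
import Pool.Agent.Lib.MP_fb225e_nt.Zfr.OneSided
import Pool.Agent.Lib.MP_fb225e_nt.Szf.LocalFac

/-!
MP_fb225e_nt, project SZF, module C: a lower bound for the sum over the places at small scales,
from one larger scale.
-/

namespace Pool.Agent.MPfb225e.Szf

open Filter Topology Complex
open NumberField IsDedekindDomain

universe u

/-- the real part of `1/(1+ε-ρ)` -/
theorem ZL_re (ρ : ℂ) (ε : ℝ) :
    ((((1 + ε : ℝ) : ℂ) - ρ)⁻¹).re = (ε + (1 - ρ.re)) / ((ε + (1 - ρ.re)) ^ 2 + ρ.im ^ 2) := by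
  rw [Complex.inv_re, Complex.normSq_apply]
  simp only [Complex.sub_re, Complex.ofReal_re, Complex.sub_im, Complex.ofReal_im]
  congr 1
  · ring
  · ring

theorem ZL_nonneg {ρ : ℂ} (hρ : ρ.re ≤ 1) {ε : ℝ} (hε : 0 < ε) :
    0 ≤ ((((1 + ε : ℝ) : ℂ) - ρ)⁻¹).re := by
  rw [ZL_re]
  have : 0 ≤ ε + (1 - ρ.re) := by linarith
  positivity

/-- a zero seen from the scale `ε₁` with weight at most `2/3` is not close to `1` -/
theorem ZL_far {d γ ε₁ : ℝ} (hd : 0 ≤ d) (hε : 0 < ε₁)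
    (h : ε₁ * ((ε₁ + d) / ((ε₁ + d) ^ 2 + γ ^ 2)) ≤ 2 / 3) : ε₁ ^ 2 / 16 ≤ d ^ 2 + γ ^ 2 := by
  by_contra hcon
  push Not at hcon
  have hpos : 0 < (ε₁ + d) ^ 2 + γ ^ 2 := by positivity
  rw [mul_div_assoc', div_le_iff₀ hpos] at h
  have hd2 : d < ε₁ / 4 := by
    by_contra h'
    push Not at h'
    nlinarith [sq_nonneg γ]
  nlinarith [sq_nonneg γ]

theorem ZL_compare {d γ ε ε₁ : ℝ} (hd : 0 ≤ d) (hε : 0 < ε) (hεε : ε ≤ ε₁)
    (h : ε₁ ^ 2 / 16 ≤ d ^ 2 + γ ^ 2) :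
    (ε + d) / ((ε + d) ^ 2 + γ ^ 2) ≤ 25 * ((ε₁ + d) / ((ε₁ + d) ^ 2 + γ ^ 2)) := by
  have hε₁ : 0 < ε₁ := lt_of_lt_of_le hε hεε
  have h1 : (ε₁ + d) ^ 2 + γ ^ 2 ≤ 25 * (d ^ 2 + γ ^ 2) := by
    nlinarith [sq_nonneg (ε₁ / 2 - 2 * d), sq_nonneg γ]
  have h2 : d ^ 2 + γ ^ 2 ≤ (ε + d) ^ 2 + γ ^ 2 := by nlinarith
  rw [mul_div_assoc', div_le_div_iff₀ (by positivity) (by positivity)]
  have h3 : 0 ≤ (ε₁ + d) ^ 2 + γ ^ 2 := by positivity
  calc (ε + d) * ((ε₁ + d) ^ 2 + γ ^ 2) ≤ (ε₁ + d) * ((ε₁ + d) ^ 2 + γ ^ 2) :=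
        mul_le_mul_of_nonneg_right (by linarith) h3
    _ ≤ (ε₁ + d) * (25 * ((ε + d) ^ 2 + γ ^ 2)) :=
        mul_le_mul_of_nonneg_left (by linarith) (by linarith)
    _ = 25 * (ε₁ + d) * ((ε + d) ^ 2 + γ ^ 2) := by ring

open Zfr in
/-- the two-sided expansion of the sum over the places, uniformly in `K` -/
theorem ZL_expansion (n : ℕ) : ∃ D : ℝ, 0 < D ∧
    ∀ (K : Type u) [Field K] [NumberField K], Module.finrank ℚ K = n →
    ∀ (κ δ M : ℝ), 0 < δ → δ ≤ 1 / 2 → 2 ≤ M →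
    (∀ x : ℝ, 1 ≤ x →
      |(Nat.card {J : Ideal (𝓞 K) // J ≠ ⊥ ∧ (Ideal.absNorm J : ℝ) ≤ x} : ℝ) - κ * x| ≤
        M * x ^ (1 - δ)) →
    ∃ (k : ℕ) (ρ : Fin k → ℂ), (∀ j, (ρ j).re ≤ 1) ∧ ∀ ε : ℝ, 0 < ε → ε ≤ δ / 4 →
      |(∑' v : HeightOneSpectrum (𝓞 K), Real.log (nrm v) * nrm v ^ (-(1 + ε))) - 1 / ε +
        ∑ j, ((((1 + ε : ℝ) : ℂ) - ρ j)⁻¹).re| ≤ D * (Lg M 0 δ / δ) := by
  obtain ⟨CA, hCA, hA⟩ := local_factor
  obtain ⟨CB, hB⟩ := bd_le.{u} n
  set C1 : ℝ := Real.log 129600 + |CB| with hC1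
  have hC1' : 0 ≤ C1 := by
    have : 0 ≤ Real.log 129600 := Real.log_nonneg (by norm_num)
    positivity
  refine ⟨4 * CA * (8 + C1 + 1) + |CB|, by positivity, ?_⟩
  intro K _ _ hn κ δ M hδ hδ1 hM hcount
  have hbd : bd (Curve.qv (K := K)) ∅ ≤ |CB| := (hB K hn).2.trans (le_abs_self _)
  obtain ⟨Z, hZd, hZ1, hZ2⟩ := exists_Z K κ M δ hδ hδ1 (by linarith) hcount
  have hL2 := two_le_Lg (T := 0) hδ hδ1 le_rfl hM
  have hLM := log_M_le (T := 0) hδ hδ1 le_rfl hM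
  have hLδ := log_δ_le (T := 0) hδ hδ1 le_rfl hM
  set L := Lg M 0 δ with hL
  have hLpos : 0 < L := by linarith
  set r : ℝ := δ / 4 with hr
  have hrpos : 0 < r := by positivity
  set c : ℂ := ((1 + r : ℝ) : ℂ) + (0 : ℝ) * I with hc
  have hcre : c.re = 1 + r := by simp [hc]
  have hball : ∀ z ∈ Metric.closedBall c (4 * r), 1 - 3 / 4 * δ ≤ z.re ∧ ‖z‖ ≤ 2 := by
    intro z hz
    rw [Metric.mem_closedBall, dist_eq_norm] at hz
    have h1 := (Complex.abs_re_le_norm (z - c)).trans hz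
    rw [Complex.sub_re, hcre, abs_le] at h1
    refine ⟨by rw [hr] at h1; linarith [h1.1], ?_⟩
    have h2 : ‖c‖ ≤ 1 + r := by
      rw [hc]
      simp only [Complex.ofReal_zero, zero_mul, add_zero]
      rw [Complex.norm_real, Real.norm_of_nonneg (by linarith)]
    have h3 : ‖z‖ ≤ ‖z - c‖ + ‖c‖ := by
      have := norm_add_le (z - c) c
      rwa [sub_add_cancel] at this
    rw [hr] at h2 hz
    linarith
  set B : ℝ := 10 * M * 3 ^ 2 / δ with hBdef
  have hBpos : 0 < B := by positivity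
  have hZB : ∀ z ∈ Metric.closedBall c (4 * r), ‖Z z‖ ≤ B := by
    intro z hz
    obtain ⟨h1, h2⟩ := hball z hz
    refine (hZ2 z h1).trans ?_
    rw [hBdef]
    refine div_le_div_of_nonneg_right ?_ hδ.le
    refine mul_le_mul_of_nonneg_left ?_ (by linarith)
    refine pow_le_pow_left₀ (by positivity) (by linarith) 2
  have hne : ∀ z : ℂ, 1 < z.re → Z z ≠ 0 := by
    intro z hz
    rw [hZ1 z hz]
    refine mul_ne_zero ?_ (Zeta.zeta_ne hz)
    intro h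
    rw [sub_eq_zero] at h
    rw [h] at hz
    simp at hz
  have hc1 : 1 < c.re := by rw [hcre]; linarith
  -- lower bound at the centre
  have hlow : Real.log (δ / 4) - Real.log (360 * M / δ ^ 2) - |CB| ≤ Real.log ‖Z c‖ := by
    have h1 := sum_le_of_Z K hδ hδ1 hM hZ1 hZ2
    have h2 := zeta_log_lower K 0 r hrpos (by rw [hr]; linarith)
    rw [hZ1 c hc1, norm_mul, Real.log_mul (norm_ne_zero_iff.2 ?_)
      (norm_ne_zero_iff.2 (Zeta.zeta_ne hc1))]
    · have h3 : Real.log (δ / 4) ≤ Real.log ‖c - 1‖ := by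
        refine Real.log_le_log (by positivity) ?_
        have h4 := Complex.abs_re_le_norm (c - 1)
        rw [Complex.sub_re, hcre, Complex.one_re, add_sub_cancel_left, abs_of_pos hrpos] at h4
        exact h4
      have h5 : Real.log ‖dedekindZeta K c‖ =
          Real.log ‖dedekindZeta K (((1 + r : ℝ) : ℂ) + (0 : ℝ) * I)‖ := rfl
      rw [h5]
      linarith
    · intro h
      rw [sub_eq_zero] at h
      rw [h] at hc1
      simp at hc1
  set L' : ℝ := 8 * L + C1 with hL'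
  have hL'0 : 0 ≤ L' := by positivity
  have hBc : B ≤ Real.exp L' * ‖Z c‖ := by
    have hZc : 0 < ‖Z c‖ := norm_pos_iff.2 (hne c hc1)
    have h1 : Real.log B ≤ L' + Real.log ‖Z c‖ := by
      have h2 : Real.log B = Real.log 90 + Real.log M - Real.log δ := by
        rw [hBdef, show 10 * M * 3 ^ 2 = 90 * M by ring,
          Real.log_div (by positivity) (by positivity), Real.log_mul (by positivity)
          (by positivity)]
      have h3 : Real.log (δ / 4) = Real.log δ - Real.log 4 :=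
        Real.log_div (by positivity) (by positivity)
      have h4 : Real.log (360 * M / δ ^ 2) = Real.log 360 + Real.log M - 2 * Real.log δ := by
        rw [Real.log_div (by positivity) (by positivity), Real.log_mul (by positivity)
          (by positivity), Real.log_pow]
        push_cast; ring
      have h6 : Real.log 129600 = Real.log 90 + Real.log 4 + Real.log 360 := by
        rw [show (129600 : ℝ) = 90 * 4 * 360 by norm_num, Real.log_mul (by norm_num) (by norm_num),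
          Real.log_mul (by norm_num) (by norm_num)]
      rw [h3, h4] at hlow
      rw [h2, hL', hC1, h6]
      linarith
    calc B = Real.exp (Real.log B) := (Real.exp_log hBpos).symm
      _ ≤ Real.exp (L' + Real.log ‖Z c‖) := Real.exp_le_exp.2 h1
      _ = Real.exp L' * ‖Z c‖ := by rw [Real.exp_add, Real.exp_log hZc]
  obtain ⟨k, ρ, hρ, hkey⟩ := hA Z c r B L' hrpos hL'0
    (fun z hz => hZd z (by linarith [(hball z hz).1])) hZB hBc (hne c hc1)
  refine ⟨k, ρ, fun j => ?_, ?_⟩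
  · by_contra hcon
    push Not at hcon
    exact hne _ hcon (hρ j).1
  intro ε hε hεδ
  set s : ℂ := ((1 + ε : ℝ) : ℂ) + (0 : ℝ) * I with hs
  have hs' : s = ((1 + ε : ℝ) : ℂ) := by simp [hs]
  have hsre : s.re = 1 + ε := by simp [hs]
  have hs1 : 1 < s.re := by rw [hsre]; linarith
  have hsc : ‖s - c‖ ≤ r := by
    have e : s - c = ((ε - r : ℝ) : ℂ) := by rw [hs, hc]; push_cast; ring
    rw [e, Complex.norm_real, Real.norm_eq_abs, abs_le]
    constructor <;> linarith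
  have key := hkey s hsc (hne s hs1)
  have key2 := (Complex.abs_re_le_norm _).trans key
  -- logarithmic derivative of `Z`
  have hlog : deriv Z s / Z s = (s - 1)⁻¹ + deriv (dedekindZeta K) s / dedekindZeta K s := by
    have hev : Z =ᶠ[𝓝 s] fun z => (z - 1) * dedekindZeta K z := by
      have hopen : IsOpen {z : ℂ | 1 < z.re} := isOpen_lt continuous_const Complex.continuous_re
      filter_upwards [hopen.mem_nhds hs1] with z hz
      exact hZ1 z hz
    have hs0 : s - 1 ≠ 0 := by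
      intro h
      rw [sub_eq_zero] at h
      rw [h] at hs1
      simp at hs1
    have hdz : DifferentiableAt ℂ (dedekindZeta K) s := by
      have h1 : DifferentiableAt ℂ Z s := hZd s (by linarith)
      have h2 : dedekindZeta K =ᶠ[𝓝 s] fun z => Z z / (z - 1) := by
        have hopen : IsOpen {z : ℂ | 1 < z.re} := isOpen_lt continuous_const Complex.continuous_re
        filter_upwards [hopen.mem_nhds hs1] with z hz
        have : z - 1 ≠ 0 := by
          intro h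
          rw [sub_eq_zero] at h
          have hz' : 1 < z.re := hz
          rw [h] at hz'
          simp at hz'
        rw [hZ1 z hz, mul_div_cancel_left₀ _ this]
      exact (h1.div (differentiableAt_id.sub_const 1) hs0).congr_of_eventuallyEq h2
    have h3 : HasDerivAt (fun z : ℂ => (z - 1) * dedekindZeta K z)
        (1 * dedekindZeta K s + (s - 1) * deriv (dedekindZeta K) s) s :=
      ((hasDerivAt_id s).sub_const 1).mul hdz.hasDerivAt
    rw [hev.deriv_eq, h3.deriv, hZ1 s hs1]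
    have := Zeta.zeta_ne (K := K) hs1
    field_simp
  have hre : ((s - 1)⁻¹).re = 1 / ε := by
    have e : s - 1 = ((ε : ℝ) : ℂ) := by rw [hs]; push_cast; ring
    rw [e, ← Complex.ofReal_inv, Complex.ofReal_re, one_div]
  have hsum : (∑ j, (s - ρ j)⁻¹).re = ∑ j, ((((1 + ε : ℝ) : ℂ) - ρ j)⁻¹).re := by
    rw [Complex.re_sum, hs']
  rw [Complex.sub_re, hlog, Complex.add_re, hre, hsum] at key2
  have hexp := zeta_deriv_expansion K 0 ε hε (by linarith)
  have hs2 : deriv (dedekindZeta K) ((1 + ε : ℝ) + (0 : ℝ) * I) /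
      dedekindZeta K ((1 + ε : ℝ) + (0 : ℝ) * I) =
      deriv (dedekindZeta K) s / dedekindZeta K s := rfl
  rw [hs2] at hexp
  have hX : (∑' v : HeightOneSpectrum (𝓞 K),
        Real.log (nrm v) * nrm v ^ (-(1 + ε)) * Real.cos (0 * Real.log (nrm v))) =
      ∑' v : HeightOneSpectrum (𝓞 K), Real.log (nrm v) * nrm v ^ (-(1 + ε)) := by
    refine tsum_congr fun v => ?_
    rw [zero_mul, Real.cos_zero, mul_one]
  rw [hX] at hexp
  have hexp' := hexp.trans hbd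
  have hfin : CA * (L' + 1) / r + |CB| ≤ (4 * CA * (8 + C1 + 1) + |CB|) * (L / δ) := by
    have h1 : CA * (L' + 1) / r ≤ 4 * CA * (8 + C1 + 1) * (L / δ) := by
      have e : CA * (L' + 1) / r = 4 * CA * (L' + 1) / δ := by rw [hr]; field_simp
      rw [e, mul_div_assoc', mul_assoc (4 * CA)]
      refine div_le_div_of_nonneg_right ?_ hδ.le
      refine mul_le_mul_of_nonneg_left ?_ (by positivity)
      rw [hL']
      nlinarith
    have h2 : |CB| ≤ |CB| * (L / δ) := by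
      refine le_mul_of_one_le_right (abs_nonneg _) ?_
      rw [le_div_iff₀ hδ]
      linarith
    rw [add_mul]
    linarith
  rw [abs_le] at key2 hexp' ⊢
  constructor <;> linarith [key2.1, key2.2, hexp'.1, hexp'.2]

open Zfr in
/-- C. If `ζ_K` has no zero very close to 1 (seen at the scale `ε₁`), then its pole dominates at
smaller scales. -/
theorem zeta_lower (n : ℕ) (κ' : ℝ) (hκ' : 0 < κ') : ∃ θ₁ : ℝ, 0 < θ₁ ∧ ∀ θ₂ : ℝ, 0 < θ₂ →
    θ₂ ≤ θ₁ → ∃ θ₀ : ℝ, 0 < θ₀ ∧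
    ∀ (K : Type u) [Field K] [NumberField K], Module.finrank ℚ K = n →
    ∀ (κ δ M θ : ℝ), 0 < δ → δ ≤ 1 / 2 → 2 ≤ M → 0 < θ → θ ≤ θ₀ →
    (∀ x : ℝ, 1 ≤ x →
      |(Nat.card {J : Ideal (𝓞 K) // J ≠ ⊥ ∧ (Ideal.absNorm J : ℝ) ≤ x} : ℝ) - κ * x| ≤
        M * x ^ (1 - δ)) →
    ∀ ε₁ : ℝ, ε₁ = θ₂ * δ / Lg M 0 δ →
    2 / 5 ≤ ∑' v : HeightOneSpectrum (𝓞 K), ε₁ * (Real.log (nrm v) * nrm v ^ (-(1 + ε₁))) →
    ∀ ε : ℝ, ε = θ * δ / Lg M 0 δ →
    1 - κ' ≤ ∑' v : HeightOneSpectrum (𝓞 K), ε * (Real.log (nrm v) * nrm v ^ (-(1 + ε))) := by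
  obtain ⟨D, hD, hexp⟩ := ZL_expansion.{u} n
  refine ⟨min (1 / (20 * D)) (1 / 2), by positivity, ?_⟩
  intro θ₂ hθ₂ hθ₂1
  refine ⟨min θ₂ (κ' / (17 / θ₂ + D)), by positivity, ?_⟩
  intro K _ _ hn κ δ M θ hδ hδ1 hM hθ hθ0 hcount ε₁ hε₁ h25 ε hε
  obtain ⟨k, ρ, hρ, hX⟩ := hexp K hn κ δ M hδ hδ1 hM hcount
  have hL2 := two_le_Lg (T := 0) hδ hδ1 le_rfl hM
  set L := Lg M 0 δ with hL
  have hLpos : 0 < L := by linarith
  have hθ2a : θ₂ ≤ 1 / (20 * D) := hθ₂1.trans (min_le_left _ _)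
  have hθ2b : θ₂ ≤ 1 / 2 := hθ₂1.trans (min_le_right _ _)
  have hθ0a : θ ≤ θ₂ := hθ0.trans (min_le_left _ _)
  have hθ0b : θ ≤ κ' / (17 / θ₂ + D) := hθ0.trans (min_le_right _ _)
  have hε₁pos : 0 < ε₁ := by rw [hε₁]; positivity
  have hεpos : 0 < ε := by rw [hε]; positivity
  have hεε : ε ≤ ε₁ := by
    rw [hε, hε₁]
    exact div_le_div_of_nonneg_right (mul_le_mul_of_nonneg_right hθ0a hδ.le) hLpos.le
  have hε₁δ : ε₁ ≤ δ / 4 := by
    rw [hε₁, div_le_div_iff₀ hLpos (by norm_num)]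
    nlinarith
  have h1 := hX ε₁ hε₁pos hε₁δ
  have h2 := hX ε hεpos (hεε.trans hε₁δ)
  rw [tsum_mul_left] at h25 ⊢
  set X₁ := ∑' v : HeightOneSpectrum (𝓞 K), Real.log (nrm v) * nrm v ^ (-(1 + ε₁)) with hX₁
  set X := ∑' v : HeightOneSpectrum (𝓞 K), Real.log (nrm v) * nrm v ^ (-(1 + ε)) with hXd
  set A₁ := ∑ j, ((((1 + ε₁ : ℝ) : ℂ) - ρ j)⁻¹).re with hA₁
  set A := ∑ j, ((((1 + ε : ℝ) : ℂ) - ρ j)⁻¹).re with hA
  rw [abs_le] at h1 h2
  have hscale : ∀ θ' ε' : ℝ, ε' = θ' * δ / L → ε' * (D * (L / δ)) = D * θ' := by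
    intro θ' ε' h
    rw [h]
    field_simp
  have hs₁ := hscale θ₂ ε₁ hε₁
  have hs := hscale θ ε hε
  -- the sum over the zeros at the larger scale
  have hA₁le : ε₁ * A₁ ≤ 2 / 3 := by
    have h3 : ε₁ * (X₁ - 1 / ε₁ + A₁) ≤ ε₁ * (D * (L / δ)) :=
      mul_le_mul_of_nonneg_left h1.2 hε₁pos.le
    rw [hs₁] at h3
    have h4 : ε₁ * (X₁ - 1 / ε₁ + A₁) = ε₁ * X₁ - 1 + ε₁ * A₁ := by
      field_simp
    have h5 : D * θ₂ ≤ 1 / 20 := by
      rw [le_div_iff₀ (by positivity)] at hθ2a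
      linarith
    rw [h4] at h3
    linarith
  -- comparison of the single terms
  have hterm : ∀ j, ((((1 + ε : ℝ) : ℂ) - ρ j)⁻¹).re ≤ 25 * ((((1 + ε₁ : ℝ) : ℂ) - ρ j)⁻¹).re := by
    intro j
    have h3 : ε₁ * ((((1 + ε₁ : ℝ) : ℂ) - ρ j)⁻¹).re ≤ 2 / 3 := by
      refine le_trans (mul_le_mul_of_nonneg_left ?_ hε₁pos.le) hA₁le
      rw [hA₁]
      exact Finset.single_le_sum (f := fun j => ((((1 + ε₁ : ℝ) : ℂ) - ρ j)⁻¹).re)
        (fun i _ => ZL_nonneg (hρ i) hε₁pos) (Finset.mem_univ j)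
    rw [ZL_re] at h3 ⊢
    rw [ZL_re]
    have hd : 0 ≤ 1 - (ρ j).re := by linarith [hρ j]
    exact ZL_compare hd hεpos hεε (ZL_far hd hε₁pos h3)
  have hAle : A ≤ 25 * A₁ := by
    rw [hA, hA₁, Finset.mul_sum]
    exact Finset.sum_le_sum fun j _ => hterm j
  have hA₁0 : 0 ≤ A₁ := by
    rw [hA₁]
    exact Finset.sum_nonneg fun j _ => ZL_nonneg (hρ j) hε₁pos
  have hratio : ε = θ / θ₂ * ε₁ := by
    rw [hε, hε₁]
    field_simp
  have hεA : ε * A ≤ 17 / θ₂ * θ := by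
    calc ε * A ≤ ε * (25 * A₁) := mul_le_mul_of_nonneg_left hAle hεpos.le
      _ = 25 * (θ / θ₂) * (ε₁ * A₁) := by rw [hratio]; ring
      _ ≤ 25 * (θ / θ₂) * (2 / 3) := mul_le_mul_of_nonneg_left hA₁le (by positivity)
      _ ≤ 17 / θ₂ * θ := by
          have : 0 ≤ θ / θ₂ := by positivity
          have e : 17 / θ₂ * θ = 17 * (θ / θ₂) := by ring
          rw [e]
          linarith
  have h3 : ε * (-(D * (L / δ))) ≤ ε * (X - 1 / ε + A) :=
    mul_le_mul_of_nonneg_left h2.1 hεpos.le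
  have h4 : ε * (X - 1 / ε + A) = ε * X - 1 + ε * A := by
    field_simp
  have h5 : ε * (-(D * (L / δ))) = -(D * θ) := by rw [mul_neg, hs]
  rw [h4, h5] at h3
  have h6 : θ * (17 / θ₂ + D) ≤ κ' := by
    rwa [le_div_iff₀ (by positivity)] at hθ0b
  have h7 : θ * (17 / θ₂ + D) = 17 / θ₂ * θ + D * θ := by ring
  linarith

end Pool.Agent.MPfb225e.Szf
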