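import Mathlib
import Pool.Agent.Lib.MP_fb225e_nt.Szf.Index
import Pool.Agent.Lib.MP_fb225e_nt.Szf.LocalFac
import Pool.Agent.Lib.MP_fb225e_nt.Szf.Primes
import Pool.Agent.Lib.MP_fb225e_nt.Szf.ZetaLower
import Pool.Agent.Lib.MP_fb225e_nt.Szf.Defs
import Pool.Agent.Lib.MP_fb225e_nt.Fam.Disjoint
import Pool.Agent.Lib.MP_fb225e_nt.Zfr.OneSided

/-!
MP_fb225e_nt, project SZF: upper bounds for the mean values of the numbers of primes of degree one,
uniform in the fields.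
-/

namespace Pool.Agent.MPfb225e.Szf

open Filter Topology Complex
open NumberField IsDedekindDomain

universe u

/-- `M` bounds the error term, of exponent `1 - δ`, of the ideal count of `K`. -/
def Cnt (K : Type u) [Field K] [NumberField K] (δ M : ℝ) : Prop :=
  ∃ κ : ℝ, ∀ x : ℝ, 1 ≤ x →
    |(Nat.card {J : Ideal (𝓞 K) // J ≠ ⊥ ∧ (Ideal.absNorm J : ℝ) ≤ x} : ℝ) - κ * x| ≤
      M * x ^ (1 - δ)

/-- constants for all degrees up to `n` -/
theorem exists_uniform {P : ℕ → ℝ → Prop} (h : ∀ d, ∃ θ₀ : ℝ, 0 < θ₀ ∧ ∀ θ, 0 < θ → θ ≤ θ₀ → P d θ)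
    (n : ℕ) : ∃ θ₀ : ℝ, 0 < θ₀ ∧ ∀ θ, 0 < θ → θ ≤ θ₀ → ∀ d ≤ n, P d θ := by
  induction n with
  | zero =>
    obtain ⟨θ₀, h0, h1⟩ := h 0
    exact ⟨θ₀, h0, fun θ h2 h3 d hd => by rw [Nat.le_zero.1 hd]; exact h1 θ h2 h3⟩
  | succ n ih =>
    obtain ⟨θ₁, h0, h1⟩ := ih
    obtain ⟨θ₂, h2, h3⟩ := h (n + 1)
    refine ⟨min θ₁ θ₂, lt_min h0 h2, fun θ h4 h5 d hd => ?_⟩
    rcases Nat.lt_or_ge d (n + 1) with h6 | h6
    · exact h1 θ h4 (h5.trans (min_le_left _ _)) d (by omega)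
    · have : d = n + 1 := by omega
      rw [this]
      exact h3 θ h4 (h5.trans (min_le_right _ _))

/-- The mean value of the number of primes of degree one is at most `1 + κ'`. -/
theorem one_upper (d : ℕ) (κ' : ℝ) (hκ' : 0 < κ') : ∃ θ₀ : ℝ, 0 < θ₀ ∧ ∀ θ : ℝ, 0 < θ → θ ≤ θ₀ →
    ∀ (K : Type u) [Field K] [NumberField K], Module.finrank ℚ K = d → ∀ δ M : ℝ, 0 < δ →
    δ ≤ 1 / 2 → 2 ≤ M → Cnt K δ M → ∀ ε : ℝ, ε = θ * δ / Zfr.Lg M 0 δ →
    ε * ∑' p, lp ε p * Fam.homCount K p ≤ 1 + κ' := by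
  obtain ⟨θ₁, hθ₁, hone⟩ := Zfr.one_sided_zeta'.{u} d 0 (κ' / 2) (by positivity)
  obtain ⟨D, hD⟩ := compare'.{u} d 0 1 (by norm_num)
  refine ⟨min θ₁ (κ' / 2 / (|D| + 1)), by positivity, ?_⟩
  intro θ hθ hθ0 K _ _ hd δ M hδ hδ1 hM ⟨κ, hcount⟩ ε hε
  have h1 : θ ≤ θ₁ := hθ0.trans (min_le_left _ _)
  have h2 : θ ≤ κ' / 2 / (|D| + 1) := hθ0.trans (min_le_right _ _)
  have hL2 := Zfr.two_le_Lg hδ hδ1 (le_refl (0 : ℝ)) hM
  have hε0 : 0 < ε := by
    rw [hε]
    have : 0 < Zfr.Lg M 0 δ := by linarith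
    positivity
  have hεθ : ε ≤ θ := by
    rw [hε, div_le_iff₀ (by linarith)]
    nlinarith
  have h3 := hone K hd κ δ 0 M θ hδ hδ1 le_rfl hM hθ h1 hcount ε hε 0 (by simp)
  have h4 := hD K hd (fun _ => 1) (fun _ => 1) (by simp) (by simp) (by simp) ε hε0
  have e4 : (∑' p : Nat.Primes, Real.log p * (p : ℝ) ^ (-(1 + ε)) *
      (Fam.homCount K p * (1 : ℝ))) = ∑' p, lp ε p * Fam.homCount K p := by
    refine tsum_congr fun p => ?_
    rw [mul_one]
    rfl
  rw [e4] at h4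
  have e5 : (∑' v : HeightOneSpectrum (𝓞 K), ε * (Real.log (nrm v) * nrm v ^ (-(1 + ε))) *
      Real.cos (0 * Real.log (nrm v))) =
      ε * ∑' v : HeightOneSpectrum (𝓞 K), Real.log (nrm v) * nrm v ^ (-(1 + ε)) * 1 := by
    rw [← tsum_mul_left]
    refine tsum_congr fun v => ?_
    rw [zero_mul, Real.cos_zero]
    ring
  rw [e5, Zfr.gk_zero] at h3
  set X := ∑' v : HeightOneSpectrum (𝓞 K), Real.log (nrm v) * nrm v ^ (-(1 + ε)) * 1 with hX
  rw [abs_le] at h4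
  have h6 : ε * (|D| + 1) ≤ κ' / 2 := by
    rw [le_div_iff₀ (by positivity)] at h2
    exact (mul_le_mul_of_nonneg_right hεθ (by positivity)).trans h2
  have h7 : ε * (∑' p, lp ε p * Fam.homCount K p) ≤ ε * (X + D) :=
    mul_le_mul_of_nonneg_left (by linarith [h4.1]) hε0.le
  have h8 : ε * D ≤ ε * |D| := mul_le_mul_of_nonneg_left (le_abs_self D) hε0.le
  nlinarith

/-- the degree -/
noncomputable def deg (K : Type u) [Field K] [NumberField K] : ℕ := Module.finrank ℚ K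

theorem deg_pos (K : Type u) [Field K] [NumberField K] : 1 ≤ deg K := Module.finrank_pos

theorem finrank_pi_fields {ι : Type*} [Fintype ι] (k : ι → Type u) [∀ i, Field (k i)]
    [∀ i, NumberField (k i)] {A : Type*} [AddCommGroup A] [Module ℚ A] (e : A ≃+ (∀ i, k i)) :
    Module.finrank ℚ A = ∑ i, deg (k i) := by
  unfold deg
  rw [← Module.finrank_pi_fintype]
  exact LinearEquiv.finrank_eq
    { e with map_smul' := fun c x => by simpa using map_rat_smul (e : A →+ (∀ i, k i)) c x }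

theorem homCount_le' (K : Type u) [Field K] [NumberField K] (p : Nat.Primes) :
    (Fam.homCount K p : ℝ) ≤ deg K := by
  unfold deg
  have h := Fam.homCount_le K p.2
  rw [RingOfIntegers.rank] at h
  exact_mod_cast h

/-- the primes dividing an integer -/
theorem sum_dvd_le {D : ℕ} (hD : D ≠ 0) {ε : ℝ} (hε : 0 < ε) :
    Summable (fun p : Nat.Primes => if (p : ℕ) ∣ D then lp ε p else 0) ∧
    ∑' p : Nat.Primes, (if (p : ℕ) ∣ D then lp ε p else 0) ≤ Real.log D := by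
  classical
  have hfin : {p : Nat.Primes | (p : ℕ) ∣ D}.Finite := by
    have : {n : ℕ | n ∣ D}.Finite := (Nat.divisors D).finite_toSet.subset fun n hn => by
      rw [Finset.mem_coe, Nat.mem_divisors]; exact ⟨hn, hD⟩
    exact Set.Finite.preimage (f := fun p : Nat.Primes => (p : ℕ))
      (Nat.Primes.coe_nat_injective.injOn) this
  have hz : ∀ p ∉ hfin.toFinset, (if (p : ℕ) ∣ D then lp ε p else 0) = 0 := by
    intro p hp
    exact if_neg fun h => hp (hfin.mem_toFinset.2 h)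
  refine ⟨summable_of_ne_finset_zero hz, ?_⟩
  rw [tsum_eq_sum hz]
  have h1 : ∀ p ∈ hfin.toFinset, (if (p : ℕ) ∣ D then lp ε p else 0) ≤ Real.log (p : ℕ) := by
    intro p hp
    have hp' : (p : ℕ) ∣ D := hfin.mem_toFinset.1 hp
    rw [if_pos hp']
    unfold lp
    refine mul_le_of_le_one_right (Real.log_natCast_nonneg _) ?_
    refine Real.rpow_le_one_of_one_le_of_nonpos ?_ (by linarith)
    exact_mod_cast p.2.one_lt.le
  refine (Finset.sum_le_sum h1).trans ?_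
  have h2 : (∑ p ∈ hfin.toFinset, Real.log ((p : ℕ) : ℝ)) =
      Real.log (∏ p ∈ hfin.toFinset.map ⟨fun p : Nat.Primes => (p : ℕ),
        Nat.Primes.coe_nat_injective⟩, (p : ℝ)) := by
    rw [Finset.prod_map, Real.log_prod]
    · rfl
    · intro p _
      exact (by exact_mod_cast p.2.pos.ne' : ((p : ℕ) : ℝ) ≠ 0)
  rw [h2, ← Nat.cast_prod]
  refine Real.log_le_log ?_ ?_
  · rw [Nat.cast_pos]
    refine Finset.prod_pos fun p hp => ?_
    rw [Finset.mem_map] at hp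
    obtain ⟨q, -, rfl⟩ := hp
    exact q.2.pos
  · rw [Nat.cast_le]
    refine Nat.le_of_dvd (Nat.pos_of_ne_zero hD) ?_
    refine Finset.prod_primes_dvd D ?_ ?_
    · intro p hp
      rw [Finset.mem_map] at hp
      obtain ⟨q, -, rfl⟩ := hp
      exact q.2.prime
    · intro p hp
      rw [Finset.mem_map] at hp
      obtain ⟨q, hq, rfl⟩ := hp
      exact hfin.mem_toFinset.1 hq

/-- The mean value of the product is at most the number of simple factors of the tensor product. -/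
theorem mul_upper (n : ℕ) (κ' : ℝ) (hκ' : 0 < κ') : ∃ θ₀ : ℝ, 0 < θ₀ ∧ ∀ θ : ℝ, 0 < θ → θ ≤ θ₀ →
    ∀ (K L : Type u) [Field K] [NumberField K] [Field L] [NumberField L],
    Module.finrank ℚ K ≤ n → Module.finrank ℚ L ≤ n → ∀ δ M : ℝ, 0 < δ →
    δ ≤ 1 / 2 → 2 ≤ M → (|NumberField.discr L| : ℝ) ≤ M →
    (∀ I : MaximalSpectrum (TensorProduct ℚ K L), Cnt (Fam.Fac K L I) δ M) →
    ∀ ε : ℝ, ε = θ * δ / Zfr.Lg M 0 δ →
    ε * ∑' p, lp ε p * ((Fam.homCount K p : ℝ) * Fam.homCount L p) ≤ Fam.gam K L + κ' := by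
  classical
  obtain ⟨θ₁, hθ₁, hone⟩ := exists_uniform (fun d => one_upper.{u} d (κ' / (2 * ((n : ℝ) ^ 2 + 1)))
    (by positivity)) (n ^ 2)
  refine ⟨min θ₁ (κ' / (2 * ((n : ℝ) ^ 2 + 1))), by positivity, ?_⟩
  intro θ hθ hθ0 K L _ _ _ _ hK hL δ M hδ hδ1 hM hdisc hcnt ε hε
  have h1 : θ ≤ θ₁ := hθ0.trans (min_le_left _ _)
  have h2 : θ ≤ κ' / (2 * ((n : ℝ) ^ 2 + 1)) := hθ0.trans (min_le_right _ _)
  have hL2 := Zfr.two_le_Lg hδ hδ1 (le_refl (0 : ℝ)) hM
  have hLM := Zfr.log_M_le hδ hδ1 (le_refl (0 : ℝ)) hM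
  set Λ := Zfr.Lg M 0 δ with hΛ
  have hΛ0 : 0 < Λ := by linarith
  have hε0 : 0 < ε := by rw [hε]; positivity
  -- degrees
  have hdegsum : ∑ I : MaximalSpectrum (TensorProduct ℚ K L), deg (Fam.Fac K L I) =
      Module.finrank ℚ K * Module.finrank ℚ L := by
    rw [← Module.finrank_tensorProduct (R := ℚ) (S := ℚ)]
    exact (finrank_pi_fields (fun I : MaximalSpectrum (TensorProduct ℚ K L) => Fam.Fac K L I)
      (IsArtinianRing.equivPi (TensorProduct ℚ K L)).toAddEquiv).symm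
  have hdeg : ∀ I : MaximalSpectrum (TensorProduct ℚ K L), deg (Fam.Fac K L I) ≤ n ^ 2 := by
    intro I
    have h3 := Finset.single_le_sum (f := fun I : MaximalSpectrum (TensorProduct ℚ K L) =>
      deg (Fam.Fac K L I)) (fun _ _ => Nat.zero_le _) (Finset.mem_univ I)
    refine h3.trans ?_
    rw [hdegsum, sq]
    exact Nat.mul_le_mul hK hL
  have hgam : (Fam.gam K L : ℝ) ≤ (n : ℝ) ^ 2 := by
    have h3 : Fam.gam K L ≤ n ^ 2 := by
      calc Fam.gam K L = ∑ _I : MaximalSpectrum (TensorProduct ℚ K L), 1 := by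
            unfold Fam.gam
            rw [Finset.sum_const, Finset.card_univ, Nat.card_eq_fintype_card, smul_eq_mul, mul_one]
        _ ≤ ∑ I : MaximalSpectrum (TensorProduct ℚ K L), deg (Fam.Fac K L I) :=
            Finset.sum_le_sum fun I _ => deg_pos (Fam.Fac K L I)
        _ ≤ n ^ 2 := by rw [hdegsum, sq]; exact Nat.mul_le_mul hK hL
    exact_mod_cast h3
  -- pointwise bound
  have hdisc0 : (NumberField.discr L).natAbs ≠ 0 := Int.natAbs_ne_zero.2 (NumberField.discr_ne_zero L)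
  have hpt : ∀ p : Nat.Primes, lp ε p * ((Fam.homCount K p : ℝ) * Fam.homCount L p) ≤
      (∑ I : MaximalSpectrum (TensorProduct ℚ K L), lp ε p * (Fam.homCount (Fam.Fac K L I) p : ℝ)) +
      (n : ℝ) ^ 2 * (if (p : ℕ) ∣ (NumberField.discr L).natAbs then lp ε p else 0) := by
    intro p
    have hnn : 0 ≤ ∑ I : MaximalSpectrum (TensorProduct ℚ K L),
        lp ε p * (Fam.homCount (Fam.Fac K L I) p : ℝ) :=
      Finset.sum_nonneg fun I _ => mul_nonneg (lp_nonneg _ _) (Nat.cast_nonneg _)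
    by_cases hp : (p : ℕ) ∣ (NumberField.discr L).natAbs
    · rw [if_pos hp]
      have h3 : (Fam.homCount K p : ℝ) * Fam.homCount L p ≤ (n : ℝ) ^ 2 := by
        rw [sq]
        refine mul_le_mul ((homCount_le' K p).trans (by exact_mod_cast hK))
          ((homCount_le' L p).trans (by exact_mod_cast hL)) (Nat.cast_nonneg _) (Nat.cast_nonneg _)
      have h4 := mul_le_mul_of_nonneg_left h3 (lp_nonneg ε p)
      linarith
    · rw [if_neg hp, mul_zero, add_zero, ← Finset.mul_sum]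
      refine mul_le_mul_of_nonneg_left (le_of_eq ?_) (lp_nonneg ε p)
      exact_mod_cast homCount_mul_of_not_dvd K L p.2 hp
  obtain ⟨hs2, hs2le⟩ := sum_dvd_le hdisc0 hε0
  have hs1 : ∀ I : MaximalSpectrum (TensorProduct ℚ K L),
      Summable fun p : Nat.Primes => lp ε p * (Fam.homCount (Fam.Fac K L I) p : ℝ) := fun I =>
    summable_lp_mul hε0 (C := deg (Fam.Fac K L I)) fun p => by
      rw [abs_of_nonneg (Nat.cast_nonneg _)]
      exact homCount_le' _ p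
  have hs0 : Summable fun p : Nat.Primes => lp ε p * ((Fam.homCount K p : ℝ) * Fam.homCount L p) :=
    summable_lp_mul hε0 (C := (deg K : ℝ) * deg L) fun p => by
      rw [abs_of_nonneg (by positivity)]
      exact mul_le_mul (homCount_le' _ p) (homCount_le' _ p) (Nat.cast_nonneg _) (Nat.cast_nonneg _)
  have hle := hs0.tsum_le_tsum hpt ((summable_sum fun I _ => hs1 I).add (hs2.mul_left _))
  rw [(summable_sum fun I _ => hs1 I).tsum_add (hs2.mul_left _), tsum_mul_left,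
    Summable.tsum_finsetSum fun I _ => hs1 I] at hle
  have hI : ∀ I : MaximalSpectrum (TensorProduct ℚ K L),
      ε * ∑' p, lp ε p * (Fam.homCount (Fam.Fac K L I) p : ℝ) ≤
        1 + κ' / (2 * ((n : ℝ) ^ 2 + 1)) := fun I =>
    hone θ hθ h1 _ (hdeg I) (Fam.Fac K L I) rfl δ M hδ hδ1 hM (hcnt I) ε hε
  have hsumI : ε * ∑ I : MaximalSpectrum (TensorProduct ℚ K L),
      ∑' p, lp ε p * (Fam.homCount (Fam.Fac K L I) p : ℝ) ≤
      Fam.gam K L * (1 + κ' / (2 * ((n : ℝ) ^ 2 + 1))) := by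
    rw [Finset.mul_sum]
    refine (Finset.sum_le_sum fun I _ => hI I).trans (le_of_eq ?_)
    rw [Finset.sum_const, Finset.card_univ, nsmul_eq_mul]
    unfold Fam.gam
    rw [Nat.card_eq_fintype_card]
  have hq : (0 : ℝ) < (n : ℝ) ^ 2 + 1 := by positivity
  have hκn : (Fam.gam K L : ℝ) * (κ' / (2 * ((n : ℝ) ^ 2 + 1))) ≤ κ' / 2 := by
    have e : κ' / 2 = ((n : ℝ) ^ 2 + 1) * (κ' / (2 * ((n : ℝ) ^ 2 + 1))) := by field_simp
    rw [e]
    refine mul_le_mul_of_nonneg_right (by linarith) (by positivity)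
  -- the ramified primes
  have hlogD : Real.log ((NumberField.discr L).natAbs : ℝ) ≤ Real.log M := by
    refine Real.log_le_log (by exact_mod_cast Nat.pos_of_ne_zero hdisc0) ?_
    rw [Nat.cast_natAbs]
    exact_mod_cast hdisc
  have hram : ε * ((n : ℝ) ^ 2 * ∑' p : Nat.Primes,
      (if (p : ℕ) ∣ (NumberField.discr L).natAbs then lp ε p else 0)) ≤ κ' / 2 := by
    have h3 : ε * ((n : ℝ) ^ 2 * ∑' p : Nat.Primes,
      (if (p : ℕ) ∣ (NumberField.discr L).natAbs then lp ε p else 0)) ≤ ε * ((n : ℝ) ^ 2 * Λ) := by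
      refine mul_le_mul_of_nonneg_left (mul_le_mul_of_nonneg_left ?_ (by positivity)) hε0.le
      linarith
    have h4 : ε * ((n : ℝ) ^ 2 * Λ) = θ * δ * (n : ℝ) ^ 2 := by
      rw [hε]; field_simp
    have h5 : θ * δ * (n : ℝ) ^ 2 ≤ θ * ((n : ℝ) ^ 2 + 1) := by
      have h6 : δ * (n : ℝ) ^ 2 ≤ (n : ℝ) ^ 2 + 1 := by
        have : (0 : ℝ) ≤ (n : ℝ) ^ 2 := by positivity
        nlinarith
      calc θ * δ * (n : ℝ) ^ 2 = θ * (δ * (n : ℝ) ^ 2) := by ring
        _ ≤ θ * ((n : ℝ) ^ 2 + 1) := mul_le_mul_of_nonneg_left h6 hθ.le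
    have h6 : θ * ((n : ℝ) ^ 2 + 1) ≤ κ' / 2 := by
      have e : κ' / 2 = κ' / (2 * ((n : ℝ) ^ 2 + 1)) * ((n : ℝ) ^ 2 + 1) := by field_simp
      rw [e]
      exact mul_le_mul_of_nonneg_right h2 hq.le
    linarith
  calc ε * ∑' p, lp ε p * ((Fam.homCount K p : ℝ) * Fam.homCount L p)
      ≤ ε * _ := mul_le_mul_of_nonneg_left hle hε0.le
    _ ≤ Fam.gam K L + κ' := by
        rw [mul_add]
        nlinarith

end Pool.Agent.MPfb225e.Szf
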