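import Mathlib
import Pool.Agent.Lib.MP_fb225e_nt.Szf.Index
import Pool.Agent.Lib.MP_fb225e_nt.Szf.LocalFac
import Pool.Agent.Lib.MP_fb225e_nt.Szf.Primes
import Pool.Agent.Lib.MP_fb225e_nt.Szf.ZetaLower
import Pool.Agent.Lib.MP_fb225e_nt.Szf.Defs
import Pool.Agent.Lib.MP_fb225e_nt.Fam.Disjoint
import Pool.Agent.Lib.MP_fb225e_nt.Zfr.CurveData
import Pool.Agent.Lib.MP_fb225e_nt.Zfr.Expand
import Pool.Agent.Lib.MP_fb225e_nt.Zfr.OneSided
import Pool.Agent.Lib.MP_fb225e_nt.Zfr.Classical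

/-!
MP_fb225e_nt, project SZF: mean values attached to the curve over `ℚ`.
-/

namespace Pool.Agent.MPfb225e.Szf

open Filter Topology Complex
open NumberField IsDedekindDomain

universe u

/-- `ε F'/F(z₀ + ε)` tends to the order. -/
theorem tendsto_order {F : ℂ → ℂ} (hF : Differentiable ℂ F) (hne : ∃ z, F z ≠ 0) (z₀ : ℂ) :
    Tendsto (fun ε : ℝ => ε * (deriv F (z₀ + ε) / F (z₀ + ε)).re) (𝓝[>] 0)
      (𝓝 (analyticOrderNatAt F z₀ : ℝ)) := by
  have hfin : analyticOrderAt F z₀ ≠ ⊤ := by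
    intro h
    have h1 : F =ᶠ[𝓝 z₀] fun _ => 0 := analyticOrderAt_eq_top.1 h
    have h2 : F = fun _ => 0 :=
      AnalyticOnNhd.eq_of_eventuallyEq (fun z _ => hF.analyticAt z) (fun z _ => analyticAt_const) h1
    obtain ⟨z, hz⟩ := hne
    exact hz (by rw [h2])
  obtain ⟨g, hg, hg0, hev⟩ := ((hF.analyticAt z₀).analyticOrderAt_ne_top).1 hfin
  set n := analyticOrderNatAt F z₀ with hn
  have hc : Tendsto (fun ε : ℝ => z₀ + (ε : ℂ)) (𝓝[>] 0) (𝓝 z₀) := by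
    have h1 : Tendsto (fun ε : ℝ => z₀ + (ε : ℂ)) (𝓝 0) (𝓝 (z₀ + ((0 : ℝ) : ℂ))) :=
      (continuous_const.add Complex.continuous_ofReal).tendsto 0
    rw [Complex.ofReal_zero, add_zero] at h1
    exact h1.mono_left nhdsWithin_le_nhds
  have hev2 : ∀ᶠ z in 𝓝 z₀, F =ᶠ[𝓝 z] fun w => (w - z₀) ^ n • g w := hev.eventually_nhds
  have hgne : ∀ᶠ z in 𝓝 z₀, g z ≠ 0 := hg.continuousAt.eventually_ne hg0
  have hgan : ∀ᶠ z in 𝓝 z₀, AnalyticAt ℂ g z := hg.eventually_analyticAt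
  have hlim : Tendsto (fun ε : ℝ => (n : ℝ) + ε * (deriv g (z₀ + ε) / g (z₀ + ε)).re) (𝓝[>] 0)
      (𝓝 ((n : ℝ) + 0 * (deriv g z₀ / g z₀).re)) := by
    have h1 : Tendsto (fun ε : ℝ => ε) (𝓝[>] 0) (𝓝 0) := tendsto_id.mono_left nhdsWithin_le_nhds
    have h2 : ContinuousAt (fun z => (deriv g z / g z).re) z₀ :=
      Complex.continuous_re.continuousAt.comp ((hg.deriv.continuousAt).div hg.continuousAt hg0)
    exact tendsto_const_nhds.add (h1.mul (h2.tendsto.comp hc))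
  rw [zero_mul, add_zero] at hlim
  refine hlim.congr' ?_
  filter_upwards [hc.eventually hev2, hc.eventually hgne, hc.eventually hgan,
    self_mem_nhdsWithin] with ε h1 h2 h3 h4
  have hε : (0 : ℝ) < ε := h4
  set z : ℂ := z₀ + ε with hz
  have hz0 : z - z₀ = (ε : ℂ) := by rw [hz]; ring
  have hεc : (ε : ℂ) ≠ 0 := by exact_mod_cast hε.ne'
  have hd : deriv F z = n * (z - z₀) ^ (n - 1) * g z + (z - z₀) ^ n * deriv g z := by
    rw [h1.deriv_eq]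
    have h5 : HasDerivAt (fun w => (w - z₀) ^ n • g w)
        ((n * (z - z₀) ^ (n - 1) * 1) * g z + (z - z₀) ^ n * deriv g z) z :=
      (((hasDerivAt_id z).sub_const z₀).pow n).mul h3.differentiableAt.hasDerivAt
    rw [h5.deriv]
    ring
  have hv : F z = (z - z₀) ^ n * g z := h1.eq_of_nhds
  rw [hd, hv, hz0]
  have e : (n * (ε : ℂ) ^ (n - 1) * g z + (ε : ℂ) ^ n * deriv g z) / ((ε : ℂ) ^ n * g z) =
      (n : ℂ) / ε + deriv g z / g z := by
    have hp : (ε : ℂ) ^ n ≠ 0 := pow_ne_zero _ hεc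
    rcases Nat.eq_zero_or_pos n with h | h
    · rw [h]; simp
    · have h6 : (ε : ℂ) ^ n = (ε : ℂ) ^ (n - 1) * ε := by
        rw [← pow_succ]; congr 1; omega
      have hp' : (ε : ℂ) ^ (n - 1) ≠ 0 := pow_ne_zero _ hεc
      rw [h6]
      field_simp
  rw [e, Complex.add_re, mul_add]
  have h7 : ((n : ℂ) / ε).re = n / ε := by
    rw [← Complex.ofReal_natCast, ← Complex.ofReal_div, Complex.ofReal_re]
  rw [h7]
  field_simp

theorem baseChange_rat (E : WeierstrassCurve ℚ) :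
    @WeierstrassCurve.baseChange ℚ _ E ℚ _ DivisionRing.toRatAlgebra = E := by
  have : @algebraMap ℚ ℚ _ _ DivisionRing.toRatAlgebra = RingHom.id ℚ := Subsingleton.elim _ _
  rw [WeierstrassCurve.baseChange, this, WeierstrassCurve.map_id]

/-- The mean value of `a_p / √p`. -/
theorem rat_limit (E : WeierstrassCurve ℚ) [E.IsElliptic] (F₀ : ℂ → ℂ) (hF₀ : Differentiable ℂ F₀)
    (hFL₀ : ∀ s : ℂ, 3 / 2 < s.re → F₀ s = E.LSeries s) :
    Tendsto (fun ε : ℝ => ε * ∑' p, lp ε p * Fam.lam E p) (𝓝[>] 0)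
      (𝓝 (-(analyticOrderNatAt F₀ (3 / 2) : ℝ))) := by
  obtain ⟨B, C, hC2, hlam, -, hbase⟩ := lam_data.{0} E
  obtain ⟨D, hD⟩ := compare'.{0} 1 B C (by linarith)
  obtain ⟨a, b, α, β, cc, Dt, hLs, hxs⟩ := Zfr.exists_data (K := ℚ) E
  have hne : ∃ z, F₀ z ≠ 0 := ⟨2, by
    rw [hFL₀ 2 (by norm_num)]
    exact Zfr.LSeries_ne E (by norm_num)⟩
  have h1 := tendsto_order hF₀ hne (3 / 2)
  have key : ∀ᶠ ε : ℝ in 𝓝[>] 0, |(ε * ∑' p, lp ε p * Fam.lam E p) -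
      -(ε * (deriv F₀ ((3 / 2 : ℂ) + ε) / F₀ ((3 / 2 : ℂ) + ε)).re)| ≤
      ε * (D + Zfr.bd (Curve.qv (K := ℚ)) (Curve.exc ℚ)) := by
    have hlt1 : ∀ᶠ ε : ℝ in 𝓝[>] 0, ε < 1 := by
      have : ∀ᶠ ε : ℝ in 𝓝 0, ε < 1 := gt_mem_nhds (by norm_num)
      exact this.filter_mono nhdsWithin_le_nhds
    filter_upwards [self_mem_nhdsWithin, hlt1] with ε hε hε1
    rw [Set.mem_Ioi] at hε
    have e1 := hD ℚ (by simp) (Zfr.xK E) (Fam.lam E)
      (fun v => (Zfr.abs_xK_le E v).trans hC2) hlam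
      (fun v hp hB => by
        have h := hbase ℚ v hp hB
        rw [baseChange_rat] at h
        exact h) ε hε
    have e2 := Zfr.deriv_expansion Dt 0 ε hε hε1.le
    set s : ℂ := ((3 / 2 + ε : ℝ) : ℂ) + (0 : ℝ) * I with hs
    have hs' : s = (3 / 2 : ℂ) + ε := by rw [hs]; push_cast; ring
    have hs1 : 3 / 2 < s.re := by rw [hs]; simp; linarith
    have hev : F₀ =ᶠ[𝓝 s] LogExp.L (Curve.qv (K := ℚ)) a b := by
      have hopen : IsOpen {z : ℂ | 3 / 2 < z.re} := isOpen_lt continuous_const Complex.continuous_re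
      filter_upwards [hopen.mem_nhds hs1] with z hz
      rw [hFL₀ z hz, hLs z]
    rw [← hev.deriv_eq, ← hev.eq_of_nhds, hs'] at e2
    have e3 : (∑' v : HeightOneSpectrum (𝓞 ℚ), Real.log (nrm v) * nrm v ^ (-(1 + ε)) *
        Zfr.xK E v) = ∑' i, LogExp.xs (Curve.qv (K := ℚ)) a (Curve.exc ℚ) i *
        (Real.log (Curve.qv i) * (Curve.qv i : ℝ) ^ (-(1 + ε)) *
          Real.cos (0 * Real.log (Curve.qv i))) := by
      refine tsum_congr fun v => ?_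
      rw [hxs v, Curve.nrm_eq, zero_mul, Real.cos_zero]
      ring
    have e4 : (∑' p : Nat.Primes, Real.log p * (p : ℝ) ^ (-(1 + ε)) *
        (Fam.homCount ℚ p * Fam.lam E p)) = ∑' p, lp ε p * Fam.lam E p := by
      refine tsum_congr fun p => ?_
      rw [Fam.homCount_rat, Nat.cast_one, one_mul]
      rfl
    rw [e3, e4] at e1
    set X := ∑' i, LogExp.xs (Curve.qv (K := ℚ)) a (Curve.exc ℚ) i *
        (Real.log (Curve.qv i) * (Curve.qv i : ℝ) ^ (-(1 + ε)) *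
          Real.cos (0 * Real.log (Curve.qv i))) with hX
    set Y := ∑' p, lp ε p * Fam.lam E p with hY
    set R := (deriv F₀ ((3 / 2 : ℂ) + ε) / F₀ ((3 / 2 : ℂ) + ε)).re with hR
    have e5 : ε * Y - -(ε * R) = ε * ((R + X) - (X - Y)) := by ring
    rw [e5, abs_mul, abs_of_pos hε]
    refine mul_le_mul_of_nonneg_left ?_ hε.le
    refine (abs_sub _ _).trans ?_
    linarith
  have h2 : Tendsto (fun ε : ℝ => ε * (D + Zfr.bd (Curve.qv (K := ℚ)) (Curve.exc ℚ))) (𝓝[>] 0)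
      (𝓝 0) := by
    have h3 : Tendsto (fun ε : ℝ => ε) (𝓝[>] 0) (𝓝 0) := tendsto_id.mono_left nhdsWithin_le_nhds
    simpa using h3.mul_const (D + Zfr.bd (Curve.qv (K := ℚ)) (Curve.exc ℚ))
  have h4 := squeeze_zero_norm' (a := fun ε : ℝ => ε * (D + Zfr.bd (Curve.qv (K := ℚ)) (Curve.exc ℚ)))
    (f := fun ε : ℝ => (ε * ∑' p, lp ε p * Fam.lam E p) -
      -(ε * (deriv F₀ ((3 / 2 : ℂ) + ε) / F₀ ((3 / 2 : ℂ) + ε)).re)) key h2
  have h5 := h4.add h1.neg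
  rw [zero_add] at h5
  refine h5.congr fun ε => ?_
  ring

/-- The total weight is at most `1 + κ'`. -/
theorem rat_one (κ' : ℝ) (hκ' : 0 < κ') : ∀ᶠ ε : ℝ in 𝓝[>] 0, ε * ∑' p, lp ε p ≤ 1 + κ' := by
  obtain ⟨θ₀, hθ₀, hone⟩ := Zfr.one_sided_zeta'.{0} 1 0 (κ' / 2) (by positivity)
  obtain ⟨κ, -, η', hη', hη'1, CK, hCK⟩ := Zfr.idealCount ℚ
  obtain ⟨D, hD⟩ := compare'.{0} 1 0 1 (by norm_num)
  set δ : ℝ := min η' (1 / 2) with hδ
  have hδ0 : 0 < δ := by positivity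
  have hδ1 : δ ≤ 1 / 2 := min_le_right _ _
  have hδ2 : δ ≤ η' := min_le_left _ _
  set M : ℝ := 2 + |CK| with hM
  have hM2 : 2 ≤ M := by rw [hM]; linarith [abs_nonneg CK]
  have hcount : ∀ x : ℝ, 1 ≤ x →
      |(Nat.card {J : Ideal (𝓞 ℚ) // J ≠ ⊥ ∧ (Ideal.absNorm J : ℝ) ≤ x} : ℝ) - κ * x| ≤
        M * x ^ (1 - δ) := by
    intro x hx
    refine (hCK x hx).trans ?_
    have h1 : x ^ (1 - η') ≤ x ^ (1 - δ) := Real.rpow_le_rpow_of_exponent_le hx (by linarith)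
    have h2 : CK ≤ M := by rw [hM]; linarith [le_abs_self CK]
    have h3 : 0 ≤ x ^ (1 - η') := by positivity
    calc CK * x ^ (1 - η') ≤ M * x ^ (1 - η') := mul_le_mul_of_nonneg_right h2 h3
      _ ≤ M * x ^ (1 - δ) := mul_le_mul_of_nonneg_left h1 (by linarith)
  have hL2 := Zfr.two_le_Lg hδ0 hδ1 (le_refl (0 : ℝ)) hM2
  set L := Zfr.Lg M 0 δ with hL
  have hev : ∀ᶠ ε : ℝ in 𝓝[>] 0, ε < min (θ₀ * δ / L) (κ' / 2 / (|D| + 1)) := by
    have hpos : 0 < min (θ₀ * δ / L) (κ' / 2 / (|D| + 1)) := by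
      have : 0 < L := by linarith
      positivity
    exact (gt_mem_nhds hpos).filter_mono nhdsWithin_le_nhds
  filter_upwards [self_mem_nhdsWithin, hev] with ε hε hε2
  rw [Set.mem_Ioi] at hε
  have hLpos : 0 < L := by linarith
  have h1 : ε < θ₀ * δ / L := hε2.trans_le (min_le_left _ _)
  have h2 : ε < κ' / 2 / (|D| + 1) := hε2.trans_le (min_le_right _ _)
  have h3 := hone ℚ (by simp) κ δ 0 M (ε * L / δ) hδ0 hδ1 le_rfl hM2 (by positivity) (by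
    rw [div_le_iff₀ hδ0]
    rw [lt_div_iff₀ hLpos] at h1
    exact h1.le) hcount ε (by
      rw [← hL]; field_simp) 0 (by simp)
  have h4 := hD ℚ (by simp) (fun _ => 1) (fun _ => 1) (by simp) (by simp) (by simp) ε hε
  have e4 : (∑' p : Nat.Primes, Real.log p * (p : ℝ) ^ (-(1 + ε)) *
      (Fam.homCount ℚ p * (1 : ℝ))) = ∑' p, lp ε p := by
    refine tsum_congr fun p => ?_
    rw [Fam.homCount_rat, Nat.cast_one, one_mul, mul_one]
    rfl
  rw [e4] at h4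
  have e5 : (∑' v : HeightOneSpectrum (𝓞 ℚ), ε * (Real.log (nrm v) * nrm v ^ (-(1 + ε))) *
      Real.cos (0 * Real.log (nrm v))) =
      ε * ∑' v : HeightOneSpectrum (𝓞 ℚ), Real.log (nrm v) * nrm v ^ (-(1 + ε)) * 1 := by
    rw [← tsum_mul_left]
    refine tsum_congr fun v => ?_
    rw [zero_mul, Real.cos_zero]
    ring
  rw [e5, Zfr.gk_zero] at h3
  set X := ∑' v : HeightOneSpectrum (𝓞 ℚ), Real.log (nrm v) * nrm v ^ (-(1 + ε)) * 1 with hX
  rw [abs_le] at h4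
  have h6 : ε * (|D| + 1) < κ' / 2 := by
    rw [lt_div_iff₀ (by positivity)] at h2
    exact h2
  have h7 : ε * (∑' p, lp ε p) ≤ ε * (X + D) := mul_le_mul_of_nonneg_left (by linarith [h4.1]) hε.le
  have h8 : ε * D ≤ ε * |D| := mul_le_mul_of_nonneg_left (le_abs_self D) hε.le
  nlinarith

end Pool.Agent.MPfb225e.Szf
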