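import Mathlib
import Pool.Agent.Lib.MP_fb225e_nt.Szf.Mul
import Pool.Agent.Lib.MP_fb225e_nt.Szf.Rational
import Pool.Agent.Lib.MP_fb225e_nt.Zfr.Main

/-!
MP_fb225e_nt, project SZF: the consequences of a real zero near the edge.
-/

namespace Pool.Agent.MPfb225e.Szf

open Filter Topology Complex
open NumberField IsDedekindDomain

universe u

/-- basic facts about the scale `ε = θ δ / log (2 M / δ)` -/
theorem scale {θ δ M ε : ℝ} (hθ : 0 < θ) (hδ : 0 < δ) (hδ1 : δ ≤ 1 / 2) (hM : 2 ≤ M)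
    (hε : ε = θ * δ / Zfr.Lg M 0 δ) : 0 < ε ∧ ε ≤ θ := by
  have hL2 := Zfr.two_le_Lg hδ hδ1 (le_refl (0 : ℝ)) hM
  have hL : 0 < Zfr.Lg M 0 δ := by linarith
  refine ⟨by rw [hε]; positivity, ?_⟩
  rw [hε, div_le_iff₀ hL]
  nlinarith

/-- The lower bound for the number of primes of degree one, over the rational primes. -/
theorem lower_primes (d : ℕ) (κ' : ℝ) (hκ' : 0 < κ') : ∃ θ₁ : ℝ, 0 < θ₁ ∧ ∀ θ₂ : ℝ, 0 < θ₂ →
    θ₂ ≤ θ₁ → ∃ θ₀ : ℝ, 0 < θ₀ ∧ ∀ θ : ℝ, 0 < θ → θ ≤ θ₀ →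
    ∀ (K : Type u) [Field K] [NumberField K], Module.finrank ℚ K = d →
    ∀ δ M : ℝ, 0 < δ → δ ≤ 1 / 2 → 2 ≤ M → Cnt K δ M → ∀ ε₁ : ℝ, ε₁ = θ₂ * δ / Zfr.Lg M 0 δ →
    2 / 5 ≤ ∑' v : HeightOneSpectrum (𝓞 K), ε₁ * (Real.log (nrm v) * nrm v ^ (-(1 + ε₁))) →
    ∀ ε : ℝ, ε = θ * δ / Zfr.Lg M 0 δ → 1 - κ' ≤ ε * ∑' p, lp ε p * Fam.homCount K p := by
  obtain ⟨θ₁, hθ₁, h⟩ := zeta_lower.{u} d (κ' / 2) (by positivity)
  obtain ⟨D, hD⟩ := compare'.{u} d 0 1 (by norm_num)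
  refine ⟨θ₁, hθ₁, fun θ₂ h2 h3 => ?_⟩
  obtain ⟨θ₀, hθ₀, h4⟩ := h θ₂ h2 h3
  refine ⟨min θ₀ (κ' / 2 / (|D| + 1)), by positivity, ?_⟩
  intro θ hθ hθ0 K _ _ hd δ M hδ hδ1 hM ⟨κ, hcount⟩ ε₁ hε₁ h25 ε hε
  have h1 : θ ≤ θ₀ := hθ0.trans (min_le_left _ _)
  have h2 : θ ≤ κ' / 2 / (|D| + 1) := hθ0.trans (min_le_right _ _)
  obtain ⟨hε0, hεθ⟩ := scale hθ hδ hδ1 hM hε
  have h5 := h4 K hd κ δ M θ hδ hδ1 hM hθ h1 hcount ε₁ hε₁ h25 ε hε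
  have h6 := hD K hd (fun _ => 1) (fun _ => 1) (by simp) (by simp) (by simp) ε hε0
  have e4 : (∑' p : Nat.Primes, Real.log p * (p : ℝ) ^ (-(1 + ε)) *
      (Fam.homCount K p * (1 : ℝ))) = ∑' p, lp ε p * Fam.homCount K p := by
    refine tsum_congr fun p => ?_
    rw [mul_one]
    rfl
  rw [e4] at h6
  have e5 : (∑' v : HeightOneSpectrum (𝓞 K), ε * (Real.log (nrm v) * nrm v ^ (-(1 + ε)))) =
      ε * ∑' v : HeightOneSpectrum (𝓞 K), Real.log (nrm v) * nrm v ^ (-(1 + ε)) * 1 := by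
    rw [← tsum_mul_left]
    exact tsum_congr fun v => by ring
  rw [e5] at h5
  set X := ∑' v : HeightOneSpectrum (𝓞 K), Real.log (nrm v) * nrm v ^ (-(1 + ε)) * 1 with hX
  rw [abs_le] at h6
  have h7 : ε * (|D| + 1) ≤ κ' / 2 := by
    rw [le_div_iff₀ (by positivity)] at h2
    exact (mul_le_mul_of_nonneg_right hεθ (by positivity)).trans h2
  have h8 : ε * (X - D) ≤ ε * (∑' p, lp ε p * Fam.homCount K p) :=
    mul_le_mul_of_nonneg_left (by linarith [h6.2]) hε0.le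
  have h9 : ε * D ≤ ε * |D| := mul_le_mul_of_nonneg_left (le_abs_self D) hε0.le
  nlinarith

/-- A real zero near the edge, in terms of the places. -/
theorem zero_places (d : ℕ) (κ' : ℝ) (hκ' : 0 < κ') (hκ1 : κ' ≤ 1) : ∃ θ₀ : ℝ, 0 < θ₀ ∧ ∀ θ : ℝ,
    0 < θ → θ ≤ θ₀ → ∀ (K : Type u) [Field K] [NumberField K] (W : WeierstrassCurve K),
    Module.finrank ℚ K = d → ∀ (F : ℂ → ℂ), Differentiable ℂ F →
    (∀ s : ℂ, 3 / 2 < s.re → F s = W.LSeries s) → ∀ (δ M : ℝ), 0 < δ → δ ≤ 1 / 2 → 2 ≤ M →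
    (∀ s : ℂ, 3 / 2 - δ ≤ s.re → |s.im| ≤ 1 → ‖F s‖ ≤ M) → Cnt K δ M →
    ∀ ε : ℝ, ε = θ * δ / Zfr.Lg M 0 δ → ∀ β : ℝ, F β = 0 → 3 / 2 - κ' * ε ≤ β →
    ∑' v : HeightOneSpectrum (𝓞 K), ε * (Real.log (nrm v) * nrm v ^ (-(1 + ε))) * Zfr.xK W v ≤
      -1 + 2 * κ' := by
  obtain ⟨θ₀, hθ₀, h⟩ := Zfr.one_sided_curve'.{u} d 0 1 κ' hκ' hκ1
  refine ⟨θ₀, hθ₀, ?_⟩
  intro θ hθ hθ0 K _ _ W hd F hF hFL δ M hδ hδ1 hM hFM ⟨κ, hcount⟩ ε hε β hβ0 hβ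
  obtain ⟨F₁, hF₁, hfac⟩ := Zfr.split_one hF hβ0
  have h1 := h K W hd F hF hFL κ δ 0 M θ hδ hδ1 le_rfl hM hθ hθ0 (fun s hs hs' => hFM s hs (by
    simpa using hs')) hcount (fun _ => (β : ℂ)) F₁ hF₁ (fun z => by
      rw [hfac z, Fin.prod_univ_one]) ε hε (fun _ => by rw [Complex.ofReal_re]; exact hβ) 0
    (by simp)
  have e : (∑' v : HeightOneSpectrum (𝓞 K), ε * (Real.log (nrm v) * nrm v ^ (-(1 + ε))) *
      Zfr.xK W v * Real.cos (0 * Real.log (nrm v))) =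
      ∑' v : HeightOneSpectrum (𝓞 K), ε * (Real.log (nrm v) * nrm v ^ (-(1 + ε))) * Zfr.xK W v := by
    refine tsum_congr fun v => ?_
    rw [zero_mul, Real.cos_zero, mul_one]
  rw [e] at h1
  simp only [Finset.univ_unique, Complex.ofReal_im, sub_zero, Finset.sum_const,
    Finset.card_singleton, one_smul, Zfr.gk_zero] at h1
  linarith

/-- A real zero near the edge, in terms of the rational primes. -/
theorem zero_primes (E : WeierstrassCurve ℚ) [E.IsElliptic] (d : ℕ) (κ' : ℝ) (hκ' : 0 < κ')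
    (hκ1 : κ' ≤ 1) : ∃ θ₀ : ℝ, 0 < θ₀ ∧ ∀ θ : ℝ,
    0 < θ → θ ≤ θ₀ → ∀ (K : Type u) [Field K] [NumberField K],
    Module.finrank ℚ K = d → ∀ (F : ℂ → ℂ), Differentiable ℂ F →
    (∀ s : ℂ, 3 / 2 < s.re → F s = (E.baseChange K).LSeries s) → ∀ (δ M : ℝ), 0 < δ → δ ≤ 1 / 2 →
    2 ≤ M → (∀ s : ℂ, 3 / 2 - δ ≤ s.re → |s.im| ≤ 1 → ‖F s‖ ≤ M) → Cnt K δ M →
    ∀ ε : ℝ, ε = θ * δ / Zfr.Lg M 0 δ → ∀ β : ℝ, F β = 0 → 3 / 2 - κ' * ε ≤ β →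
    ε * ∑' p, lp ε p * (Fam.homCount K p * Fam.lam E p) ≤ -1 + 3 * κ' := by
  obtain ⟨θ₁, hθ₁, h⟩ := zero_places.{u} d κ' hκ' hκ1
  obtain ⟨B, C, hC2, hlam, -, hbase⟩ := lam_data.{u} E
  obtain ⟨D, hD⟩ := compare'.{u} d B C (by linarith)
  refine ⟨min θ₁ (κ' / (|D| + 1)), by positivity, ?_⟩
  intro θ hθ hθ0 K _ _ hd F hF hFL δ M hδ hδ1 hM hFM hcnt ε hε β hβ0 hβ
  have h1 : θ ≤ θ₁ := hθ0.trans (min_le_left _ _)
  have h2 : θ ≤ κ' / (|D| + 1) := hθ0.trans (min_le_right _ _)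
  obtain ⟨hε0, hεθ⟩ := scale hθ hδ hδ1 hM hε
  have h5 := h θ hθ h1 K (E.baseChange K) hd F hF hFL δ M hδ hδ1 hM hFM hcnt ε hε β hβ0 hβ
  have h6 := hD K hd (Zfr.xK (E.baseChange K)) (Fam.lam E)
    (fun v => (Zfr.abs_xK_le _ v).trans hC2) hlam (fun v hp hB => hbase K v hp hB) ε hε0
  have e5 : (∑' v : HeightOneSpectrum (𝓞 K), ε * (Real.log (nrm v) * nrm v ^ (-(1 + ε))) *
      Zfr.xK (E.baseChange K) v) = ε * ∑' v : HeightOneSpectrum (𝓞 K),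
        Real.log (nrm v) * nrm v ^ (-(1 + ε)) * Zfr.xK (E.baseChange K) v := by
    rw [← tsum_mul_left]
    exact tsum_congr fun v => by ring
  rw [e5] at h5
  set X := ∑' v : HeightOneSpectrum (𝓞 K),
    Real.log (nrm v) * nrm v ^ (-(1 + ε)) * Zfr.xK (E.baseChange K) v with hX
  have e4 : (∑' p : Nat.Primes, Real.log p * (p : ℝ) ^ (-(1 + ε)) *
      (Fam.homCount K p * Fam.lam E p)) = ∑' p, lp ε p * (Fam.homCount K p * Fam.lam E p) := rfl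
  rw [e4, abs_le] at h6
  have h7 : ε * (|D| + 1) ≤ κ' := by
    rw [le_div_iff₀ (by positivity)] at h2
    exact (mul_le_mul_of_nonneg_right hεθ (by positivity)).trans h2
  have h8 : ε * (∑' p, lp ε p * (Fam.homCount K p * Fam.lam E p)) ≤ ε * (X + D) :=
    mul_le_mul_of_nonneg_left (by linarith [h6.1]) hε0.le
  have h9 : ε * D ≤ ε * |D| := mul_le_mul_of_nonneg_left (le_abs_self D) hε0.le
  nlinarith

/-- A real zero near the edge forces many places, at the larger scale. -/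
theorem many_places (d : ℕ) : ∃ θ₀ : ℝ, 0 < θ₀ ∧ ∀ θ : ℝ,
    0 < θ → θ ≤ θ₀ → ∀ (K : Type u) [Field K] [NumberField K] (W : WeierstrassCurve K),
    Module.finrank ℚ K = d → ∀ (F : ℂ → ℂ), Differentiable ℂ F →
    (∀ s : ℂ, 3 / 2 < s.re → F s = W.LSeries s) → ∀ (δ M : ℝ), 0 < δ → δ ≤ 1 / 2 → 2 ≤ M →
    (∀ s : ℂ, 3 / 2 - δ ≤ s.re → |s.im| ≤ 1 → ‖F s‖ ≤ M) → Cnt K δ M →
    ∀ ε : ℝ, ε = θ * δ / Zfr.Lg M 0 δ → ∀ β : ℝ, F β = 0 → 3 / 2 - 1 / 20 * ε ≤ β →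
    2 / 5 ≤ ∑' v : HeightOneSpectrum (𝓞 K), ε * (Real.log (nrm v) * nrm v ^ (-(1 + ε))) := by
  obtain ⟨θ₁, hθ₁, h⟩ := zero_places.{u} d (1 / 20) (by norm_num) (by norm_num)
  refine ⟨θ₁, hθ₁, ?_⟩
  intro θ hθ hθ0 K _ _ W hd F hF hFL δ M hδ hδ1 hM hFM hcnt ε hε β hβ0 hβ
  obtain ⟨hε0, -⟩ := scale hθ hδ hδ1 hM hε
  have h5 := h θ hθ hθ0 K W hd F hF hFL δ M hδ hδ1 hM hFM hcnt ε hε β hβ0 hβ
  have hs := Zfr.summable_W (K := K) hε0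
  have hs2 : Summable fun v : HeightOneSpectrum (𝓞 K) =>
      ε * (Real.log (nrm v) * nrm v ^ (-(1 + ε))) * Zfr.xK W v := by
    refine Summable.of_norm_bounded (hs.mul_right 2) fun v => ?_
    rw [Real.norm_eq_abs, abs_mul, abs_of_nonneg (Zfr.W_nonneg hε0 v)]
    exact mul_le_mul_of_nonneg_left (Zfr.abs_xK_le W v) (Zfr.W_nonneg hε0 v)
  have h6 : (∑' v : HeightOneSpectrum (𝓞 K), ε * (Real.log (nrm v) * nrm v ^ (-(1 + ε))) * (-2)) ≤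
      ∑' v : HeightOneSpectrum (𝓞 K), ε * (Real.log (nrm v) * nrm v ^ (-(1 + ε))) * Zfr.xK W v := by
    refine (hs.mul_right (-2)).tsum_le_tsum (fun v => ?_) hs2
    refine mul_le_mul_of_nonneg_left ?_ (Zfr.W_nonneg hε0 v)
    have := Zfr.abs_xK_le W v
    rw [abs_le] at this
    exact this.1
  rw [tsum_mul_right] at h6
  linarith

end Pool.Agent.MPfb225e.Szf
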