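import Mathlib
import Pool.Agent.Lib.MP_fb225e_nt.Szf.Core
import Pool.Agent.Lib.MP_fb225e_nt.Szf.Curve

/-!
MP_fb225e_nt, project SZF: the main theorem.
-/

namespace Pool.Agent.MPfb225e.Szf

open Filter Topology Complex
open NumberField IsDedekindDomain

universe u

/-- The distance to the nearest integer, squared. -/
noncomputable def dz (y : ℝ) : ℝ := |y - round y| ^ 2

theorem dz_nonneg (y : ℝ) : 0 ≤ dz y := by unfold dz; positivity

theorem dz_le (y : ℝ) (k : ℤ) : dz y ≤ (k + y) ^ 2 := by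
  unfold dz
  have h := round_le y (-k)
  rw [← sq_abs (k + y)]
  refine pow_le_pow_left₀ (abs_nonneg _) ?_ 2
  refine h.trans (le_of_eq ?_)
  push_cast
  congr 1
  ring

/-- The mean square is at most 4. -/
theorem mean_sq (E : WeierstrassCurve ℚ) [E.IsElliptic] (κ' : ℝ) (hκ' : 0 < κ') :
    ∀ᶠ ε : ℝ in 𝓝[>] 0, ε * ∑' p, lp ε p * Fam.lam E p ^ 2 ≤ 4 + κ' := by
  classical
  obtain ⟨B, C, hC2, hlam, hbig, -⟩ := lam_data.{0} E
  have h1 := rat_one (κ' / 8) (by positivity)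
  set D : ℝ := C ^ 2 * (B + 1) with hD
  have hD0 : 0 ≤ D := by positivity
  have hev : ∀ᶠ ε : ℝ in 𝓝[>] 0, ε < κ' / 2 / (D + 1) := by
    have hpos : 0 < κ' / 2 / (D + 1) := by positivity
    exact (gt_mem_nhds hpos).filter_mono nhdsWithin_le_nhds
  filter_upwards [self_mem_nhdsWithin, h1, hev] with ε hε h2 h3
  rw [Set.mem_Ioi] at hε
  have hpt : ∀ p : Nat.Primes, lp ε p * Fam.lam E p ^ 2 ≤
      4 * lp ε p + (if (p : ℕ) ≤ B then C ^ 2 else 0) := by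
    intro p
    have hl0 := lp_nonneg ε p
    have hl1 := lp_le_one hε p
    by_cases hp : (p : ℕ) ≤ B
    · rw [if_pos hp]
      have h4 : Fam.lam E p ^ 2 ≤ C ^ 2 := by
        rw [← sq_abs]
        exact pow_le_pow_left₀ (abs_nonneg _) (hlam p p.2) 2
      have h5 : lp ε p * Fam.lam E p ^ 2 ≤ 1 * C ^ 2 :=
        mul_le_mul hl1 h4 (sq_nonneg _) (by norm_num)
      linarith
    · rw [if_neg hp, add_zero]
      have h4 : Fam.lam E p ^ 2 ≤ 2 ^ 2 := by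
        rw [← sq_abs]
        exact pow_le_pow_left₀ (abs_nonneg _) (hbig p p.2 (by omega)) 2
      have := mul_le_mul_of_nonneg_left h4 hl0
      linarith
  have hfin : {p : Nat.Primes | (p : ℕ) ≤ B}.Finite :=
    Set.Finite.preimage (f := fun p : Nat.Primes => (p : ℕ))
      (Nat.Primes.coe_nat_injective.injOn) (Set.finite_Iic B)
  have hz : ∀ p ∉ hfin.toFinset, (if (p : ℕ) ≤ B then C ^ 2 else 0) = 0 := by
    intro p hp
    exact if_neg fun h => hp (hfin.mem_toFinset.2 h)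
  have hs1 : Summable fun p : Nat.Primes => (if (p : ℕ) ≤ B then C ^ 2 else 0) :=
    summable_of_ne_finset_zero hz
  have hs2 : (∑' p : Nat.Primes, (if (p : ℕ) ≤ B then C ^ 2 else 0)) ≤ D := by
    rw [tsum_eq_sum hz]
    have h4 : (∑ p ∈ hfin.toFinset, (if (p : ℕ) ≤ B then C ^ 2 else 0)) ≤
        ∑ _p ∈ hfin.toFinset, C ^ 2 := by
      refine Finset.sum_le_sum fun p _ => ?_
      split_ifs
      · exact le_rfl
      · positivity
    refine h4.trans ?_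
    rw [Finset.sum_const, nsmul_eq_mul, hD, mul_comm]
    refine mul_le_mul_of_nonneg_left ?_ (by positivity)
    have h5 : hfin.toFinset.card ≤ (Finset.range (B + 1)).card := by
      refine Finset.card_le_card_of_injOn (fun p : Nat.Primes => (p : ℕ)) ?_
        (Nat.Primes.coe_nat_injective.injOn)
      intro p hp
      have h6 : (p : ℕ) ≤ B := hfin.mem_toFinset.1 hp
      exact Finset.mem_coe.2 (Finset.mem_range.2 (Nat.lt_succ_of_le h6))
    rw [Finset.card_range] at h5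
    exact_mod_cast h5
  have hs0 : Summable fun p : Nat.Primes => lp ε p * Fam.lam E p ^ 2 :=
    summable_lp_mul hε (C := C ^ 2) fun p => by
      rw [abs_of_nonneg (sq_nonneg _), ← sq_abs]
      exact pow_le_pow_left₀ (abs_nonneg _) (hlam p p.2) 2
  have h4 := hs0.tsum_le_tsum hpt (((summable_lp hε).mul_left 4).add hs1)
  rw [((summable_lp hε).mul_left 4).tsum_add hs1, tsum_mul_left] at h4
  have h5 : ε * (D + 1) < κ' / 2 := by
    rw [lt_div_iff₀ (by positivity)] at h3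
    exact h3
  calc ε * ∑' p, lp ε p * Fam.lam E p ^ 2
      ≤ ε * (4 * ∑' p, lp ε p + D) := mul_le_mul_of_nonneg_left (by linarith) hε.le
    _ = 4 * (ε * ∑' p, lp ε p) + ε * D := by ring
    _ ≤ 4 + κ' := by nlinarith

/-- The main theorem, in the form of a contradiction, for given `u`, `d`. -/
theorem main_core (E : WeierstrassCurve ℚ) [E.IsElliptic] (n m G : ℕ) (u Q ρ : ℝ) (d : ℝ → ℝ)
    (hu : 0 ≤ u) (hρ : 0 < ρ) (hd0 : ∀ x, 0 ≤ d x) (hd : ∀ x (k : ℤ), d x ≤ (k + u * x) ^ 2)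
    (hx : ∀ κ : ℝ, 0 < κ → ∀ᶠ ε : ℝ in 𝓝[>] 0, -κ ≤ ε * ∑' p, lp ε p * Fam.lam E p)
    (hQ : ∀ᶠ ε : ℝ in 𝓝[>] 0,
      ε * ∑' p, lp ε p * ((u * Fam.lam E p) ^ 2 - d (Fam.lam E p)) ≤ Q)
    (hfin : (G : ℝ) - 2 * u * m + Q ≤ -ρ) :
    ∃ c : ℝ, 0 < c ∧ ∀ (K : Fin m → Type u) [∀ i, Field (K i)] [∀ i, NumberField (K i)],
      (∀ i, Module.finrank ℚ (K i) ≤ n) → ∑ i, ∑ j, Fam.gam (K i) (K j) ≤ m ^ 2 + G →
      ∀ F : Fin m → ℂ → ℂ, (∀ i, Differentiable ℂ (F i)) →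
      (∀ i, ∀ s : ℂ, 3 / 2 < s.re → F i s = (E.baseChange (K i)).LSeries s) →
      ∀ δ M : ℝ, 0 < δ → δ ≤ 1 / 2 → 2 ≤ M → (∀ i, (|NumberField.discr (K i)| : ℝ) ≤ M) →
      (∀ i, ∀ s : ℂ, 3 / 2 - δ ≤ s.re → |s.im| ≤ 1 → ‖F i s‖ ≤ M) → (∀ i, Cnt (K i) δ M) →
      (∀ i j I, Cnt (Fam.Fac (K i) (K j) I) δ M) →
      ∃ i, ∀ β : ℝ, 3 / 2 - c * δ / Zfr.Lg M 0 δ < β → F i β ≠ 0 := by
  classical
  set κ : ℝ := min (ρ / (2 * (1 + 3 * (m : ℝ) ^ 2 + 4 * u * m))) 1 with hκ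
  have hden : 0 < 1 + 3 * (m : ℝ) ^ 2 + 4 * u * m := by positivity
  have hκ0 : 0 < κ := by positivity
  have hκ1 : κ ≤ 1 := min_le_right _ _
  have hκ2 : κ * (1 + 3 * (m : ℝ) ^ 2 + 4 * u * m) ≤ ρ / 2 := by
    have h : κ ≤ ρ / (2 * (1 + 3 * (m : ℝ) ^ 2 + 4 * u * m)) := min_le_left _ _
    rw [le_div_iff₀ (by positivity)] at h
    linarith
  -- the larger scale
  obtain ⟨θA, hθA, hA⟩ := exists_uniform (fun d => many_places.{u} d) n
  obtain ⟨θB, hθB, hB⟩ := exists_uniform (fun d => lower_primes.{u} d κ hκ0) n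
  set θ₂ : ℝ := min θA θB with hθ₂
  have hθ₂0 : 0 < θ₂ := by positivity
  have hA2 := hA θ₂ hθ₂0 (min_le_left _ _)
  have hB2 := hB θ₂ hθ₂0 (min_le_right _ _)
  -- the smaller scale
  obtain ⟨θC, hθC, hC⟩ := exists_uniform (P := fun d θ => d ≤ n →
    ∀ (K : Type u) [Field K] [NumberField K], Module.finrank ℚ K = d →
    ∀ δ M : ℝ, 0 < δ → δ ≤ 1 / 2 → 2 ≤ M → Cnt K δ M → ∀ ε₁ : ℝ, ε₁ = θ₂ * δ / Zfr.Lg M 0 δ →
    2 / 5 ≤ ∑' v : HeightOneSpectrum (𝓞 K), ε₁ * (Real.log (nrm v) * nrm v ^ (-(1 + ε₁))) →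
    ∀ ε : ℝ, ε = θ * δ / Zfr.Lg M 0 δ → 1 - κ ≤ ε * ∑' p, lp ε p * Fam.homCount K p)
    (fun d => by
      by_cases hdn : d ≤ n
      · obtain ⟨θ₀, h1, h2⟩ := hB2 d hdn
        exact ⟨θ₀, h1, fun θ h3 h4 _ => h2 θ h3 h4⟩
      · exact ⟨1, one_pos, fun θ _ _ h => absurd h hdn⟩) n
  obtain ⟨θD, hθD, hDm⟩ := mul_upper.{u} n (κ / ((m : ℝ) ^ 2 + 1)) (by positivity)
  obtain ⟨θE, hθE, hE⟩ := exists_uniform (fun d => zero_primes.{u} E d (κ / 3) (by positivity)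
    (by linarith)) n
  -- everything over the rationals
  have hev := (rat_one κ hκ0).and ((hx κ hκ0).and hQ)
  rw [eventually_nhdsWithin_iff, Metric.eventually_nhds_iff] at hev
  obtain ⟨r, hr, hev⟩ := hev
  set θ : ℝ := min (min (min θC θD) (min θE θ₂)) (r / 2) with hθdef
  have hθ0 : 0 < θ := by positivity
  have hθC' : θ ≤ θC := ((min_le_left _ _).trans (min_le_left _ _)).trans (min_le_left _ _)
  have hθD' : θ ≤ θD := ((min_le_left _ _).trans (min_le_left _ _)).trans (min_le_right _ _)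
  have hθE' : θ ≤ θE := ((min_le_left _ _).trans (min_le_right _ _)).trans (min_le_left _ _)
  have hθ₂' : θ ≤ θ₂ := ((min_le_left _ _).trans (min_le_right _ _)).trans (min_le_right _ _)
  have hθr : θ ≤ r / 2 := min_le_right _ _
  refine ⟨min (κ / 3) (1 / 20) * θ, by positivity, ?_⟩
  intro K _ _ hdeg hgam F hF hFL δ M hδ hδ1 hM hdisc hFM hcnt hcnt2
  by_contra hcon
  push Not at hcon
  choose β hβ hβ0 using hcon
  have hL2 := Zfr.two_le_Lg hδ hδ1 (le_refl (0 : ℝ)) hM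
  set Λ := Zfr.Lg M 0 δ with hΛ
  have hΛ0 : 0 < Λ := by linarith
  set ε : ℝ := θ * δ / Λ with hε
  set ε₁ : ℝ := θ₂ * δ / Λ with hε₁
  obtain ⟨hε0, hεθ⟩ := scale hθ0 hδ hδ1 hM hε
  obtain ⟨hε₁0, -⟩ := scale hθ₂0 hδ hδ1 hM hε₁
  have hεε : ε ≤ ε₁ := by
    rw [hε, hε₁]
    exact div_le_div_of_nonneg_right (mul_le_mul_of_nonneg_right hθ₂' hδ.le) hΛ0.le
  have hcε : min (κ / 3) (1 / 20) * θ * δ / Λ = min (κ / 3) (1 / 20) * ε := by
    rw [hε]; ring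
  have hβ1 : ∀ i, 3 / 2 - κ / 3 * ε ≤ β i := by
    intro i
    have h1 := hβ i
    rw [hcε] at h1
    have h2 : min (κ / 3) (1 / 20) * ε ≤ κ / 3 * ε :=
      mul_le_mul_of_nonneg_right (min_le_left _ _) hε0.le
    linarith
  have hβ2 : ∀ i, 3 / 2 - 1 / 20 * ε₁ ≤ β i := by
    intro i
    have h1 := hβ i
    rw [hcε] at h1
    have h2 : min (κ / 3) (1 / 20) * ε ≤ 1 / 20 * ε₁ :=
      mul_le_mul (min_le_right _ _) hεε hε0.le (by norm_num)
    linarith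
  have hεr : dist ε 0 < r := by
    rw [Real.dist_eq, sub_zero, abs_of_pos hε0]
    linarith
  obtain ⟨he1, he2, he3⟩ := hev hεr hε0
  have e1 : ∀ i, 1 - κ ≤ ε * ∑' p, lp ε p * Fam.homCount (K i) p := by
    intro i
    refine hC θ hθ0 hθC' _ (hdeg i) (hdeg i) (K i) rfl δ M hδ hδ1 hM (hcnt i) ε₁ hε₁ ?_ ε hε
    exact hA2 _ (hdeg i) (K i) (E.baseChange (K i)) rfl (F i) (hF i) (hFL i) δ M hδ hδ1 hM (hFM i)
      (hcnt i) ε₁ hε₁ (β i) (hβ0 i) (hβ2 i)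
  have e2 : ∀ i, ε * ∑' p, lp ε p * (Fam.homCount (K i) p * Fam.lam E p) ≤ -1 + κ := by
    intro i
    have h := hE θ hθ0 hθE' _ (hdeg i) (K i) rfl (F i) (hF i) (hFL i) δ M hδ hδ1 hM (hFM i)
      (hcnt i) ε hε (β i) (hβ0 i) (hβ1 i)
    linarith
  have e3 : ∀ i j, ε * ∑' p, lp ε p * ((Fam.homCount (K i) p : ℝ) * Fam.homCount (K j) p) ≤
      Fam.gam (K i) (K j) + κ / ((m : ℝ) ^ 2 + 1) := fun i j =>
    hDm θ hθ0 hθD' (K i) (K j) (hdeg i) (hdeg j) δ M hδ hδ1 hM (hdisc j) (hcnt2 i j) ε hε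
  -- rewriting with the weight `ε lp`
  have hw : ∀ f : Nat.Primes → ℝ, (∑' p, ε * lp ε p * f p) = ε * ∑' p, lp ε p * f p := by
    intro f
    rw [← tsum_mul_left]
    exact tsum_congr fun p => by ring
  obtain ⟨B, C, hC2, hlam, -, -⟩ := lam_data.{0} E
  have key := core (m := m) (fun p => ε * lp ε p) (fun p : Nat.Primes => Fam.lam E p)
    (fun p : Nat.Primes => d (Fam.lam E p)) (fun i (p : Nat.Primes) => Fam.homCount (K i) p) n C κ G
    u Q (fun p => mul_nonneg hε0.le (lp_nonneg ε p)) ((summable_lp hε0).mul_left ε)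
    (fun p => hlam p p.2) (fun i p => (homCount_le' (K i) p).trans (by exact_mod_cast hdeg i)) hu
    (fun p => hd0 _) (fun p k => hd _ k) (by rw [tsum_mul_left]; exact he1)
    (fun i => by rw [hw]; exact e1 i) (by
      have h1 : (∑ i, ∑ j, ∑' p, ε * lp ε p * ((Fam.homCount (K i) p : ℝ) * Fam.homCount (K j) p)) ≤
          ∑ i : Fin m, ∑ j : Fin m, ((Fam.gam (K i) (K j) : ℝ) + κ / ((m : ℝ) ^ 2 + 1)) :=
        Finset.sum_le_sum fun i _ => Finset.sum_le_sum fun j _ => by rw [hw]; exact e3 i j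
      refine h1.trans ?_
      have h2 : (∑ i : Fin m, ∑ j : Fin m, ((Fam.gam (K i) (K j) : ℝ) + κ / ((m : ℝ) ^ 2 + 1))) =
          ((∑ i, ∑ j, Fam.gam (K i) (K j) : ℕ) : ℝ) + (m : ℝ) ^ 2 * (κ / ((m : ℝ) ^ 2 + 1)) := by
        simp only [Finset.sum_add_distrib, Finset.sum_const, Finset.card_univ, Fintype.card_fin,
          nsmul_eq_mul]
        push_cast
        ring
      rw [h2]
      have h3 : ((∑ i, ∑ j, Fam.gam (K i) (K j) : ℕ) : ℝ) ≤ (m : ℝ) ^ 2 + G := by exact_mod_cast hgam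
      have h4 : (m : ℝ) ^ 2 * (κ / ((m : ℝ) ^ 2 + 1)) ≤ κ := by
        rw [mul_div_assoc', div_le_iff₀ (by positivity)]
        nlinarith
      linarith)
    (fun i => by rw [hw]; exact e2 i) (by rw [hw]; exact he2) (by rw [hw]; exact he3)
  linarith

/-- **Main theorem.** -/
theorem siegel (E : WeierstrassCurve ℚ) [E.IsElliptic] (F₀ : ℂ → ℂ) (hF₀ : Differentiable ℂ F₀)
    (hFL₀ : ∀ s : ℂ, 3 / 2 < s.re → F₀ s = E.LSeries s) (n m G : ℕ)
    (hyp : (F₀ (3 / 2) ≠ 0 ∧ 4 * G < m ^ 2) ∨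
      (G ≤ m ^ 2 ∧ ∃ η : ℝ, 0 < η ∧ ∀ᶠ ε : ℝ in 𝓝[>] 0,
        ε * ∑' p, lp ε p * ((m * Fam.lam E p) ^ 2 - dz (m * Fam.lam E p)) ≤ (m : ℝ) ^ 2 - η)) :
    ∃ c : ℝ, 0 < c ∧ ∀ (K : Fin m → Type u) [∀ i, Field (K i)] [∀ i, NumberField (K i)],
      (∀ i, Module.finrank ℚ (K i) ≤ n) → ∑ i, ∑ j, Fam.gam (K i) (K j) ≤ m ^ 2 + G →
      ∀ F : Fin m → ℂ → ℂ, (∀ i, Differentiable ℂ (F i)) →
      (∀ i, ∀ s : ℂ, 3 / 2 < s.re → F i s = (E.baseChange (K i)).LSeries s) →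
      ∀ δ M : ℝ, 0 < δ → δ ≤ 1 / 2 → 2 ≤ M → (∀ i, (|NumberField.discr (K i)| : ℝ) ≤ M) →
      (∀ i, ∀ s : ℂ, 3 / 2 - δ ≤ s.re → |s.im| ≤ 1 → ‖F i s‖ ≤ M) → (∀ i, Cnt (K i) δ M) →
      (∀ i j I, Cnt (Fam.Fac (K i) (K j) I) δ M) →
      ∃ i, ∀ β : ℝ, 3 / 2 - c * δ / Zfr.Lg M 0 δ < β → F i β ≠ 0 := by
  have hlim := rat_limit E F₀ hF₀ hFL₀
  -- the case of non-vanishing
  have hx0 : F₀ (3 / 2) ≠ 0 →
      ∀ κ : ℝ, 0 < κ → ∀ᶠ ε : ℝ in 𝓝[>] 0, -κ ≤ ε * ∑' p, lp ε p * Fam.lam E p := by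
    intro h0 κ hκ
    have h1 : analyticOrderNatAt F₀ (3 / 2) = 0 := by
      unfold analyticOrderNatAt
      rw [(hF₀.analyticAt (3 / 2)).analyticOrderAt_eq_zero.2 h0]
      rfl
    rw [h1] at hlim
    have h2 : (-κ : ℝ) < -((0 : ℕ) : ℝ) := by simpa using hκ
    exact (hlim.eventually_const_lt h2).mono fun ε h => h.le
  rcases hyp with ⟨h0, hG⟩ | ⟨hG, η, hη, hev⟩
  · have hG' : (4 : ℝ) * G + 1 ≤ (m : ℝ) ^ 2 := by exact_mod_cast hG
    refine main_core E n m G (m / 4) ((m : ℝ) ^ 2 / 4 + 1 / 8) (1 / 8) (fun _ => 0) (by positivity)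
      (by norm_num) (fun _ => le_rfl) (fun _ _ => sq_nonneg _) (hx0 h0) ?_ ?_
    · have h1 := mean_sq E (2 / ((m : ℝ) ^ 2 + 1)) (by positivity)
      filter_upwards [h1, self_mem_nhdsWithin] with ε h2 h3
      have h3 : (0 : ℝ) < ε := h3
      have e : (∑' p, lp ε p * (((m : ℝ) / 4 * Fam.lam E p) ^ 2 - 0)) =
          (m : ℝ) ^ 2 / 16 * ∑' p, lp ε p * Fam.lam E p ^ 2 := by
        rw [← tsum_mul_left]
        exact tsum_congr fun p => by ring
      rw [e]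
      calc ε * ((m : ℝ) ^ 2 / 16 * ∑' p, lp ε p * Fam.lam E p ^ 2)
          = (m : ℝ) ^ 2 / 16 * (ε * ∑' p, lp ε p * Fam.lam E p ^ 2) := by ring
        _ ≤ (m : ℝ) ^ 2 / 16 * (4 + 2 / ((m : ℝ) ^ 2 + 1)) :=
            mul_le_mul_of_nonneg_left h2 (by positivity)
        _ = (m : ℝ) ^ 2 / 4 + 1 / 8 * ((m : ℝ) ^ 2 / ((m : ℝ) ^ 2 + 1)) := by field_simp; ring
        _ ≤ (m : ℝ) ^ 2 / 4 + 1 / 8 := by
            have : (m : ℝ) ^ 2 / ((m : ℝ) ^ 2 + 1) ≤ 1 := by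
              rw [div_le_one (by positivity)]; linarith
            linarith
    · have : (G : ℝ) - 2 * (m / 4) * m + ((m : ℝ) ^ 2 / 4 + 1 / 8) = G - (m : ℝ) ^ 2 / 4 + 1 / 8 := by
        ring
      rw [this]
      linarith
  · have hG' : (G : ℝ) ≤ (m : ℝ) ^ 2 := by exact_mod_cast hG
    by_cases h0 : F₀ (3 / 2) = 0
    · -- then `E[x] ≤ -1 + κ`, a contradiction
      exfalso
      have hord : 1 ≤ analyticOrderNatAt F₀ (3 / 2) := by
        by_contra hlt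
        have h1 : analyticOrderNatAt F₀ (3 / 2) = 0 := by omega
        have hne : analyticOrderAt F₀ (3 / 2) ≠ ⊤ := by
          intro h
          have h1 : F₀ =ᶠ[𝓝 (3 / 2)] fun _ => 0 := analyticOrderAt_eq_top.1 h
          have h2 : F₀ = fun _ => 0 :=
            AnalyticOnNhd.eq_of_eventuallyEq (fun z _ => hF₀.analyticAt z)
              (fun z _ => analyticAt_const) h1
          have h3 := Zfr.LSeries_ne E (s := 2) (by norm_num)
          rw [← hFL₀ 2 (by norm_num), h2] at h3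
          exact h3 rfl
        have h2 : analyticOrderAt F₀ (3 / 2) = 0 := by
          rw [← Nat.cast_analyticOrderNatAt hne, h1]
          rfl
        exact ((hF₀.analyticAt (3 / 2)).analyticOrderAt_eq_zero.1 h2) h0
      set κ : ℝ := η / (2 * (3 * (m : ℝ) ^ 2 + 1)) with hκ
      have hκ0 : 0 < κ := by positivity
      have hκ2 : 3 * (m : ℝ) ^ 2 * κ < η := by
        have e : η = 2 * (3 * (m : ℝ) ^ 2 + 1) * κ := by rw [hκ]; field_simp
        rw [e]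
        nlinarith [sq_nonneg (m : ℝ)]
      have h1 : ∀ᶠ ε : ℝ in 𝓝[>] 0, ε * ∑' p, lp ε p * Fam.lam E p ≤ -1 + κ := by
        have h2 : -(analyticOrderNatAt F₀ (3 / 2) : ℝ) < -1 + κ := by
          have : (1 : ℝ) ≤ analyticOrderNatAt F₀ (3 / 2) := by exact_mod_cast hord
          linarith
        exact (hlim.eventually_lt_const h2).mono fun ε h => h.le
      obtain ⟨ε, ⟨⟨h2, h3⟩, h4⟩, h5⟩ := (((h1.and (rat_one κ hκ0)).and hev).and
        (self_mem_nhdsWithin : Set.Ioi (0 : ℝ) ∈ 𝓝[>] (0 : ℝ))).exists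
      have hε : (0 : ℝ) < ε := h5
      obtain ⟨B, C, hC2, hlam, -, -⟩ := lam_data.{0} E
      have hC0 : 0 ≤ C := by linarith
      have hs1 : Summable fun p : Nat.Primes => lp ε p * Fam.lam E p :=
        summable_lp_mul hε fun p => hlam p p.2
      have hs2 : Summable fun p : Nat.Primes =>
          lp ε p * ((m * Fam.lam E p) ^ 2 - dz (m * Fam.lam E p)) := by
        refine summable_lp_mul hε (C := ((m : ℝ) * C) ^ 2) fun p => ?_
        have e1 := dz_le (m * Fam.lam E p) 0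
        rw [Int.cast_zero, zero_add] at e1
        have e2 := dz_nonneg (m * Fam.lam E p)
        have e3 : (m * Fam.lam E p) ^ 2 ≤ ((m : ℝ) * C) ^ 2 := by
          rw [← sq_abs, abs_mul, abs_of_nonneg (Nat.cast_nonneg m)]
          exact pow_le_pow_left₀ (by positivity)
            (mul_le_mul_of_nonneg_left (hlam p p.2) (Nat.cast_nonneg m)) 2
        rw [abs_of_nonneg (by linarith)]
        linarith
      have hpos : 0 ≤ ∑' p, lp ε p * ((m * Fam.lam E p + m) ^ 2 - dz (m * Fam.lam E p)) := by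
        refine tsum_nonneg fun p => mul_nonneg (lp_nonneg ε p) ?_
        have e1 := dz_le (m * Fam.lam E p) m
        have e2 : ((m : ℤ) : ℝ) + m * Fam.lam E p = m * Fam.lam E p + m := by push_cast; ring
        rw [e2] at e1
        linarith
      have hsum : (∑' p, lp ε p * ((m * Fam.lam E p + m) ^ 2 - dz (m * Fam.lam E p))) =
          (∑' p, lp ε p * ((m * Fam.lam E p) ^ 2 - dz (m * Fam.lam E p))) +
          (2 * (m : ℝ) ^ 2 * (∑' p, lp ε p * Fam.lam E p) + (m : ℝ) ^ 2 * ∑' p, lp ε p) := by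
        rw [← tsum_mul_left, ← tsum_mul_left,
          ← (hs1.mul_left _).tsum_add ((summable_lp hε).mul_left _),
          ← hs2.tsum_add ((hs1.mul_left _).add ((summable_lp hε).mul_left _))]
        exact tsum_congr fun p => by ring
      rw [hsum] at hpos
      have h6 := mul_nonneg hε.le hpos
      rw [mul_add, mul_add] at h6
      have h7 : (m : ℝ) ^ 2 * (ε * ∑' p, lp ε p * Fam.lam E p) ≤ (m : ℝ) ^ 2 * (-1 + κ) :=
        mul_le_mul_of_nonneg_left h2 (by positivity)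
      have h8 : (m : ℝ) ^ 2 * (ε * ∑' p, lp ε p) ≤ (m : ℝ) ^ 2 * (1 + κ) :=
        mul_le_mul_of_nonneg_left h3 (by positivity)
      nlinarith
    · refine main_core E n m G m ((m : ℝ) ^ 2 - η) η (fun x => dz (m * x)) (by positivity)
        hη (fun _ => dz_nonneg _) (fun x k => dz_le _ k) (hx0 h0) hev ?_
      nlinarith

end Pool.Agent.MPfb225e.Szf
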