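import Mathlib
import Pool.Agent.Lib.MP_fb225e_nt.Fam.Density

/-!
MP_fb225e_nt, project SZF: the number of embeddings fixed by an element of the Galois group (in any
universe).
-/

namespace Pool.Agent.MPfb225e.Szf

open NumberField IsDedekindDomain Module Filter Topology Fam

universe u

section descent

variable {L : Type u} [Field L] [NumberField L] [IsGalois ℚ L]

/-- restriction to a subfield -/
def resHom (K : IntermediateField ℚ L) (τ : L ≃ₐ[ℚ] L) : K →ₐ[ℚ] L := (τ : L →ₐ[ℚ] L).comp K.val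

theorem exists_lift (K : IntermediateField ℚ L) (φ : K →ₐ[ℚ] L) :
    ∃ τ : L ≃ₐ[ℚ] L, resHom K τ = φ := by
  let ψ : L →ₐ[ℚ] L := φ.liftNormal L
  refine ⟨AlgEquiv.ofBijective ψ (AlgHom.normal_bijective ℚ L L ψ), ?_⟩
  ext x
  exact φ.liftNormal_commutes L x

omit [IsGalois ℚ L] in
theorem res_eq_iff (H : Subgroup (L ≃ₐ[ℚ] L)) (τ τ' : L ≃ₐ[ℚ] L) :
    resHom (IntermediateField.fixedField H) τ = resHom (IntermediateField.fixedField H) τ' ↔
      τ⁻¹ * τ' ∈ H := by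
  have h0 : τ⁻¹ * τ' ∈ H ↔ τ⁻¹ * τ' ∈ (IntermediateField.fixedField H).fixingSubgroup := by
    rw [IntermediateField.fixingSubgroup_fixedField]
  rw [h0, IntermediateField.mem_fixingSubgroup_iff]
  constructor
  · intro h x hx
    have h1 : τ x = τ' x := congrArg (fun f => f ⟨x, hx⟩) h
    change τ.symm (τ' x) = x
    rw [← h1, τ.symm_apply_apply]
  · intro h
    ext x
    have h1 : τ.symm (τ' (x : L)) = x := h x x.2
    change τ (x : L) = τ' (x : L)
    rw [← h1, τ.apply_symm_apply, h1]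

open Classical in
theorem card_mul_fix (H : Subgroup (L ≃ₐ[ℚ] L)) (σ : L ≃ₐ[ℚ] L) :
    (Nat.card H : ℝ) * fix (IntermediateField.fixedField H) σ =
      ∑ τ : L ≃ₐ[ℚ] L, if τ⁻¹ * σ * τ ∈ H then 1 else 0 := by
  set K := IntermediateField.fixedField H with hK
  choose lift hlift using exists_lift K
  have hres : ∀ τ : L ≃ₐ[ℚ] L, (σ : L →ₐ[ℚ] L).comp (resHom K τ) = resHom K (σ * τ) :=
    fun τ => rfl
  have h1 : ∀ τ : L ≃ₐ[ℚ] L, (σ : L →ₐ[ℚ] L).comp (resHom K τ) = resHom K τ ↔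
      τ⁻¹ * σ * τ ∈ H := by
    intro τ
    rw [hres, eq_comm, hK, res_eq_iff, mul_assoc]
  have hmem : ∀ φ : K →ₐ[ℚ] L, ∀ h ∈ H, resHom K (lift φ * h) = φ := by
    intro φ h hh
    nth_rewrite 2 [← hlift φ]
    symm
    rw [hK, res_eq_iff, inv_mul_cancel_left]
    exact hh
  let e : {τ : L ≃ₐ[ℚ] L // τ⁻¹ * σ * τ ∈ H} ≃
      {φ : K →ₐ[ℚ] L // (σ : L →ₐ[ℚ] L).comp φ = φ} × H :=
    { toFun := fun τ => (⟨resHom K τ, (h1 τ).2 τ.2⟩, ⟨(lift (resHom K τ))⁻¹ * τ,
        (res_eq_iff H _ _).1 (hlift (resHom K τ))⟩)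
      invFun := fun x => ⟨lift x.1 * x.2, by
        rw [← h1, hmem _ _ x.2.2]
        exact x.1.2⟩
      left_inv := fun τ => Subtype.ext (by
        change lift (resHom K τ) * ((lift (resHom K τ))⁻¹ * τ) = τ
        rw [mul_inv_cancel_left])
      right_inv := fun x => by
        have h2 := hmem x.1 x.2 x.2.2
        refine Prod.ext (Subtype.ext h2) (Subtype.ext ?_)
        change (lift (resHom K (lift x.1 * x.2)))⁻¹ * (lift x.1 * x.2) = x.2
        rw [h2, inv_mul_cancel_left] }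
  have h2 := Nat.card_congr e
  rw [Nat.card_prod] at h2
  have h3 : (∑ τ : L ≃ₐ[ℚ] L, if τ⁻¹ * σ * τ ∈ H then (1 : ℝ) else 0) =
      Nat.card {τ : L ≃ₐ[ℚ] L // τ⁻¹ * σ * τ ∈ H} := by
    rw [Finset.sum_boole, Nat.card_eq_fintype_card, Fintype.card_subtype]
  rw [h3, h2]
  unfold fix
  push_cast
  ring

end descent

end Pool.Agent.MPfb225e.Szf
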