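import Mathlib
import Pool.Agent.Lib.MP_fb225e_nt.Fam.Density
import Pool.Agent.Lib.MP_fb225e_nt.Fam.Descent

/-!
MP_fb225e_nt, project SZF part 2, module S2: primes of degree one of the subfields of a Galois
field and the Frobenius.
-/

set_option autoImplicit false

namespace Pool.Agent.MPfb225e.Szf

open NumberField Module
open scoped Pointwise

universe u

section frob

variable {L : Type u} [Field L] [NumberField L]

/-- The reduction of an embedding modulo a prime. -/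
noncomputable def frobRed (K : IntermediateField ℚ L) (Q : Ideal (𝓞 L)) (φ : K →ₐ[ℚ] L) :
    𝓞 K →+* 𝓞 L ⧸ Q :=
  (Ideal.Quotient.mk Q).comp (RingOfIntegers.mapRingHom (φ : K →+* L))

theorem frobRed_apply (K : IntermediateField ℚ L) (Q : Ideal (𝓞 L)) (φ : K →ₐ[ℚ] L) (x : 𝓞 K) :
    frobRed K Q φ x = Ideal.Quotient.mk Q (RingOfIntegers.mapRingHom (φ : K →+* L) x) := rfl

theorem frob_card_embeddings [IsGalois ℚ L] (K : IntermediateField ℚ L) :
    Fintype.card (K →ₐ[ℚ] L) = finrank ℚ K := by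
  refine AlgHom.card_of_splits ℚ K L fun x => ?_
  have h1 : minpoly ℚ x = minpoly ℚ (x : L) := (minpoly.algebraMap_eq
    (FaithfulSMul.algebraMap_injective K L) x).symm
  rw [h1]
  exact Normal.splits inferInstance (x : L)

/-- An equivalence between the embeddings into `L` and into `ℂ`. -/
theorem frob_embeddings_bijective [IsGalois ℚ L] (K : IntermediateField ℚ L) (ι : L →ₐ[ℚ] ℂ) :
    Function.Bijective (fun φ : K →ₐ[ℚ] L => ι.comp φ) := by
  rw [Fintype.bijective_iff_injective_and_card]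
  refine ⟨?_, ?_⟩
  · intro φ φ' h
    ext x
    exact ι.toRingHom.injective (DFunLike.congr_fun h x)
  · rw [frob_card_embeddings, AlgHom.card]

/-- If two embeddings are congruent modulo `Q`, the discriminant is in `Q`. -/
theorem frob_discr_mem [IsGalois ℚ L] (K : IntermediateField ℚ L) (Q : Ideal (𝓞 L))
    {φ φ' : K →ₐ[ℚ] L} (hne : φ ≠ φ') (h : frobRed K Q φ = frobRed K Q φ') :
    ((NumberField.discr K : ℤ) : 𝓞 L) ∈ Q := by
  classical
  obtain ⟨ι⟩ : Nonempty (L →ₐ[ℚ] ℂ) := ⟨IsAlgClosed.lift⟩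
  have hcard : Fintype.card (Free.ChooseBasisIndex ℤ (𝓞 K)) = Fintype.card (K →ₐ[ℚ] L) := by
    rw [frob_card_embeddings, ← RingOfIntegers.rank, finrank_eq_card_chooseBasisIndex]
  obtain ⟨e⟩ := Fintype.card_eq.1 hcard
  let e' : Free.ChooseBasisIndex ℤ (𝓞 K) ≃ (K →ₐ[ℚ] ℂ) :=
    e.trans (Equiv.ofBijective _ (frob_embeddings_bijective K ι))
  let A : Matrix (Free.ChooseBasisIndex ℤ (𝓞 K)) (Free.ChooseBasisIndex ℤ (𝓞 K)) (𝓞 L) :=
    Matrix.of fun i j => RingOfIntegers.mapRingHom ((e j : K →ₐ[ℚ] L) : K →+* L)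
      (RingOfIntegers.basis K i)
  -- the determinant
  have hdet : A.det ^ 2 = ((NumberField.discr K : ℤ) : 𝓞 L) := by
    have h1 := Algebra.discr_eq_det_embeddingsMatrixReindex_pow_two ℚ ℂ (integralBasis K) e'
    rw [← NumberField.coe_discr] at h1
    let g : 𝓞 L →+* ℂ := (ι : L →+* ℂ).comp (algebraMap (𝓞 L) L)
    have hg : Function.Injective g :=
      (ι : L →+* ℂ).injective.comp (FaithfulSMul.algebraMap_injective (𝓞 L) L)
    apply hg
    rw [map_pow, RingHom.map_det]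
    have h2 : g.mapMatrix A = Algebra.embeddingsMatrixReindex ℚ ℂ (integralBasis K) e' := by
      ext i j
      rw [Algebra.embeddingsMatrixReindex]
      simp only [RingHom.mapMatrix_apply, Matrix.map_apply, Matrix.reindex_apply,
        Matrix.submatrix_apply, Equiv.refl_symm, Equiv.refl_apply, Equiv.symm_symm,
        Algebra.embeddingsMatrix_apply, integralBasis_apply]
      rfl
    rw [h2, ← h1]
    simp
  -- two columns are congruent
  have hij : e.symm φ ≠ e.symm φ' := fun h0 => hne (e.symm.injective h0)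
  have hmod : (Ideal.Quotient.mk Q) A.det = 0 := by
    rw [RingHom.map_det]
    refine Matrix.det_zero_of_column_eq hij fun i => ?_
    simp only [RingHom.mapMatrix_apply, Matrix.map_apply, A, Matrix.of_apply,
      Equiv.apply_symm_apply]
    exact DFunLike.congr_fun h _
  rw [← hdet, ← Ideal.Quotient.eq_zero_iff_mem, map_pow, hmod, zero_pow two_ne_zero]

end frob

/-- S2 (file Szf/Frob.lean). Primes of degree one of the subfields and the Frobenius. -/
theorem exists_frob (L : Type u) [Field L] [NumberField L] [IsGalois ℚ L] {p : ℕ} (hp : p.Prime) :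
    ∃ σ : L ≃ₐ[ℚ] L, ∀ K : IntermediateField ℚ L,
      ¬ p ∣ (NumberField.discr K).natAbs → Fam.homCount K p = Fam.fix K σ := by
  classical
  haveI : Fact p.Prime := ⟨hp⟩
  have hpZ : Prime (p : ℤ) := Nat.prime_iff_prime_int.1 hp
  haveI hPm : (Ideal.span {(p : ℤ)}).IsMaximal := by
    have := (Ideal.span_singleton_prime hpZ.ne_zero).2 hpZ
    exact this.isMaximal (by rw [Ne, Ideal.span_singleton_eq_bot]; exact hpZ.ne_zero)
  obtain ⟨Q, hQm, hQo⟩ := Ideal.exists_maximal_ideal_liesOver_of_isIntegral (S := 𝓞 L)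
    (Ideal.span {(p : ℤ)})
  haveI : Q.IsPrime := hQm.isPrime
  have hmemZ : ∀ m : ℤ, ((m : ℤ) : 𝓞 L) ∈ Q ↔ (p : ℤ) ∣ m := by
    intro m
    rw [← Ideal.mem_span_singleton, hQo.over, Ideal.under_def, Ideal.mem_comap]
    simp
  have hpQ : ((p : ℕ) : 𝓞 L) ∈ Q := by
    have := (hmemZ p).2 dvd_rfl
    simpa using this
  have hQ0 : Q ≠ ⊥ := by
    intro h0
    rw [h0, Ideal.mem_bot] at hpQ
    exact hp.ne_zero (by exact_mod_cast hpQ)
  haveI : Finite (𝓞 L ⧸ Q) := Ideal.finiteQuotientOfFreeOfNeBot Q hQ0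
  obtain ⟨σ, hσ⟩ := IsArithFrobAt.exists_of_isInvariant ℤ (L ≃ₐ[ℚ] L) Q
  letI : Field (𝓞 L ⧸ Q) := Ideal.Quotient.field Q
  haveI : CharP (𝓞 L ⧸ Q) p := by
    refine (CharP.charP_iff_prime_eq_zero hp).2 ?_
    rw [← map_natCast (Ideal.Quotient.mk Q)]
    exact Ideal.Quotient.eq_zero_iff_mem.2 hpQ
  have hcard : Nat.card (ℤ ⧸ Q.under ℤ) = p := by
    rw [← hQo.over, Int.card_ideal_quot]
  have hfrob : ∀ x : 𝓞 L, Ideal.Quotient.mk Q (σ • x) = (Ideal.Quotient.mk Q x) ^ p := by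
    intro x
    have h1 := hσ.mk_apply x
    rw [hcard] at h1
    exact h1
  refine ⟨σ, fun K hK => ?_⟩
  -- injectivity of the reduction
  have hinj : ∀ φ φ' : K →ₐ[ℚ] L, frobRed K Q φ = frobRed K Q φ' → φ = φ' := by
    intro φ φ' h
    by_contra hne
    have h1 := frob_discr_mem K Q hne h
    rw [hmemZ] at h1
    exact hK (Int.natCast_dvd.1 h1)
  -- composition with the Frobenius
  have hcomp : ∀ (φ : K →ₐ[ℚ] L) (x : 𝓞 K),
      frobRed K Q ((σ : L →ₐ[ℚ] L).comp φ) x = (frobRed K Q φ x) ^ p := by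
    intro φ x
    rw [frobRed_apply, frobRed_apply, ← hfrob]
    rfl
  let H := {f : 𝓞 K →+* 𝓞 L ⧸ Q // ∀ x, f x ^ p = f x}
  -- the embeddings
  have hE1 : Nat.card {φ : K →ₐ[ℚ] L // (σ : L →ₐ[ℚ] L).comp φ = φ} = Nat.card H := by
    refine Nat.card_congr (Equiv.ofBijective (fun φ => (⟨frobRed K Q φ.1, fun x => by
      rw [← hcomp, φ.2]⟩ : H)) ⟨?_, ?_⟩)
    · rintro ⟨φ, hφ⟩ ⟨φ', hφ'⟩ h
      exact Subtype.ext (hinj _ _ (congrArg Subtype.val h))
    · rintro ⟨f, hf⟩
      -- the values of `f` are integers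
      have hval : ∀ x, ∃ m : ℤ, f x = (m : 𝓞 L ⧸ Q) := by
        intro x
        have h1 : f x ∈ (⊥ : Subfield (𝓞 L ⧸ Q)) :=
          (Subfield.mem_bot_iff_pow_eq_self (𝓞 L ⧸ Q) p).2 (hf x)
        rw [← ZMod.fieldRange_castHom_eq_bot p] at h1
        obtain ⟨a, ha⟩ := h1
        refine ⟨a.cast, ?_⟩
        rw [← ha]
        have : (((a.cast : ℤ) : ZMod p)) = a := ZMod.intCast_zmod_cast a
        conv_lhs => rw [← this]
        rw [map_intCast]
      have hfp : ∀ m : ℤ, f (m : 𝓞 K) = (m : 𝓞 L ⧸ Q) := fun m => map_intCast f m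
      let q : Ideal (𝓞 K) := RingHom.ker f
      haveI hqp : q.IsPrime := RingHom.ker_isPrime f
      have hq0 : q ≠ ⊥ := by
        intro h0
        have h1 : ((p : ℕ) : 𝓞 K) ∈ q := by
          rw [RingHom.mem_ker, map_natCast]
          exact CharP.cast_eq_zero _ p
        rw [h0, Ideal.mem_bot] at h1
        exact hp.ne_zero (by exact_mod_cast h1)
      haveI hqm : q.IsMaximal := hqp.isMaximal hq0
      obtain ⟨Q', hQ'm, hQ'o⟩ := Ideal.exists_maximal_ideal_liesOver_of_isIntegral (S := 𝓞 L) q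
      haveI : Q'.IsPrime := hQ'm.isPrime
      have hQ'mem : ∀ x : 𝓞 K, algebraMap (𝓞 K) (𝓞 L) x ∈ Q' ↔ f x = 0 := by
        intro x
        rw [← Ideal.mem_comap, ← Ideal.under_def, ← hQ'o.over]
        exact RingHom.mem_ker
      have hunder : Q'.under ℤ = Q.under ℤ := by
        ext m
        rw [Ideal.under_def, Ideal.under_def, Ideal.mem_comap, Ideal.mem_comap]
        have e1 : algebraMap ℤ (𝓞 L) m = algebraMap (𝓞 K) (𝓞 L) (m : 𝓞 K) := by simp
        have e2 : algebraMap ℤ (𝓞 L) m = ((m : ℤ) : 𝓞 L) := by simp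
        rw [e1, hQ'mem, ← e1, e2, hfp, ← Ideal.Quotient.eq_zero_iff_mem, map_intCast]
      obtain ⟨g, hg⟩ := Algebra.IsInvariant.exists_smul_of_under_eq ℤ (𝓞 L) (L ≃ₐ[ℚ] L) Q' Q hunder
      let φ : K →ₐ[ℚ] L := (g : L →ₐ[ℚ] L).comp K.val
      have hφ0 : ∀ x : 𝓞 K, frobRed K Q φ x = 0 ↔ f x = 0 := by
        intro x
        rw [← hQ'mem, frobRed_apply, Ideal.Quotient.eq_zero_iff_mem, hg]
        have e1 : RingOfIntegers.mapRingHom (φ : K →+* L) x =
            g • algebraMap (𝓞 K) (𝓞 L) x := rfl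
        rw [e1, Ideal.smul_mem_pointwise_smul_iff]
      have hφ1 : frobRed K Q φ = f := by
        ext x
        obtain ⟨m, hm⟩ := hval x
        have h1 : f (x - (m : 𝓞 K)) = 0 := by
          rw [map_sub, hfp, hm, sub_self]
        rw [← hφ0, map_sub, map_intCast, sub_eq_zero] at h1
        rw [h1, hm]
      have hφ2 : (σ : L →ₐ[ℚ] L).comp φ = φ := by
        apply hinj
        ext x
        rw [hcomp, hφ1, hf]
      exact ⟨⟨φ, hφ2⟩, Subtype.ext hφ1⟩
  -- the homomorphisms to the prime field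
  have hE2 : Nat.card (𝓞 K →+* ZMod p) = Nat.card H := by
    have hci : Function.Injective (ZMod.castHom (dvd_refl p) (𝓞 L ⧸ Q)) :=
      (ZMod.castHom (dvd_refl p) (𝓞 L ⧸ Q)).injective
    refine Nat.card_congr (Equiv.ofBijective (fun ψ => (⟨(ZMod.castHom (dvd_refl p)
      (𝓞 L ⧸ Q)).comp ψ, fun x => by
        rw [RingHom.comp_apply, ← map_pow, ZMod.pow_card]⟩ : H)) ⟨?_, ?_⟩)
    · intro ψ ψ' h
      have h1 := congrArg Subtype.val h
      ext x
      exact hci (DFunLike.congr_fun h1 x)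
    · rintro ⟨f, hf⟩
      have hmem : ∀ x, f x ∈ (ZMod.castHom (dvd_refl p) (𝓞 L ⧸ Q)).fieldRange := by
        intro x
        rw [ZMod.fieldRange_castHom_eq_bot p]
        exact (Subfield.mem_bot_iff_pow_eq_self (𝓞 L ⧸ Q) p).2 (hf x)
      let e : ZMod p ≃+* (ZMod.castHom (dvd_refl p) (𝓞 L ⧸ Q)).fieldRange :=
        RingEquiv.ofBijective (ZMod.castHom (dvd_refl p) (𝓞 L ⧸ Q)).rangeRestrictField
          (RingHom.rangeRestrictField_bijective _)
      refine ⟨(e.symm : _ →+* ZMod p).comp (f.codRestrict _ hmem), ?_⟩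
      apply Subtype.ext
      ext x
      show (ZMod.castHom (dvd_refl p) (𝓞 L ⧸ Q)) (e.symm (f.codRestrict _ hmem x)) = f x
      have h1 : ∀ y, (ZMod.castHom (dvd_refl p) (𝓞 L ⧸ Q)) y = (e y : 𝓞 L ⧸ Q) := fun y => rfl
      rw [h1, e.apply_symm_apply]
      rfl
  show Nat.card (𝓞 K →+* ZMod p) = Nat.card {φ : K →ₐ[ℚ] L // (σ : L →ₐ[ℚ] L).comp φ = φ}
  rw [hE1, hE2]

end Pool.Agent.MPfb225e.Szf
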