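import Mathlib
import Pool.Agent.Lib.MP_fb225e_nt.Fam.SignGroup
import Pool.Agent.Lib.MP_fb225e_nt.Fam.Dihedral
import Pool.Agent.Lib.MP_fb225e_nt.Fam.Descent

/-!
MP_fb225e_nt, project SZF, module S3: approximate class functions on strongly real groups.
-/

namespace Pool.Agent.MPfb225e.Szf

open Filter Topology Complex
open NumberField IsDedekindDomain

universe u

section

variable {G : Type*} [Group G] [Fintype G]

/-- the linear map of the averages -/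
noncomputable def gaT (G : Type*) [Group G] [Fintype G] : (G → ℝ) →ₗ[ℝ] (Subgroup G → ℝ) where
  toFun w := fun H => ∑ σ, w σ * (Nat.card {τ : G // τ⁻¹ * σ * τ ∈ H} : ℝ)
  map_add' w w' := by
    funext H
    simp only [Pi.add_apply, add_mul, Finset.sum_add_distrib]
  map_smul' c w := by
    funext H
    simp only [Pi.smul_apply, smul_eq_mul, RingHom.id_apply, Finset.mul_sum, mul_assoc]

theorem ga_one (G : Type*) [Group G] [Fintype G] : ∃ κ₀ : ℝ, 0 < κ₀ ∧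
    ∀ (w : G → ℝ) (m : Subgroup G → ℕ), (∀ H, m H ≤ 1) →
    (∀ H : Subgroup G, |(∑ σ, w σ * (Nat.card {τ : G // τ⁻¹ * σ * τ ∈ H} : ℝ)) -
      Nat.card H * m H| ≤ κ₀) →
    ∃ w' : G → ℝ, ∀ H : Subgroup G,
      (∑ σ, w' σ * (Nat.card {τ : G // τ⁻¹ * σ * τ ∈ H} : ℝ)) = Nat.card H * m H := by
  classical
  let hfin : Fintype (Subgroup G) := Fintype.ofFinite _
  have hcl : IsClosed ((LinearMap.range (gaT G) : Submodule ℝ (Subgroup G → ℝ)) :
      Set (Subgroup G → ℝ)) := Submodule.closed_of_finiteDimensional _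
  have hex : ∀ m : Subgroup G → Fin 2, ∃ r : ℝ, 0 < r ∧
      ∀ w : G → ℝ, dist (gaT G w) (fun H => (Nat.card H : ℝ) * ((m H : ℕ) : ℝ)) < r →
        (fun H : Subgroup G => (Nat.card H : ℝ) * ((m H : ℕ) : ℝ)) ∈ LinearMap.range (gaT G) := by
    intro m
    by_cases hm : (fun H : Subgroup G => (Nat.card H : ℝ) * ((m H : ℕ) : ℝ)) ∈
        LinearMap.range (gaT G)
    · exact ⟨1, one_pos, fun _ _ => hm⟩
    · have h1 : (LinearMap.range (gaT G) : Set (Subgroup G → ℝ))ᶜ ∈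
          𝓝 (fun H : Subgroup G => (Nat.card H : ℝ) * ((m H : ℕ) : ℝ)) :=
        hcl.isOpen_compl.mem_nhds hm
      obtain ⟨r, hr, hball⟩ := Metric.mem_nhds_iff.1 h1
      refine ⟨r, hr, fun w hw => ?_⟩
      exact absurd (LinearMap.mem_range_self (gaT G) w) (hball hw)
  choose r hr0 hr using hex
  have h2 : ∀ᶠ κ in 𝓝[>] (0 : ℝ), ∀ m, κ < r m := by
    refine eventually_all.2 fun m => ?_
    exact nhdsWithin_le_nhds (Iio_mem_nhds (hr0 m))
  obtain ⟨κ, hκ1, hκ0⟩ := (h2.and self_mem_nhdsWithin).exists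
  refine ⟨κ, hκ0, fun w m hm hw => ?_⟩
  let m' : Subgroup G → Fin 2 := fun H => ⟨m H, by have := hm H; omega⟩
  have h3 : dist (gaT G w) (fun H => (Nat.card H : ℝ) * ((m' H : ℕ) : ℝ)) < r m' := by
    refine lt_of_le_of_lt ?_ (hκ1 m')
    refine (dist_pi_le_iff (le_of_lt hκ0)).2 fun H => ?_
    rw [Real.dist_eq]
    exact hw H
  obtain ⟨w', hw'⟩ := hr m' w h3
  exact ⟨w', fun H => congrFun hw' H⟩

theorem ga_data (hinv : ∀ g : G, ∃ u v : G, u * u = 1 ∧ v * v = 1 ∧ g = u * v)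
    (w : G → ℝ) (m : Subgroup G → ℕ) (hm : ∀ H, m H ≤ 1)
    (hw : ∀ H : Subgroup G,
      (∑ σ, w σ * (Nat.card {τ : G // τ⁻¹ * σ * τ ∈ H} : ℝ)) = Nat.card H * m H) :
    Grp.Data (fun g => ∑ τ : G, w (τ * g * τ⁻¹)) m := by
  classical
  refine ⟨fun x y => ?_, fun H => ?_, hm, hinv⟩
  · rw [← Equiv.sum_comp (Equiv.mulRight x) (fun τ => w (τ * (x⁻¹ * y * x) * τ⁻¹))]
    refine Finset.sum_congr rfl fun τ _ => ?_
    congr 1
    change τ * x * (x⁻¹ * y * x) * (τ * x)⁻¹ = _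
    group
  · rw [← hw H]
    unfold Grp.sm
    have h1 : ∀ g : G, (if g ∈ H then ∑ τ : G, w (τ * g * τ⁻¹) else 0) =
        ∑ τ : G, if g ∈ H then w (τ * g * τ⁻¹) else 0 := by
      intro g
      split_ifs
      · rfl
      · rw [Finset.sum_const_zero]
    rw [Finset.sum_congr rfl fun g _ => h1 g, Finset.sum_comm]
    have h2 : ∀ τ : G, (∑ g : G, if g ∈ H then w (τ * g * τ⁻¹) else 0) =
        ∑ σ : G, if τ⁻¹ * σ * τ ∈ H then w σ else 0 := by
      intro τ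
      rw [← Equiv.sum_comp (MulAut.conj τ).toEquiv (fun σ => if τ⁻¹ * σ * τ ∈ H then w σ else 0)]
      refine Finset.sum_congr rfl fun g _ => ?_
      change _ = if τ⁻¹ * (τ * g * τ⁻¹) * τ ∈ H then w (τ * g * τ⁻¹) else 0
      have h3 : τ⁻¹ * (τ * g * τ⁻¹) * τ = g := by group
      rw [h3]
    rw [Finset.sum_congr rfl fun τ _ => h2 τ, Finset.sum_comm]
    refine Finset.sum_congr rfl fun σ _ => ?_
    have h3 : (Nat.card {τ : G // τ⁻¹ * σ * τ ∈ H} : ℝ) =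
        ∑ τ : G, if τ⁻¹ * σ * τ ∈ H then (1 : ℝ) else 0 := by
      rw [Finset.sum_boole, Nat.card_eq_fintype_card, Fintype.card_subtype]
    rw [h3, Finset.mul_sum]
    refine Finset.sum_congr rfl fun τ _ => ?_
    split_ifs
    · rw [mul_one]
    · rw [mul_zero]

theorem ga_fixed (G : Type*) [Group G] [Fintype G] : ∃ κ₀ : ℝ, 0 < κ₀ ∧
    ((∀ g : G, ∃ u v : G, u * u = 1 ∧ v * v = 1 ∧ g = u * v) →
    ∀ (w : G → ℝ) (m : Subgroup G → ℕ), (∀ H, m H ≤ 1) →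
    (∀ H : Subgroup G, |(∑ σ, w σ * (Nat.card {τ : G // τ⁻¹ * σ * τ ∈ H} : ℝ)) -
      Nat.card H * m H| ≤ κ₀) →
    ∃ N : Subgroup G, N.index ≤ 2 ∧ ((∀ H, (m H = 1 ↔ H ≤ N)) ∨ ∀ H, (m H = 0 ↔ H ≤ N))) := by
  obtain ⟨κ, hκ, h⟩ := ga_one G
  refine ⟨κ, hκ, fun hinv w m hm hw => ?_⟩
  obtain ⟨w', hw'⟩ := h w m hm hw
  exact (ga_data hinv w' m hm hw').classify

end

/-- the property with the constant `κ` -/
def gaP (κ : ℝ) (G : Type*) [Group G] [Fintype G] : Prop :=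
  (∀ g : G, ∃ u v : G, u * u = 1 ∧ v * v = 1 ∧ g = u * v) →
    ∀ (w : G → ℝ) (m : Subgroup G → ℕ), (∀ H, m H ≤ 1) →
    (∀ H : Subgroup G, |(∑ σ, w σ * (Nat.card {τ : G // τ⁻¹ * σ * τ ∈ H} : ℝ)) -
      Nat.card H * m H| ≤ κ) →
    ∃ N : Subgroup G, N.index ≤ 2 ∧ ((∀ H, (m H = 1 ↔ H ≤ N)) ∨ ∀ H, (m H = 0 ↔ H ≤ N))

theorem gaP_mono {κ κ' : ℝ} (h : κ ≤ κ') {G : Type*} [Group G] [Fintype G] (hP : gaP κ' G) :
    gaP κ G := fun hinv w m hm hw => hP hinv w m hm fun H => (hw H).trans h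

theorem gaP_transport {κ : ℝ} {G : Type*} [Group G] [Fintype G] {G' : Type*} [Group G']
    [Fintype G'] (φ : G ≃* G') (hP : gaP κ G') : gaP κ G := by
  intro hinv w m hm hw
  have hinv' : ∀ g : G', ∃ u v : G', u * u = 1 ∧ v * v = 1 ∧ g = u * v := by
    intro g
    obtain ⟨u, v, hu, hv, hg⟩ := hinv (φ.symm g)
    refine ⟨φ u, φ v, ?_, ?_, ?_⟩
    · rw [← map_mul, hu, map_one]
    · rw [← map_mul, hv, map_one]
    · rw [← map_mul, ← hg, φ.apply_symm_apply]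
  obtain ⟨N, hN, hcl⟩ := hP hinv' (fun σ => w (φ.symm σ)) (fun H => m (H.comap φ.toMonoidHom))
    (fun H => hm _) (fun H => by
      have h1 := hw (H.comap φ.toMonoidHom)
      have h2 : (∑ σ : G', w (φ.symm σ) * (Nat.card {τ : G' // τ⁻¹ * σ * τ ∈ H} : ℝ)) =
          ∑ σ : G, w σ * (Nat.card {τ : G // τ⁻¹ * σ * τ ∈ H.comap φ.toMonoidHom} : ℝ) := by
        rw [← Equiv.sum_comp φ.toEquiv
          (fun σ => w (φ.symm σ) * (Nat.card {τ : G' // τ⁻¹ * σ * τ ∈ H} : ℝ))]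
        refine Finset.sum_congr rfl fun σ _ => ?_
        have h3 : Nat.card {τ : G // τ⁻¹ * σ * τ ∈ H.comap φ.toMonoidHom} =
            Nat.card {τ : G' // τ⁻¹ * (φ.toEquiv σ) * τ ∈ H} := by
          refine Nat.card_congr (φ.toEquiv.subtypeEquiv fun τ => ?_)
          change φ (τ⁻¹ * σ * τ) ∈ H ↔ (φ τ)⁻¹ * (φ σ) * (φ τ) ∈ H
          rw [map_mul, map_mul, map_inv]
        rw [h3]
        congr 2
        exact φ.symm_apply_apply σ
      have h4 : Nat.card (H.comap φ.toMonoidHom) = Nat.card H := by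
        refine Nat.card_congr (φ.toEquiv.subtypeEquiv fun τ => ?_)
        exact Iff.rfl
      rw [h2, ← h4]
      exact h1)
  have hcomap : ∀ H : Subgroup G, (H.map φ.toMonoidHom).comap φ.toMonoidHom = H := fun H =>
    Subgroup.comap_map_eq_self_of_injective φ.injective H
  refine ⟨N.comap φ.toMonoidHom, ?_, ?_⟩
  · rw [Subgroup.index_comap_of_surjective N φ.surjective]
    exact hN
  · rcases hcl with h | h
    · left
      intro H
      rw [← Subgroup.map_le_iff_le_comap, ← h, hcomap]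
    · right
      intro H
      rw [← Subgroup.map_le_iff_le_comap, ← h, hcomap]

theorem gaP_equiv {κ : ℝ} {G : Type*} [Group G] [Fintype G] {X : Type*} [Fintype X] (e : G ≃ X)
    (h : ∀ i : Group X, @gaP κ X i _) : gaP κ G := by
  let i : Group X := e.symm.group
  let φ : G ≃* X := (Equiv.mulEquiv e.symm).symm
  exact gaP_transport φ (h i)

theorem ga_finite (n : ℕ) : Finite (Group (Fin n)) := by
  have h : Function.Injective (fun (i : Group (Fin n)) (a b : Fin n) => i.mul a b) := by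
    intro i j hij
    exact Group.ext (by
      funext a b
      exact congrFun (congrFun hij a) b)
  exact Finite.of_injective _ h

/-- S3 (file Szf/GroupApprox.lean). -/
theorem approx_class (n : ℕ) : ∃ κ₀ : ℝ, 0 < κ₀ ∧ ∀ (G : Type u) [Group G] [Fintype G],
    Fintype.card G = n → (∀ g : G, ∃ u v : G, u * u = 1 ∧ v * v = 1 ∧ g = u * v) →
    ∀ (w : G → ℝ) (m : Subgroup G → ℕ), (∀ H, m H ≤ 1) →
    (∀ H : Subgroup G, |(∑ σ, w σ * (Nat.card {τ : G // τ⁻¹ * σ * τ ∈ H} : ℝ)) -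
      Nat.card H * m H| ≤ κ₀) →
    ∃ N : Subgroup G, N.index ≤ 2 ∧ ((∀ H, (m H = 1 ↔ H ≤ N)) ∨ ∀ H, (m H = 0 ↔ H ≤ N)) := by
  classical
  have hfin := ga_finite n
  have hex : ∀ i : Group (Fin n), ∃ r : ℝ, 0 < r ∧ @gaP r (Fin n) i _ := fun i =>
    @ga_fixed (Fin n) i _
  choose r hr0 hr using hex
  have h2 : ∀ᶠ κ in 𝓝[>] (0 : ℝ), ∀ i, κ < r i := by
    refine eventually_all.2 fun i => ?_
    exact nhdsWithin_le_nhds (Iio_mem_nhds (hr0 i))
  obtain ⟨κ, hκ1, hκ0⟩ := (h2.and self_mem_nhdsWithin).exists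
  refine ⟨κ, hκ0, ?_⟩
  intro G _ _ hG
  exact gaP_equiv (Fintype.equivFinOfCardEq hG) fun i =>
    @gaP_mono κ (r i) (hκ1 i).le (Fin n) i _ (hr i)

end Pool.Agent.MPfb225e.Szf
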