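import Mathlib
import Pool.Agent.Lib.MP_fb225e_nt.Zfr.OneSided
import Pool.Agent.Lib.MP_fb225e_nt.Zfr.OneCurve
import Pool.Agent.Lib.MP_fb225e_nt.Szf.LocalFac

/-!
MP_fb225e_nt, project SZF, module S1: the mean value of `x_v` in terms of the zeros near `3/2`,
two-sided.
-/

set_option autoImplicit false

namespace Pool.Agent.MPfb225e.Szf

open Filter Topology Complex
open NumberField IsDedekindDomain

universe u

/-- the real part of `1/(3/2+ε-ρ)` -/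
theorem TS_re (ρ : ℂ) (ε : ℝ) :
    ((((3 / 2 + ε : ℝ) : ℂ) - ρ)⁻¹).re =
      (ε + (3 / 2 - ρ.re)) / ((ε + (3 / 2 - ρ.re)) ^ 2 + ρ.im ^ 2) := by
  rw [Complex.inv_re, Complex.normSq_apply]
  simp only [Complex.sub_re, Complex.ofReal_re, Complex.sub_im, Complex.ofReal_im]
  congr 1
  · ring
  · ring

theorem TS_nonneg {ρ : ℂ} (hρ : ρ.re ≤ 3 / 2) {ε : ℝ} (hε : 0 < ε) :
    0 ≤ ((((3 / 2 + ε : ℝ) : ℂ) - ρ)⁻¹).re := by
  rw [TS_re]
  have : 0 ≤ ε + (3 / 2 - ρ.re) := by linarith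
  positivity

theorem TS_compare {d γ ε ε₂ : ℝ} (hd : 0 ≤ d) (hε : 0 < ε) (hεε : ε ≤ ε₂)
    (h : ε₂ ^ 2 ≤ d ^ 2 + γ ^ 2) :
    (ε + d) / ((ε + d) ^ 2 + γ ^ 2) ≤ 4 * ((ε₂ + d) / ((ε₂ + d) ^ 2 + γ ^ 2)) := by
  have hε₂ : 0 < ε₂ := lt_of_lt_of_le hε hεε
  have h1 : (ε₂ + d) ^ 2 + γ ^ 2 ≤ 4 * (d ^ 2 + γ ^ 2) := by
    nlinarith [sq_nonneg (ε₂ - d), sq_nonneg γ]
  have h2 : d ^ 2 + γ ^ 2 ≤ (ε + d) ^ 2 + γ ^ 2 := by nlinarith
  rw [mul_div_assoc', div_le_div_iff₀ (by positivity) (by positivity)]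
  have h3 : 0 ≤ (ε₂ + d) ^ 2 + γ ^ 2 := by positivity
  calc (ε + d) * ((ε₂ + d) ^ 2 + γ ^ 2) ≤ (ε₂ + d) * ((ε₂ + d) ^ 2 + γ ^ 2) :=
        mul_le_mul_of_nonneg_right (by linarith) h3
    _ ≤ (ε₂ + d) * (4 * ((ε + d) ^ 2 + γ ^ 2)) :=
        mul_le_mul_of_nonneg_left (by linarith) (by linarith)
    _ = 4 * (ε₂ + d) * ((ε + d) ^ 2 + γ ^ 2) := by ring

open Zfr in
/-- the two-sided expansion -/
theorem TS_expansion (n k : ℕ) : ∃ D : ℝ, 0 < D ∧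
    ∀ (K : Type u) [Field K] [NumberField K] (W : WeierstrassCurve K), Module.finrank ℚ K = n →
    ∀ (F : ℂ → ℂ), Differentiable ℂ F → (∀ s : ℂ, 3 / 2 < s.re → F s = W.LSeries s) →
    ∀ (κ δ M : ℝ), 0 < δ → δ ≤ 1 / 2 → 2 ≤ M →
    (∀ s : ℂ, 3 / 2 - δ ≤ s.re → |s.im| ≤ 1 → ‖F s‖ ≤ M) →
    (∀ x : ℝ, 1 ≤ x →
      |(Nat.card {J : Ideal (𝓞 K) // J ≠ ⊥ ∧ (Ideal.absNorm J : ℝ) ≤ x} : ℝ) - κ * x| ≤
        M * x ^ (1 - δ)) →
    ∀ (β : Fin k → ℝ) (h : ℂ → ℂ), Differentiable ℂ h → (∀ z, F z = (∏ j, (z - β j)) * h z) →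
    (∀ j, 3 / 2 - δ / 4 ≤ β j) →
    ∃ (m : ℕ) (ρ : Fin m → ℂ), (∀ j, (ρ j).re ≤ 3 / 2 ∧ h (ρ j) = 0) ∧
    ∀ ε : ℝ, 0 < ε → ε ≤ δ / 4 →
      |(∑' v : HeightOneSpectrum (𝓞 K), Real.log (nrm v) * nrm v ^ (-(1 + ε)) * xK W v) +
        ∑ j, 1 / (ε + (3 / 2 - β j)) + ∑ j, ((((3 / 2 + ε : ℝ) : ℂ) - ρ j)⁻¹).re| ≤
        D * (Lg M 0 δ / δ) := by
  obtain ⟨CA, hCA, hA⟩ := local_factor
  obtain ⟨CB, hB⟩ := bd_le.{u} n
  set C1 : ℝ := 2 * Real.log 360 + |CB| with hC1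
  have hC1' : 0 ≤ C1 := by
    have : 0 ≤ Real.log 360 := Real.log_nonneg (by norm_num)
    positivity
  refine ⟨4 * CA * (7 + C1 + 1) + |CB|, by positivity, ?_⟩
  intro K _ _ W hn F hF hFL κ δ M hδ hδ1 hM hFM hcount β h hh hfac hβ
  have hbd : bd (Curve.qv (K := K)) (Curve.exc K) ≤ |CB| := (hB K hn).1.trans (le_abs_self _)
  obtain ⟨Z, hZd, hZ1, hZ2⟩ := exists_Z K κ M δ hδ hδ1 (by linarith) hcount
  obtain ⟨a, b, α, β', cc, Dt, hLs, hxs⟩ := exists_data W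
  have hL2 := two_le_Lg (T := 0) hδ hδ1 le_rfl hM
  have hLM := log_M_le (T := 0) hδ hδ1 le_rfl hM
  have hLδ := log_δ_le (T := 0) hδ hδ1 le_rfl hM
  set L := Lg M 0 δ with hL
  have hLpos : 0 < L := by linarith
  set r : ℝ := δ / 4 with hr
  have hrpos : 0 < r := by positivity
  set c : ℂ := ((3 / 2 + r : ℝ) : ℂ) + (0 : ℝ) * I with hc
  have hcre : c.re = 3 / 2 + r := by simp [hc]
  have hcim : c.im = 0 := by simp [hc]
  have hc1 : 3 / 2 < c.re := by rw [hcre]; linarith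
  have hne : ∀ z : ℂ, 3 / 2 < z.re → F z ≠ 0 := fun z hz h0 =>
    absurd (re_le_of_zero W hFL h0) (not_le.2 hz)
  have hball : ∀ z ∈ Metric.closedBall c (4 * r), ‖F z‖ ≤ M := by
    intro z hz
    rw [Metric.mem_closedBall, dist_eq_norm] at hz
    have h1 := (Complex.abs_re_le_norm (z - c)).trans hz
    have h2 := (Complex.abs_im_le_norm (z - c)).trans hz
    rw [Complex.sub_re, hcre, abs_le] at h1
    rw [Complex.sub_im, hcim, sub_zero] at h2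
    refine hFM z (by rw [hr] at h1; linarith [h1.1]) ?_
    rw [hr] at h2
    linarith
  -- lower bound at the centre
  have hlow : -2 * Real.log (360 * M / δ ^ 2) - |CB| ≤ Real.log ‖F c‖ := by
    have h1 := sum_le_of_Z K hδ hδ1 hM hZ1 hZ2
    have h2 := log_lower Dt 0 r hrpos (by rw [hr]; linarith)
    have h3 : Real.log ‖F c‖ = Real.log ‖LogExp.L (Curve.qv (K := K)) a b
        (((3 / 2 + r : ℝ) : ℂ) + (0 : ℝ) * I)‖ := by rw [hFL c hc1, hLs c]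
    have h4 : (∑' v : HeightOneSpectrum (𝓞 K), nrm v ^ (-(1 + δ / 4))) =
        ∑' v : HeightOneSpectrum (𝓞 K), (Curve.qv v : ℝ) ^ (-(1 + r)) := by
      refine tsum_congr fun v => ?_
      rw [Curve.nrm_eq]
    rw [h4] at h1
    rw [h3]
    linarith
  set L' : ℝ := 7 * L + C1 with hL'
  have hL'0 : 0 ≤ L' := by positivity
  have hFc : F c ≠ 0 := hne c hc1
  have hBc : M ≤ Real.exp L' * ‖F c‖ := by
    have hZc : 0 < ‖F c‖ := norm_pos_iff.2 hFc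
    have h1 : Real.log M ≤ L' + Real.log ‖F c‖ := by
      have h4 : Real.log (360 * M / δ ^ 2) = Real.log 360 + Real.log M - 2 * Real.log δ := by
        rw [Real.log_div (by positivity) (by positivity), Real.log_mul (by positivity)
          (by positivity), Real.log_pow]
        push_cast; ring
      rw [h4] at hlow
      rw [hL', hC1]
      linarith
    calc M = Real.exp (Real.log M) := (Real.exp_log (by linarith)).symm
      _ ≤ Real.exp (L' + Real.log ‖F c‖) := Real.exp_le_exp.2 h1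
      _ = Real.exp L' * ‖F c‖ := by rw [Real.exp_add, Real.exp_log hZc]
  -- the real zeros
  have hβ2 : ∀ j, β j ≤ 3 / 2 := by
    intro j
    have h0 : F (β j) = 0 := by
      rw [hfac, Finset.prod_eq_zero (Finset.mem_univ j) (by rw [sub_self]), zero_mul]
    have := re_le_of_zero W hFL h0
    rwa [Complex.ofReal_re] at this
  have hβc : ∀ j, ‖((β j : ℝ) : ℂ) - c‖ ≤ 2 * r := by
    intro j
    have e : ((β j : ℝ) : ℂ) - c = ((β j - (3 / 2 + r) : ℝ) : ℂ) := by rw [hc]; push_cast; ring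
    rw [e, Complex.norm_real, Real.norm_eq_abs, abs_le]
    have h1 := hβ j
    have h2 := hβ2 j
    constructor <;> linarith
  have hpw : (0 : ℝ) < (2 * r) ^ k := by positivity
  have hcard : ∀ x : ℝ, ∏ _j : Fin k, x = x ^ k := fun x => by
    rw [Finset.prod_const, Finset.card_univ, Fintype.card_fin]
  have hbdh : ∀ z ∈ Metric.closedBall c (4 * r), ‖h z‖ ≤ M / (2 * r) ^ k := by
    refine locA_max (by positivity) (fun z _ => hh z) ?_
    intro z hz'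
    have h1 : (2 * r) ^ k ≤ ∏ j, ‖z - β j‖ := by
      rw [← hcard]
      refine Finset.prod_le_prod (fun j _ => by positivity) fun j _ => ?_
      have h2 : ‖z - c‖ ≤ ‖z - β j‖ + ‖((β j : ℝ) : ℂ) - c‖ := by
        have : z - c = (z - β j) + (((β j : ℝ) : ℂ) - c) := by ring
        rw [this]
        exact norm_add_le _ _
      have h3 := hβc j
      linarith
    have h3 := hball z (by rw [Metric.mem_closedBall, dist_eq_norm]; exact hz'.le)
    rw [hfac, norm_mul, norm_prod] at h3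
    rw [le_div_iff₀ hpw]
    calc ‖h z‖ * (2 * r) ^ k ≤ ‖h z‖ * ∏ j, ‖z - β j‖ := by gcongr
      _ = (∏ j, ‖z - β j‖) * ‖h z‖ := mul_comm _ _
      _ ≤ M := h3
  have hup : ‖F c‖ ≤ (2 * r) ^ k * ‖h c‖ := by
    rw [hfac, norm_mul, norm_prod]
    gcongr
    rw [← hcard]
    refine Finset.prod_le_prod (fun j _ => norm_nonneg _) fun j _ => ?_
    rw [norm_sub_rev]
    exact hβc j
  have hBL' : M / (2 * r) ^ k ≤ Real.exp L' * ‖h c‖ := by
    rw [div_le_iff₀ hpw]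
    refine hBc.trans ?_
    calc Real.exp L' * ‖F c‖ ≤ Real.exp L' * ((2 * r) ^ k * ‖h c‖) := by
          gcongr
      _ = Real.exp L' * ‖h c‖ * (2 * r) ^ k := by ring
  have hhc : h c ≠ 0 := fun h0 => hFc (by rw [hfac, h0, mul_zero])
  obtain ⟨m, ρ, hρ, hkey⟩ := hA h c r (M / (2 * r) ^ k) L' hrpos hL'0 (fun z _ => hh z) hbdh hBL'
    hhc
  refine ⟨m, ρ, fun j => ⟨?_, (hρ j).1⟩, ?_⟩
  · refine re_le_of_zero W hFL ?_
    rw [hfac, (hρ j).1, mul_zero]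
  intro ε hε hεδ
  set s : ℂ := ((3 / 2 + ε : ℝ) : ℂ) + (0 : ℝ) * I with hs
  have hs' : s = ((3 / 2 + ε : ℝ) : ℂ) := by simp [hs]
  have hsre : s.re = 3 / 2 + ε := by simp [hs]
  have hs1 : 3 / 2 < s.re := by rw [hsre]; linarith
  have hsc : ‖s - c‖ ≤ r := by
    have e : s - c = ((ε - r : ℝ) : ℂ) := by rw [hs, hc]; push_cast; ring
    rw [e, Complex.norm_real, Real.norm_eq_abs, abs_le]
    constructor <;> linarith
  have hFs : F s ≠ 0 := hne s hs1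
  have hhs : h s ≠ 0 := fun h0 => hFs (by rw [hfac, h0, mul_zero])
  have key := (Complex.abs_re_le_norm _).trans (hkey s hsc hhs)
  -- logarithmic derivative of `F`
  have hprod0 : ∏ j, (s - β j) ≠ 0 := fun h0 => hFs (by rw [hfac, h0, zero_mul])
  have hder : deriv F s / F s = ∑ j, (s - β j)⁻¹ + deriv h s / h s := by
    have hfe : F = fun z : ℂ => (∏ j, (z - (β j : ℂ))) * h z := funext hfac
    have h1 : logDeriv F s = logDeriv (fun z : ℂ => ∏ j, (z - (β j : ℂ))) s + logDeriv h s := by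
      rw [hfe]
      exact logDeriv_mul s hprod0 hhs (by fun_prop) (hh s)
    have h2 : logDeriv (fun z : ℂ => ∏ j, (z - β j)) s = ∑ j, (s - β j)⁻¹ := by
      have h3 := logDeriv_prod (s := Finset.univ) (f := fun (j : Fin k) (z : ℂ) => z - β j) (x := s)
        (fun j hj => Finset.prod_ne_zero_iff.mp hprod0 j hj) (fun j _ => by fun_prop)
      rw [h3]
      refine Finset.sum_congr rfl fun j _ => ?_
      rw [logDeriv_apply]
      simp
    rw [logDeriv_apply, h2, logDeriv_apply] at h1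
    exact h1
  have hreβ : (∑ j, (s - β j)⁻¹).re = ∑ j, 1 / (ε + (3 / 2 - β j)) := by
    rw [Complex.re_sum]
    refine Finset.sum_congr rfl fun j _ => ?_
    have e : s - β j = ((ε + (3 / 2 - β j) : ℝ) : ℂ) := by rw [hs]; push_cast; ring
    rw [e, ← Complex.ofReal_inv, Complex.ofReal_re, one_div]
  have hreρ : (∑ j, (s - ρ j)⁻¹).re = ∑ j, ((((3 / 2 + ε : ℝ) : ℂ) - ρ j)⁻¹).re := by
    rw [Complex.re_sum, hs']
  rw [Complex.sub_re, hreρ] at key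
  -- expansion
  have hexp := (deriv_expansion Dt 0 ε hε (by linarith)).trans hbd
  have hder2 : deriv (LogExp.L (Curve.qv (K := K)) a b) (((3 / 2 + ε : ℝ) : ℂ) + (0 : ℝ) * I) /
      LogExp.L (Curve.qv (K := K)) a b (((3 / 2 + ε : ℝ) : ℂ) + (0 : ℝ) * I) =
      deriv F s / F s := by
    have hev : F =ᶠ[𝓝 s] LogExp.L (Curve.qv (K := K)) a b := by
      have hopen : IsOpen {z : ℂ | 3 / 2 < z.re} := isOpen_lt continuous_const Complex.continuous_re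
      filter_upwards [hopen.mem_nhds hs1] with z hz
      rw [hFL z hz, hLs z]
    rw [hev.deriv_eq, hev.eq_of_nhds]
  rw [hder2, hder, Complex.add_re, hreβ] at hexp
  have hX : (∑' v : HeightOneSpectrum (𝓞 K), LogExp.xs (Curve.qv (K := K)) a (Curve.exc K) v *
      (Real.log (Curve.qv v) * (Curve.qv v : ℝ) ^ (-(1 + ε)) *
      Real.cos (0 * Real.log (Curve.qv v)))) =
      ∑' v : HeightOneSpectrum (𝓞 K), Real.log (nrm v) * nrm v ^ (-(1 + ε)) * xK W v := by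
    refine tsum_congr fun v => ?_
    rw [hxs v, Curve.nrm_eq, zero_mul, Real.cos_zero]
    ring
  rw [hX] at hexp
  have hfin : CA * (L' + 1) / r + |CB| ≤ (4 * CA * (7 + C1 + 1) + |CB|) * (L / δ) := by
    have h1 : CA * (L' + 1) / r ≤ 4 * CA * (7 + C1 + 1) * (L / δ) := by
      have e : CA * (L' + 1) / r = 4 * CA * (L' + 1) / δ := by rw [hr]; field_simp
      rw [e, mul_div_assoc', mul_assoc (4 * CA)]
      refine div_le_div_of_nonneg_right ?_ hδ.le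
      refine mul_le_mul_of_nonneg_left ?_ (by positivity)
      rw [hL']
      nlinarith
    have h2 : |CB| ≤ |CB| * (L / δ) := by
      refine le_mul_of_one_le_right (abs_nonneg _) ?_
      rw [le_div_iff₀ hδ]
      linarith
    rw [add_mul]
    linarith
  rw [abs_le] at key hexp ⊢
  constructor <;> linarith [key.1, key.2, hexp.1, hexp.2]

open Zfr in
/-- S1. The mean value of `x` in terms of the zeros close to `3/2`, two-sided. -/
theorem curve_two_sided (n k : ℕ) (c₁ κ' : ℝ) (hc₁ : 0 < c₁) (hκ' : 0 < κ') : ∃ θ₀ : ℝ, 0 < θ₀ ∧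
    ∀ θ : ℝ, 0 < θ → θ ≤ θ₀ → ∀ (K : Type u) [Field K] [NumberField K] (W : WeierstrassCurve K),
    Module.finrank ℚ K = n → ∀ (F : ℂ → ℂ), Differentiable ℂ F →
    (∀ s : ℂ, 3 / 2 < s.re → F s = W.LSeries s) → ∀ (κ δ M : ℝ), 0 < δ → δ ≤ 1 / 2 → 2 ≤ M →
    (∀ s : ℂ, 3 / 2 - δ ≤ s.re → |s.im| ≤ 1 → ‖F s‖ ≤ M) →
    (∀ x : ℝ, 1 ≤ x →
      |(Nat.card {J : Ideal (𝓞 K) // J ≠ ⊥ ∧ (Ideal.absNorm J : ℝ) ≤ x} : ℝ) - κ * x| ≤
        M * x ^ (1 - δ)) →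
    ∀ (β : Fin k → ℝ) (h : ℂ → ℂ), Differentiable ℂ h → (∀ z, F z = (∏ j, (z - β j)) * h z) →
    (∀ j, 3 / 2 - δ / 4 ≤ β j) →
    (∀ z : ℂ, ‖z - 3 / 2‖ < c₁ * δ / Zfr.Lg M 0 δ → h z ≠ 0) →
    ∀ ε : ℝ, ε = θ * δ / Zfr.Lg M 0 δ →
    |(∑' v : HeightOneSpectrum (𝓞 K), ε * (Real.log (nrm v) * nrm v ^ (-(1 + ε))) * Zfr.xK W v) +
      ∑ j, ε / (ε + (3 / 2 - β j))| ≤ κ' := by
  obtain ⟨D, hD, hexp⟩ := TS_expansion.{u} n k
  obtain ⟨θ₁, hθ₁, hone⟩ := one_sided_zeta'.{u} n 0 1 one_pos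
  set θ₂ : ℝ := min (min c₁ θ₁) (1 / 4) with hθ₂
  have hθ₂pos : 0 < θ₂ := by positivity
  have hθ₂a : θ₂ ≤ c₁ := (min_le_left _ _).trans (min_le_left _ _)
  have hθ₂b : θ₂ ≤ θ₁ := (min_le_left _ _).trans (min_le_right _ _)
  have hθ₂c : θ₂ ≤ 1 / 4 := min_le_right _ _
  refine ⟨min θ₂ (κ' / (16 / θ₂ + 5 * D)), by positivity, ?_⟩
  intro θ hθ hθ0 K _ _ W hn F hF hFL κ δ M hδ hδ1 hM hFM hcount β h hh hfac hβ hnz ε hε
  obtain ⟨m, ρ, hρ, hX⟩ := hexp K W hn F hF hFL κ δ M hδ hδ1 hM hFM hcount β h hh hfac hβ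
  have hL2 := two_le_Lg (T := 0) hδ hδ1 le_rfl hM
  have hone' := hone K hn κ δ 0 M θ₂ hδ hδ1 le_rfl hM hθ₂pos hθ₂b hcount
  set L := Lg M 0 δ with hL
  have hLpos : 0 < L := by linarith
  have hθ0a : θ ≤ θ₂ := hθ0.trans (min_le_left _ _)
  have hθ0b : θ ≤ κ' / (16 / θ₂ + 5 * D) := hθ0.trans (min_le_right _ _)
  set ε₂ : ℝ := θ₂ * δ / L with hε₂
  have hε₂pos : 0 < ε₂ := by rw [hε₂]; positivity
  have hεpos : 0 < ε := by rw [hε]; positivity
  have hεε : ε ≤ ε₂ := by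
    rw [hε, hε₂]
    exact div_le_div_of_nonneg_right (mul_le_mul_of_nonneg_right hθ0a hδ.le) hLpos.le
  have hε₂δ : ε₂ ≤ δ / 4 := by
    rw [hε₂, div_le_div_iff₀ hLpos (by norm_num)]
    nlinarith
  have h1 := hX ε₂ hε₂pos hε₂δ
  have h2 := hX ε hεpos (hεε.trans hε₂δ)
  have hone2 := hone' ε₂ rfl 0 (by simp)
  rw [gk_zero] at hone2
  have hβ2 : ∀ j, β j ≤ 3 / 2 := by
    intro j
    have h0 : F (β j) = 0 := by
      rw [hfac, Finset.prod_eq_zero (Finset.mem_univ j) (by rw [sub_self]), zero_mul]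
    have := re_le_of_zero W hFL h0
    rwa [Complex.ofReal_re] at this
  -- the sum of absolute values at the scale `ε₂`
  have hsum2 : ε₂ * (∑' v : HeightOneSpectrum (𝓞 K), Real.log (nrm v) * nrm v ^ (-(1 + ε₂))) ≤
      2 := by
    rw [← tsum_mul_left]
    have e : (∑' v : HeightOneSpectrum (𝓞 K), ε₂ * (Real.log (nrm v) * nrm v ^ (-(1 + ε₂)))) =
        ∑' v : HeightOneSpectrum (𝓞 K), ε₂ * (Real.log (nrm v) * nrm v ^ (-(1 + ε₂))) *
          Real.cos (0 * Real.log (nrm v)) := by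
      refine tsum_congr fun v => ?_
      rw [zero_mul, Real.cos_zero, mul_one]
    rw [e]
    linarith
  have hsm := summable_lw (K := K) ε₂ hε₂pos
  have habs : |∑' v : HeightOneSpectrum (𝓞 K), Real.log (nrm v) * nrm v ^ (-(1 + ε₂)) * xK W v| ≤
      2 * ∑' v : HeightOneSpectrum (𝓞 K), Real.log (nrm v) * nrm v ^ (-(1 + ε₂)) := by
    have hle : ∀ v : HeightOneSpectrum (𝓞 K),
        ‖Real.log (nrm v) * nrm v ^ (-(1 + ε₂)) * xK W v‖ ≤
          2 * (Real.log (nrm v) * nrm v ^ (-(1 + ε₂))) := by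
      intro v
      rw [norm_mul, Real.norm_of_nonneg (lw_nonneg ε₂ v), Real.norm_eq_abs, mul_comm 2]
      exact mul_le_mul_of_nonneg_left (abs_xK_le W v) (lw_nonneg ε₂ v)
    have h3 := tsum_of_norm_bounded (hsm.mul_left 2).hasSum hle
    rw [Real.norm_eq_abs, tsum_mul_left] at h3
    exact h3
  have hdist : (∑' v : HeightOneSpectrum (𝓞 K), ε * (Real.log (nrm v) * nrm v ^ (-(1 + ε))) *
      Zfr.xK W v) =
      ε * ∑' v : HeightOneSpectrum (𝓞 K), Real.log (nrm v) * nrm v ^ (-(1 + ε)) * xK W v := by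
    rw [← tsum_mul_left]
    exact tsum_congr fun v => by ring
  have hdist2 : (∑ j, ε / (ε + (3 / 2 - β j))) = ε * ∑ j, 1 / (ε + (3 / 2 - β j)) := by
    rw [Finset.mul_sum]
    exact Finset.sum_congr rfl fun j _ => by ring
  rw [hdist, hdist2]
  set S₂ := ∑' v : HeightOneSpectrum (𝓞 K), Real.log (nrm v) * nrm v ^ (-(1 + ε₂)) with hS₂
  set X₂ := ∑' v : HeightOneSpectrum (𝓞 K), Real.log (nrm v) * nrm v ^ (-(1 + ε₂)) * xK W v
    with hX₂
  set X := ∑' v : HeightOneSpectrum (𝓞 K), Real.log (nrm v) * nrm v ^ (-(1 + ε)) * xK W v with hXd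
  set B₂ := ∑ j, 1 / (ε₂ + (3 / 2 - β j)) with hB₂
  set B := ∑ j, 1 / (ε + (3 / 2 - β j)) with hBd
  set A₂ := ∑ j, ((((3 / 2 + ε₂ : ℝ) : ℂ) - ρ j)⁻¹).re with hA₂
  set A := ∑ j, ((((3 / 2 + ε : ℝ) : ℂ) - ρ j)⁻¹).re with hA
  have hB₂0 : 0 ≤ B₂ := by
    rw [hB₂]
    refine Finset.sum_nonneg fun j _ => ?_
    have := hβ2 j
    have : 0 < ε₂ + (3 / 2 - β j) := by linarith
    positivity
  have hA0 : 0 ≤ A := by
    rw [hA]
    exact Finset.sum_nonneg fun j _ => TS_nonneg (hρ j).1 hεpos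
  have hscale : ∀ θ' ε' : ℝ, ε' = θ' * δ / L → ε' * (D * (L / δ)) = D * θ' := by
    intro θ' ε' h
    rw [h]
    field_simp
  have hs₂ := hscale θ₂ ε₂ hε₂
  have hs := hscale θ ε hε
  have hA₂le : ε₂ * A₂ ≤ 4 + D * θ₂ := by
    have h3 : A₂ ≤ 2 * S₂ + D * (L / δ) := by
      have h4 := (abs_le.1 h1).2
      have h5 := (abs_le.1 habs).1
      linarith
    have h4 : ε₂ * A₂ ≤ ε₂ * (2 * S₂ + D * (L / δ)) := mul_le_mul_of_nonneg_left h3 hε₂pos.le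
    rw [mul_add, hs₂] at h4
    linarith
  have hterm : ∀ j, ((((3 / 2 + ε : ℝ) : ℂ) - ρ j)⁻¹).re ≤
      4 * ((((3 / 2 + ε₂ : ℝ) : ℂ) - ρ j)⁻¹).re := by
    intro j
    rw [TS_re, TS_re]
    have hd : 0 ≤ 3 / 2 - (ρ j).re := by linarith [(hρ j).1]
    refine TS_compare hd hεpos hεε ?_
    have h3 : c₁ * δ / L ≤ ‖ρ j - 3 / 2‖ := by
      by_contra hcon
      push Not at hcon
      exact hnz (ρ j) hcon (hρ j).2
    have h4 : ε₂ ≤ ‖ρ j - 3 / 2‖ := by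
      refine le_trans ?_ h3
      rw [hε₂]
      exact div_le_div_of_nonneg_right (mul_le_mul_of_nonneg_right hθ₂a hδ.le) hLpos.le
    have h5 : ‖ρ j - 3 / 2‖ ^ 2 = (3 / 2 - (ρ j).re) ^ 2 + (ρ j).im ^ 2 := by
      rw [Complex.sq_norm, Complex.normSq_apply]
      have e1 : (ρ j - 3 / 2).re = (ρ j).re - 3 / 2 := by
        rw [Complex.sub_re]; norm_num
      have e2 : (ρ j - 3 / 2).im = (ρ j).im := by
        rw [Complex.sub_im]; norm_num
      rw [e1, e2]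
      ring
    rw [← h5]
    exact pow_le_pow_left₀ hε₂pos.le h4 2
  have hAle : A ≤ 4 * A₂ := by
    rw [hA, hA₂, Finset.mul_sum]
    exact Finset.sum_le_sum fun j _ => hterm j
  have hratio : ε = θ / θ₂ * ε₂ := by
    rw [hε, hε₂]
    field_simp
  have hεA : ε * A ≤ θ * (16 / θ₂ + 4 * D) := by
    calc ε * A ≤ ε * (4 * A₂) := mul_le_mul_of_nonneg_left hAle hεpos.le
      _ = 4 * (θ / θ₂) * (ε₂ * A₂) := by rw [hratio]; ring
      _ ≤ 4 * (θ / θ₂) * (4 + D * θ₂) := mul_le_mul_of_nonneg_left hA₂le (by positivity)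
      _ = θ * (16 / θ₂ + 4 * D) := by field_simp; ring
  have hεA0 : 0 ≤ ε * A := mul_nonneg hεpos.le hA0
  have h6 : θ * (16 / θ₂ + 5 * D) ≤ κ' := by
    rwa [le_div_iff₀ (by positivity)] at hθ0b
  have h7 : ε * |X + B + A| ≤ D * θ := by
    rw [← hs]
    exact mul_le_mul_of_nonneg_left h2 hεpos.le
  have h8 : |ε * X + ε * B + ε * A| ≤ D * θ := by
    have e : ε * X + ε * B + ε * A = ε * (X + B + A) := by ring
    rw [e, abs_mul, abs_of_pos hεpos]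
    exact h7
  rw [abs_le] at h8 ⊢
  have h9 : 0 ≤ D * θ := by positivity
  constructor
  · nlinarith [h8.1]
  · linarith [h8.2, mul_nonneg hθ.le (by positivity : 0 ≤ 16 / θ₂ + 4 * D)]

end Pool.Agent.MPfb225e.Szf
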