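import Mathlib
import Pool.Agent.Lib.MP_fb225e_nt.Szf.Mul
import Pool.Agent.Lib.MP_fb225e_nt.Szf.TwoSided
import Pool.Agent.Lib.MP_fb225e_nt.Szf.Frob
import Pool.Agent.Lib.MP_fb225e_nt.Szf.GroupApprox
import Pool.Agent.Lib.MP_fb225e_nt.Szf.Curve

/-!
MP_fb225e_nt, project SZF, second part: the exceptional zero of a field and the mean value.
-/

namespace Pool.Agent.MPfb225e.Szf

open Filter Topology Complex
open NumberField IsDedekindDomain

universe u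

/-- Some scale is far from all the numbers `t i`. -/
theorem good_scale {ι : Type*} [Fintype ι] (t : ι → ℝ) {κ ε₀ : ℝ} (hκ : 0 < κ) (hκ1 : κ < 1)
    (hε₀ : 0 < ε₀) (J : ℕ) (hJ : Fintype.card ι < J) :
    ∃ j < J, ∀ i, t i ≤ κ * (ε₀ * κ ^ (2 * j)) ∨ ε₀ * κ ^ (2 * j) ≤ κ * t i := by
  classical
  by_contra hcon
  push Not at hcon
  choose f hf1 hf2 using hcon
  have key : ∀ (i j : ℕ) (hi : i < J) (hj : j < J), i < j → f i hi ≠ f j hj := by
    intro i j hi hj hij heq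
    have h1 := hf1 i hi
    have h2 := hf2 j hj
    rw [← heq] at h2
    have h3 : κ ^ (2 * j) ≤ κ ^ (2 * i + 2) := pow_le_pow_of_le_one hκ.le hκ1.le (by omega)
    have h4 : ε₀ * κ ^ (2 * j) ≤ ε₀ * κ ^ (2 * i + 2) := mul_le_mul_of_nonneg_left h3 hε₀.le
    have h5 : κ * (κ * (ε₀ * κ ^ (2 * i))) < κ * t (f i hi) := mul_lt_mul_of_pos_left h1 hκ
    have h6 : κ * (κ * (ε₀ * κ ^ (2 * i))) = ε₀ * κ ^ (2 * i + 2) := by ring
    linarith
  have hinj : Function.Injective fun j : Fin J => f j.1 j.2 := by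
    intro i j h
    rcases lt_trichotomy i.1 j.1 with h1 | h1 | h1
    · exact absurd h (key i j i.2 j.2 h1)
    · exact Fin.ext h1
    · exact absurd h.symm (key j i j.2 i.2 h1)
  have h1 := Fintype.card_le_of_injective _ hinj
  rw [Fintype.card_fin] at h1
  omega

theorem Lg_le {M δ : ℝ} (hδ : 0 < δ) (hδ1 : δ ≤ 1 / 2) (hM : 2 ≤ M) :
    Zfr.Lg M 1 δ ≤ 2 * Zfr.Lg M 0 δ := by
  have h0 := Zfr.two_le_Lg hδ hδ1 (le_refl (0 : ℝ)) hM
  unfold Zfr.Lg at h0 ⊢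
  have hx : (1 : ℝ) ≤ M * (0 + 2) / δ := by
    rw [le_div_iff₀ hδ]
    nlinarith
  rw [← Real.log_rpow (by positivity)]
  refine Real.log_le_log (by positivity) ?_
  rw [Real.rpow_two, sq]
  have e : M * (1 + 2) / δ = 3 / 2 * (M * (0 + 2) / δ) := by ring
  rw [e]
  refine mul_le_mul_of_nonneg_right ?_ (by positivity)
  rw [le_div_iff₀ hδ]
  nlinarith

/-- a simple zero is split off -/
theorem ne_zero_of_simple {F h : ℂ → ℂ} {β : ℂ} (hF : ∀ z, F z = (z - β) * h z)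
    (hh : Differentiable ℂ h) (h1 : analyticOrderNatAt F β = 1) : h β ≠ 0 := by
  intro h0
  have hfe : F = (fun z => z - β) * h := funext fun z => hF z
  have ha : AnalyticAt ℂ (fun z : ℂ => z - β) β := by fun_prop
  have e1 : analyticOrderAt F β = analyticOrderAt (fun z : ℂ => z - β) β + analyticOrderAt h β := by
    rw [hfe]
    exact analyticOrderAt_mul ha (hh.analyticAt β)
  have e2 : 1 ≤ analyticOrderAt (fun z : ℂ => z - β) β := by
    rw [Order.one_le_iff_ne_zero, ha.analyticOrderAt_ne_zero]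
    simp
  have e3 : 1 ≤ analyticOrderAt h β := by
    rw [Order.one_le_iff_ne_zero, (hh.analyticAt β).analyticOrderAt_ne_zero]
    exact h0
  have e4 : 2 ≤ analyticOrderAt F β := by
    rw [e1]
    calc (2 : ℕ∞) = 1 + 1 := by norm_num
      _ ≤ _ := add_le_add e2 e3
  unfold analyticOrderNatAt at h1
  rcases eq_or_ne (analyticOrderAt F β) ⊤ with h | h
  · rw [h] at h1
    simp at h1
  · have h5 : ((analyticOrderAt F β).toNat : ℕ∞) = analyticOrderAt F β := ENat.natCast_toNat h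
    rw [h1] at h5
    rw [← h5] at e4
    exact absurd e4 (by decide)

/-- The zero-free region with at most one zero, uniformly in the degree. -/
theorem one_zero (E : WeierstrassCurve ℚ) [E.IsElliptic] (n : ℕ) (η : ℝ) (hη : 0 < η)
    (hη1 : η ≤ 1)
    (hbias : ∀ᶠ ε : ℝ in 𝓝[>] 0, ε * ∑' p : Nat.Primes,
      {p : Nat.Primes | Fam.lam E p < -2 + η}.indicator
        (fun p : Nat.Primes => Real.log p * (p : ℝ) ^ (-(1 + ε))) p ≤ η / (16 * n)) :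
    ∃ c : ℝ, 0 < c ∧ ∃ N : ℕ, ∀ (K : Type u) [Field K] [NumberField K], Module.finrank ℚ K ≤ n →
    ∀ (F : ℂ → ℂ), Differentiable ℂ F → (∀ s : ℂ, 3 / 2 < s.re → F s = (E.baseChange K).LSeries s) →
    ∀ (δ T M : ℝ), 0 < δ → δ ≤ 1 / 2 → 0 ≤ T → 2 ≤ M →
    (∀ s : ℂ, 3 / 2 - δ ≤ s.re → |s.im| ≤ N * (T + 1) → ‖F s‖ ≤ M) → Cnt K δ M →
    ∃ β : ℝ, ∀ ρ : ℂ, 3 / 2 - c * δ / Zfr.Lg M T δ < ρ.re → |ρ.im| ≤ T → F ρ = 0 →
      ρ = β ∧ analyticOrderNatAt F ρ = 1 := by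
  have hd : ∀ d : ℕ, ∃ c₀ : ℝ, 0 < c₀ ∧ ∀ c, 0 < c → c ≤ c₀ → (1 ≤ d ∧ d ≤ n → ∃ N : ℕ,
      ∀ (K : Type u) [Field K] [NumberField K], Module.finrank ℚ K = d →
      ∀ (F : ℂ → ℂ), Differentiable ℂ F →
      (∀ s : ℂ, 3 / 2 < s.re → F s = (E.baseChange K).LSeries s) →
      ∀ (δ T M : ℝ), 0 < δ → δ ≤ 1 / 2 → 0 ≤ T → 2 ≤ M →
      (∀ s : ℂ, 3 / 2 - δ ≤ s.re → |s.im| ≤ N * (T + 1) → ‖F s‖ ≤ M) → Cnt K δ M →
      ∃ β : ℝ, ∀ ρ : ℂ, 3 / 2 - c * δ / Zfr.Lg M T δ < ρ.re → |ρ.im| ≤ T → F ρ = 0 →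
        ρ = β ∧ analyticOrderNatAt F ρ = 1) := by
    intro d
    by_cases hdn : 1 ≤ d ∧ d ≤ n
    · have hb : ∀ᶠ ε : ℝ in 𝓝[>] 0, ε * ∑' p : Nat.Primes,
          {p : Nat.Primes | Fam.lam E p < -2 + η}.indicator
          (fun p : Nat.Primes => Real.log p * (p : ℝ) ^ (-(1 + ε))) p ≤ η / (16 * d) := by
        filter_upwards [hbias] with ε hε
        refine hε.trans ?_
        have h1 : (1 : ℝ) ≤ d := by exact_mod_cast hdn.1
        have h2 : (d : ℝ) ≤ n := by exact_mod_cast hdn.2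
        exact div_le_div_of_nonneg_left hη.le (by positivity) (by linarith)
      obtain ⟨c₀, hc₀, N, h⟩ := Zfr.at_most_one'.{u} E d η hη hη1 hb
      refine ⟨c₀, hc₀, fun c hc hcc _ => ⟨N, ?_⟩⟩
      intro K _ _ hK F hF hFL δ T M hδ hδ1 hT hM hFM ⟨κ, hcount⟩
      obtain ⟨β, hβ⟩ := h K hK F hF hFL κ δ T M hδ hδ1 hT hM hFM hcount
      refine ⟨β, fun ρ hρ => hβ ρ ?_⟩
      have hL := Zfr.two_le_Lg hδ hδ1 hT hM
      have h1 : c * δ / Zfr.Lg M T δ ≤ c₀ * δ / Zfr.Lg M T δ :=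
        div_le_div_of_nonneg_right (mul_le_mul_of_nonneg_right hcc hδ.le) (by linarith)
      linarith
    · exact ⟨1, one_pos, fun _ _ _ h => absurd h hdn⟩
  obtain ⟨c, hc, h⟩ := exists_uniform hd n
  have h' := h c hc le_rfl
  choose! N hN using fun (d : ℕ) (hd : 1 ≤ d ∧ d ≤ n) => h' d hd.2 hd
  refine ⟨c, hc, ∑ d ∈ Finset.range (n + 1), N d, ?_⟩
  intro K _ _ hK F hF hFL δ T M hδ hδ1 hT hM hFM hcnt
  have hpos : 1 ≤ Module.finrank ℚ K := Module.finrank_pos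
  refine hN (Module.finrank ℚ K) ⟨hpos, hK⟩ K rfl F hF hFL δ T M hδ hδ1 hT hM
    (fun s hs hs' => hFM s hs (hs'.trans ?_)) hcnt
  refine mul_le_mul_of_nonneg_right ?_ (by linarith)
  exact_mod_cast Finset.single_le_sum (f := fun d => N d) (fun _ _ => Nat.zero_le _)
    (Finset.mem_range.2 (Nat.lt_succ_of_le hK))

/-- The exceptional zero and the mean value of `x` over the places. -/
theorem exc_zero (E : WeierstrassCurve ℚ) [E.IsElliptic] (n : ℕ) (η : ℝ) (hη : 0 < η)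
    (hη1 : η ≤ 1)
    (hbias : ∀ᶠ ε : ℝ in 𝓝[>] 0, ε * ∑' p : Nat.Primes,
      {p : Nat.Primes | Fam.lam E p < -2 + η}.indicator
        (fun p : Nat.Primes => Real.log p * (p : ℝ) ^ (-(1 + ε))) p ≤ η / (16 * n)) :
    ∃ c₁ : ℝ, 0 < c₁ ∧ ∃ N : ℕ, 1 ≤ N ∧ ∀ κ' : ℝ, 0 < κ' → ∃ θ₀ : ℝ, 0 < θ₀ ∧
    ∀ (K : Type u) [Field K] [NumberField K], Module.finrank ℚ K ≤ n →
    ∀ (F : ℂ → ℂ), Differentiable ℂ F → (∀ s : ℂ, 3 / 2 < s.re → F s = (E.baseChange K).LSeries s) →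
    ∀ (δ M : ℝ), 0 < δ → δ ≤ 1 / 2 → 2 ≤ M →
    (∀ s : ℂ, 3 / 2 - δ ≤ s.re → |s.im| ≤ N → ‖F s‖ ≤ M) → Cnt K δ M →
    ∃ t : ℝ, 0 ≤ t ∧ (∀ β : ℝ, F β = 0 → 3 / 2 - c₁ * δ / Zfr.Lg M 0 δ < β → t = 3 / 2 - β) ∧
      (t < 1 → F ((3 / 2 - t : ℝ) : ℂ) = 0) ∧
      ∀ θ : ℝ, 0 < θ → θ ≤ θ₀ → ∀ ε : ℝ, ε = θ * δ / Zfr.Lg M 0 δ →
        |(∑' v : HeightOneSpectrum (𝓞 K), ε * (Real.log (nrm v) * nrm v ^ (-(1 + ε))) *
          Zfr.xK (E.baseChange K) v) + ε / (ε + t)| ≤ κ' := by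
  obtain ⟨c, hc, N, hone⟩ := one_zero.{u} E n η hη hη1 hbias
  set c₁ : ℝ := min (c / 2) (1 / 2) with hc₁
  have hc₁0 : 0 < c₁ := by positivity
  have hc₁c : c₁ ≤ c / 2 := min_le_left _ _
  have hc₁h : c₁ ≤ 1 / 2 := min_le_right _ _
  refine ⟨c₁, hc₁0, 2 * N + 1, by omega, ?_⟩
  intro κ' hκ'
  obtain ⟨θ₀, hθ₀, h0⟩ := exists_uniform (fun d => curve_two_sided.{u} d 0 c₁ (κ' / 2) hc₁0
    (by positivity)) n
  obtain ⟨θ₁, hθ₁, h1⟩ := exists_uniform (fun d => curve_two_sided.{u} d 1 c₁ κ' hc₁0 hκ') n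
  refine ⟨min (min θ₀ θ₁) (κ' / 2), by positivity, ?_⟩
  intro K _ _ hK F hF hFL δ M hδ hδ1 hM hFM hcnt
  have hL2 := Zfr.two_le_Lg hδ hδ1 (le_refl (0 : ℝ)) hM
  have hL1 := Lg_le hδ hδ1 hM
  have hLT := Zfr.two_le_Lg hδ hδ1 (zero_le_one (α := ℝ)) hM
  set Λ := Zfr.Lg M 0 δ with hΛ
  have hΛ0 : 0 < Λ := by linarith
  obtain ⟨κ, hcount⟩ := hcnt
  have hFM1 : ∀ s : ℂ, 3 / 2 - δ ≤ s.re → |s.im| ≤ 1 → ‖F s‖ ≤ M := fun s hs hs' =>
    hFM s hs (hs'.trans (by push_cast; have : (0 : ℝ) ≤ N := Nat.cast_nonneg N; linarith))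
  obtain ⟨β, hβ⟩ := hone K hK F hF hFL δ 1 M hδ hδ1 zero_le_one hM (fun s hs hs' =>
    hFM s hs (hs'.trans (by push_cast; linarith))) ⟨κ, hcount⟩
  have hball : ∀ z : ℂ, ‖z - 3 / 2‖ < c₁ * δ / Λ → F z = 0 → z = β ∧ analyticOrderNatAt F z = 1 := by
    intro z hz hz0
    refine hβ z ?_ ?_ hz0
    · have h2 := (Complex.abs_re_le_norm (z - 3 / 2)).trans_lt hz
      rw [Complex.sub_re, abs_lt] at h2
      have e : (3 / 2 : ℂ).re = 3 / 2 := by norm_num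
      rw [e] at h2
      have h3 : c₁ * δ / Λ ≤ c * δ / Zfr.Lg M 1 δ := by
        rw [div_le_div_iff₀ hΛ0 (by linarith)]
        have h4 : c₁ * δ ≤ c / 2 * δ := mul_le_mul_of_nonneg_right hc₁c hδ.le
        calc c₁ * δ * Zfr.Lg M 1 δ ≤ c / 2 * δ * (2 * Λ) :=
              mul_le_mul h4 hL1 (by linarith) (by positivity)
          _ = c * δ * Λ := by ring
      linarith [h2.1]
    · have h2 := (Complex.abs_im_le_norm (z - 3 / 2)).trans_lt hz
      rw [Complex.sub_im] at h2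
      have e : (3 / 2 : ℂ).im = 0 := by norm_num
      rw [e, sub_zero] at h2
      have h3 : c₁ * δ / Λ ≤ 1 := by
        rw [div_le_one hΛ0]
        nlinarith
      linarith
  have hreal : ∀ β' : ℝ, F β' = 0 → 3 / 2 - c₁ * δ / Λ < β' → ‖(β' : ℂ) - 3 / 2‖ < c₁ * δ / Λ := by
    intro β' h2 h3
    have h4 := Zfr.re_le_of_zero (E.baseChange K) hFL h2
    rw [Complex.ofReal_re] at h4
    have e : (β' : ℂ) - 3 / 2 = ((β' - 3 / 2 : ℝ) : ℂ) := by push_cast; ring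
    rw [e, Complex.norm_real, Real.norm_eq_abs, abs_of_nonpos (by linarith)]
    linarith
  by_cases hex : ∃ z : ℂ, ‖z - 3 / 2‖ < c₁ * δ / Λ ∧ F z = 0
  · obtain ⟨z, hz, hz0⟩ := hex
    obtain ⟨hzβ, hord⟩ := hball z hz hz0
    rw [hzβ] at hz hz0 hord
    have hβle := Zfr.re_le_of_zero (E.baseChange K) hFL hz0
    rw [Complex.ofReal_re] at hβle
    have hβnorm : 3 / 2 - β < c₁ * δ / Λ := by
      have e : (β : ℂ) - 3 / 2 = ((β - 3 / 2 : ℝ) : ℂ) := by push_cast; ring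
      rw [e, Complex.norm_real, Real.norm_eq_abs, abs_of_nonpos (by linarith)] at hz
      linarith
    have hβge : 3 / 2 - δ / 4 ≤ β := by
      have h3 : c₁ * δ / Λ ≤ δ / 4 := by
        rw [div_le_iff₀ hΛ0]
        nlinarith
      linarith
    obtain ⟨h, hh, hfac⟩ := Zfr.split_one hF hz0
    refine ⟨3 / 2 - β, by linarith, ?_, ?_, ?_⟩
    · intro β' h2 h3
      have h4 := (hball β' (hreal β' h2 h3) h2).1
      have h5 : β' = β := by exact_mod_cast h4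
      rw [h5]
    · intro _
      have e : (3 / 2 - (3 / 2 - β) : ℝ) = β := by ring
      rw [e]
      exact hz0
    · intro θ hθ hθ0 ε hε
      have key := h1 θ hθ ((hθ0.trans (min_le_left _ _)).trans (min_le_right _ _)) _ hK K
        (E.baseChange K) rfl F hF hFL κ δ M hδ hδ1 hM hFM1 hcount (fun _ => β) h hh
        (fun z => by rw [hfac z, Fin.prod_univ_one]) (fun _ => hβge) (fun w hw hw0 => by
          have h4 : F w = 0 := by rw [hfac, hw0, mul_zero]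
          obtain ⟨h5, -⟩ := hball w hw h4
          rw [h5] at hw0
          exact ne_zero_of_simple hfac hh hord hw0) ε hε
      rw [Fin.sum_univ_one] at key
      exact key
  · push Not at hex
    refine ⟨1, zero_le_one, ?_, fun h => absurd h (lt_irrefl _), ?_⟩
    · intro β' h2 h3
      exact absurd h2 (hex β' (hreal β' h2 h3))
    · intro θ hθ hθ0 ε hε
      obtain ⟨hε0, hεθ⟩ := scale hθ hδ hδ1 hM hε
      have key := h0 θ hθ ((hθ0.trans (min_le_left _ _)).trans (min_le_left _ _)) _ hK K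
        (E.baseChange K) rfl F hF hFL κ δ M hδ hδ1 hM hFM1 hcount Fin.elim0 F hF
        (fun z => by simp) (fun j => j.elim0) (fun w hw => hex w hw) ε hε
      rw [Finset.univ_eq_empty, Finset.sum_empty, add_zero] at key
      have h2 : ε / (ε + 1) ≤ κ' / 2 := by
        have h3 : ε / (ε + 1) ≤ ε := by
          rw [div_le_iff₀ (by linarith)]
          nlinarith
        exact h3.trans (hεθ.trans (hθ0.trans (min_le_right _ _)))
      have h3 : 0 ≤ ε / (ε + 1) := by positivity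
      refine (abs_add_le _ _).trans ?_
      rw [abs_of_nonneg h3]
      linarith

end Pool.Agent.MPfb225e.Szf
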