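import Mathlib
import Pool.Agent.Lib.MP_fb225e_nt.Szf.Exc
import Pool.Agent.Lib.MP_fb225e_nt.Szf.Main

/-!
MP_fb225e_nt, project SZF, second part: all the subfields of a Galois extension of the rationals with
strongly real group.
-/

namespace Pool.Agent.MPfb225e.Szf

open Filter Topology Complex
open NumberField IsDedekindDomain

universe u

/-- The mean value of `c x` over the rational primes, for all fields at once. -/
theorem exc_primes (E : WeierstrassCurve ℚ) [E.IsElliptic] (n : ℕ) (η : ℝ) (hη : 0 < η)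
    (hη1 : η ≤ 1)
    (hbias : ∀ᶠ ε : ℝ in 𝓝[>] 0, ε * ∑' p : Nat.Primes,
      {p : Nat.Primes | Fam.lam E p < -2 + η}.indicator
        (fun p : Nat.Primes => Real.log p * (p : ℝ) ^ (-(1 + ε))) p ≤ η / (16 * n)) :
    ∃ c₁ : ℝ, 0 < c₁ ∧ ∃ N : ℕ, 1 ≤ N ∧ ∀ κ' : ℝ, 0 < κ' → ∃ θ₀ : ℝ, 0 < θ₀ ∧
    ∀ (K : Type u) [Field K] [NumberField K], Module.finrank ℚ K ≤ n →
    ∀ (F : ℂ → ℂ), Differentiable ℂ F → (∀ s : ℂ, 3 / 2 < s.re → F s = (E.baseChange K).LSeries s) →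
    ∀ (δ M : ℝ), 0 < δ → δ ≤ 1 / 2 → 2 ≤ M →
    (∀ s : ℂ, 3 / 2 - δ ≤ s.re → |s.im| ≤ N → ‖F s‖ ≤ M) → Cnt K δ M →
    ∃ t : ℝ, 0 ≤ t ∧ (∀ β : ℝ, F β = 0 → 3 / 2 - c₁ * δ / Zfr.Lg M 0 δ < β → t = 3 / 2 - β) ∧
      (t < 1 → F ((3 / 2 - t : ℝ) : ℂ) = 0) ∧
      ∀ θ : ℝ, 0 < θ → θ ≤ θ₀ → ∀ ε : ℝ, ε = θ * δ / Zfr.Lg M 0 δ →
        |(ε * ∑' p, lp ε p * (Fam.homCount K p * Fam.lam E p)) + ε / (ε + t)| ≤ κ' := by
  obtain ⟨c₁, hc₁, N, hN, hmain⟩ := exc_zero.{u} E n η hη hη1 hbias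
  refine ⟨c₁, hc₁, N, hN, fun κ' hκ' => ?_⟩
  obtain ⟨θ₁, hθ₁, h1⟩ := hmain (κ' / 2) (by positivity)
  obtain ⟨B, C, hC2, hlam, -, hbase⟩ := lam_data.{u} E
  have hd : ∀ d : ℕ, ∃ θ₀ : ℝ, 0 < θ₀ ∧ ∀ θ, 0 < θ → θ ≤ θ₀ → ∀ (K : Type u) [Field K]
      [NumberField K], Module.finrank ℚ K = d → ∀ (x : HeightOneSpectrum (𝓞 K) → ℝ) (y : ℕ → ℝ),
      (∀ v, |x v| ≤ C) → (∀ p : ℕ, p.Prime → |y p| ≤ C) →
      (∀ v, (Fam.N v).Prime → B < Fam.N v → x v = y (Fam.N v)) → ∀ ε : ℝ, 0 < ε → ε ≤ θ →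
      ε * |(∑' v : HeightOneSpectrum (𝓞 K), Real.log (nrm v) * nrm v ^ (-(1 + ε)) * x v) -
        ∑' p : Nat.Primes, Real.log p * (p : ℝ) ^ (-(1 + ε)) * (Fam.homCount K p * y p)| ≤
          κ' / 2 := by
    intro d
    obtain ⟨D, hD⟩ := compare'.{u} d B C (by linarith)
    refine ⟨κ' / 2 / (|D| + 1), by positivity, ?_⟩
    intro θ hθ hθ0 K _ _ hK x y hx hy hxy ε hε hεθ
    have h2 := (hD K hK x y hx hy hxy ε hε).trans (le_abs_self D)
    have h3 : ε * (|D| + 1) ≤ κ' / 2 := by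
      rw [le_div_iff₀ (by positivity)] at hθ0
      exact (mul_le_mul_of_nonneg_right hεθ (by positivity)).trans hθ0
    refine le_trans (mul_le_mul_of_nonneg_left h2 hε.le) (le_trans ?_ h3)
    exact mul_le_mul_of_nonneg_left (by linarith) hε.le
  obtain ⟨θ₂, hθ₂, h2⟩ := exists_uniform hd n
  refine ⟨min θ₁ θ₂, by positivity, ?_⟩
  intro K _ _ hK F hF hFL δ M hδ hδ1 hM hFM hcnt
  obtain ⟨t, ht0, ht1, ht2, ht3⟩ := h1 K hK F hF hFL δ M hδ hδ1 hM hFM hcnt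
  refine ⟨t, ht0, ht1, ht2, ?_⟩
  intro θ hθ hθ0 ε hε
  obtain ⟨hε0, hεθ⟩ := scale hθ hδ hδ1 hM hε
  have h5 := ht3 θ hθ (hθ0.trans (min_le_left _ _)) ε hε
  have h6 := h2 θ hθ (hθ0.trans (min_le_right _ _)) _ hK K rfl (Zfr.xK (E.baseChange K))
    (Fam.lam E) (fun v => (Zfr.abs_xK_le _ v).trans hC2) hlam (fun v hp hB => hbase K v hp hB) ε
    hε0 hεθ
  have e5 : (∑' v : HeightOneSpectrum (𝓞 K), ε * (Real.log (nrm v) * nrm v ^ (-(1 + ε))) *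
      Zfr.xK (E.baseChange K) v) = ε * ∑' v : HeightOneSpectrum (𝓞 K),
        Real.log (nrm v) * nrm v ^ (-(1 + ε)) * Zfr.xK (E.baseChange K) v := by
    rw [← tsum_mul_left]
    exact tsum_congr fun v => by ring
  rw [e5] at h5
  have e4 : (∑' p : Nat.Primes, Real.log p * (p : ℝ) ^ (-(1 + ε)) *
      (Fam.homCount K p * Fam.lam E p)) = ∑' p, lp ε p * (Fam.homCount K p * Fam.lam E p) := rfl
  rw [e4] at h6
  set X := ∑' v : HeightOneSpectrum (𝓞 K),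
    Real.log (nrm v) * nrm v ^ (-(1 + ε)) * Zfr.xK (E.baseChange K) v with hX
  set Y := ∑' p, lp ε p * (Fam.homCount K p * Fam.lam E p) with hY
  have e6 : ε * Y + ε / (ε + t) = (ε * X + ε / (ε + t)) - ε * (X - Y) := by ring
  rw [e6]
  refine (abs_sub _ _).trans ?_
  rw [abs_mul, abs_of_pos hε0]
  linarith

/-- `L(E/ℚ, 3/2) ≠ 0`, if the numbers `m x_p` are not too close to integers. -/
theorem nonvanish_of_spread (E : WeierstrassCurve ℚ) [E.IsElliptic] (F₀ : ℂ → ℂ)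
    (hF₀ : Differentiable ℂ F₀) (hFL₀ : ∀ s : ℂ, 3 / 2 < s.re → F₀ s = E.LSeries s) (m : ℕ) {η : ℝ}
    (hη : 0 < η) (hev : ∀ᶠ ε : ℝ in 𝓝[>] 0,
      ε * ∑' p, lp ε p * ((m * Fam.lam E p) ^ 2 - dz (m * Fam.lam E p)) ≤ (m : ℝ) ^ 2 - η) :
    F₀ (3 / 2) ≠ 0 := by
  intro h0
  have hlim := rat_limit E F₀ hF₀ hFL₀
  have hord : 1 ≤ analyticOrderNatAt F₀ (3 / 2) := by
    by_contra hlt
    have h1 : analyticOrderNatAt F₀ (3 / 2) = 0 := by omega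
    have hne : analyticOrderAt F₀ (3 / 2) ≠ ⊤ := by
      intro h
      have h1 : F₀ =ᶠ[𝓝 (3 / 2)] fun _ => 0 := analyticOrderAt_eq_top.1 h
      have h2 : F₀ = fun _ => 0 :=
        AnalyticOnNhd.eq_of_eventuallyEq (fun z _ => hF₀.analyticAt z)
          (fun z _ => analyticAt_const) h1
      have h3 := Zfr.LSeries_ne E (s := 2) (by norm_num)
      rw [← hFL₀ 2 (by norm_num), h2] at h3
      exact h3 rfl
    have h2 : analyticOrderAt F₀ (3 / 2) = 0 := by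
      rw [← Nat.cast_analyticOrderNatAt hne, h1]
      rfl
    exact ((hF₀.analyticAt (3 / 2)).analyticOrderAt_eq_zero.1 h2) h0
  set κ : ℝ := η / (2 * (3 * (m : ℝ) ^ 2 + 1)) with hκ
  have hκ0 : 0 < κ := by positivity
  have hκ2 : 3 * (m : ℝ) ^ 2 * κ < η := by
    have e : η = 2 * (3 * (m : ℝ) ^ 2 + 1) * κ := by rw [hκ]; field_simp
    rw [e]
    nlinarith [sq_nonneg (m : ℝ)]
  have h1 : ∀ᶠ ε : ℝ in 𝓝[>] 0, ε * ∑' p, lp ε p * Fam.lam E p ≤ -1 + κ := by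
    have h2 : -(analyticOrderNatAt F₀ (3 / 2) : ℝ) < -1 + κ := by
      have : (1 : ℝ) ≤ analyticOrderNatAt F₀ (3 / 2) := by exact_mod_cast hord
      linarith
    exact (hlim.eventually_lt_const h2).mono fun ε h => h.le
  obtain ⟨ε, ⟨⟨h2, h3⟩, h4⟩, h5⟩ := (((h1.and (rat_one κ hκ0)).and hev).and
    (self_mem_nhdsWithin : Set.Ioi (0 : ℝ) ∈ 𝓝[>] (0 : ℝ))).exists
  have hε : (0 : ℝ) < ε := h5
  obtain ⟨B, C, hC2, hlam, -, -⟩ := lam_data.{0} E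
  have hC0 : 0 ≤ C := by linarith
  have hs1 : Summable fun p : Nat.Primes => lp ε p * Fam.lam E p :=
    summable_lp_mul hε fun p => hlam p p.2
  have hs2 : Summable fun p : Nat.Primes =>
      lp ε p * ((m * Fam.lam E p) ^ 2 - dz (m * Fam.lam E p)) := by
    refine summable_lp_mul hε (C := ((m : ℝ) * C) ^ 2) fun p => ?_
    have e1 := dz_le (m * Fam.lam E p) 0
    rw [Int.cast_zero, zero_add] at e1
    have e2 := dz_nonneg (m * Fam.lam E p)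
    have e3 : (m * Fam.lam E p) ^ 2 ≤ ((m : ℝ) * C) ^ 2 := by
      rw [← sq_abs, abs_mul, abs_of_nonneg (Nat.cast_nonneg m)]
      exact pow_le_pow_left₀ (by positivity)
        (mul_le_mul_of_nonneg_left (hlam p p.2) (Nat.cast_nonneg m)) 2
    rw [abs_of_nonneg (by linarith)]
    linarith
  have hpos : 0 ≤ ∑' p, lp ε p * ((m * Fam.lam E p + m) ^ 2 - dz (m * Fam.lam E p)) := by
    refine tsum_nonneg fun p => mul_nonneg (lp_nonneg ε p) ?_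
    have e1 := dz_le (m * Fam.lam E p) m
    have e2 : ((m : ℤ) : ℝ) + m * Fam.lam E p = m * Fam.lam E p + m := by push_cast; ring
    rw [e2] at e1
    linarith
  have hsum : (∑' p, lp ε p * ((m * Fam.lam E p + m) ^ 2 - dz (m * Fam.lam E p))) =
      (∑' p, lp ε p * ((m * Fam.lam E p) ^ 2 - dz (m * Fam.lam E p))) +
      (2 * (m : ℝ) ^ 2 * (∑' p, lp ε p * Fam.lam E p) + (m : ℝ) ^ 2 * ∑' p, lp ε p) := by
    rw [← tsum_mul_left, ← tsum_mul_left,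
      ← (hs1.mul_left _).tsum_add ((summable_lp hε).mul_left _),
      ← hs2.tsum_add ((hs1.mul_left _).add ((summable_lp hε).mul_left _))]
    exact tsum_congr fun p => by ring
  rw [hsum] at hpos
  have h6 := mul_nonneg hε.le hpos
  rw [mul_add, mul_add] at h6
  have h7 : (m : ℝ) ^ 2 * (ε * ∑' p, lp ε p * Fam.lam E p) ≤ (m : ℝ) ^ 2 * (-1 + κ) :=
    mul_le_mul_of_nonneg_left h2 (by positivity)
  have h8 : (m : ℝ) ^ 2 * (ε * ∑' p, lp ε p) ≤ (m : ℝ) ^ 2 * (1 + κ) :=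
    mul_le_mul_of_nonneg_left h3 (by positivity)
  nlinarith

/-- the mean value of `x_p` -/
theorem x_mean (E : WeierstrassCurve ℚ) [E.IsElliptic] (F₀ : ℂ → ℂ)
    (hF₀ : Differentiable ℂ F₀) (hFL₀ : ∀ s : ℂ, 3 / 2 < s.re → F₀ s = E.LSeries s) {η : ℝ}
    (hη : 0 < η) (hev : ∀ᶠ ε : ℝ in 𝓝[>] 0,
      ε * ∑' p, lp ε p * ((1 * Fam.lam E p) ^ 2 - dz (1 * Fam.lam E p)) ≤ 1 - η) :
    ∀ κ : ℝ, 0 < κ → ∀ᶠ ε : ℝ in 𝓝[>] 0, -κ ≤ ε * ∑' p, lp ε p * Fam.lam E p := by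
  intro κ hκ
  have h0 := nonvanish_of_spread E F₀ hF₀ hFL₀ 1 hη (by simpa using hev)
  have h1 : analyticOrderNatAt F₀ (3 / 2) = 0 := by
    unfold analyticOrderNatAt
    rw [(hF₀.analyticAt (3 / 2)).analyticOrderAt_eq_zero.2 h0]
    rfl
  have hlim := rat_limit E F₀ hF₀ hFL₀
  rw [h1] at hlim
  have h2 : (-κ : ℝ) < -((0 : ℕ) : ℝ) := by simpa using hκ
  exact (hlim.eventually_const_lt h2).mono fun ε h => h.le

/-- rounding -/
theorem round_eps {ε t κ : ℝ} (hε : 0 < ε) (ht : 0 ≤ t) (hκ : 0 < κ) (h : t ≤ κ * ε ∨ ε ≤ κ * t) :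
    |ε / (ε + t) - (if t ≤ κ * ε then (1 : ℝ) else 0)| ≤ κ := by
  have hpos : 0 < ε + t := by linarith
  split_ifs with h1
  · have e : ε / (ε + t) - 1 = -(t / (ε + t)) := by field_simp; ring
    rw [e, abs_neg, abs_of_nonneg (by positivity), div_le_iff₀ hpos]
    nlinarith
  · have h2 : ε ≤ κ * t := by
      rcases h with h | h
      · exact absurd h h1
      · exact h
    rw [sub_zero, abs_of_nonneg (by positivity), div_le_iff₀ hpos]
    nlinarith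

/-- the primes dividing one of finitely many integers -/
theorem sum_bad_le {ι : Type*} [Fintype ι] (D : ι → ℕ) (hD : ∀ i, D i ≠ 0) {ε : ℝ} (hε : 0 < ε)
    {Λ : ℝ} (hΛ : ∀ i, Real.log (D i) ≤ Λ) (g : Nat.Primes → ℝ) {C : ℝ} (hC : 0 ≤ C)
    (hg : ∀ p, |g p| ≤ C) (hg0 : ∀ p : Nat.Primes, (∀ i, ¬ (p : ℕ) ∣ D i) → g p = 0) :
    |∑' p, lp ε p * g p| ≤ C * (Fintype.card ι * Λ) := by
  classical
  have hs : ∀ i, Summable fun p : Nat.Primes => if (p : ℕ) ∣ D i then lp ε p else 0 :=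
    fun i => (sum_dvd_le (hD i) hε).1
  have hs1 : Summable fun p : Nat.Primes => C * ∑ i, if (p : ℕ) ∣ D i then lp ε p else 0 :=
    (summable_sum fun i _ => hs i).mul_left C
  have hpt : ∀ p : Nat.Primes, ‖lp ε p * g p‖ ≤ C * ∑ i, if (p : ℕ) ∣ D i then lp ε p else 0 := by
    intro p
    have hnn : ∀ i, 0 ≤ if (p : ℕ) ∣ D i then lp ε p else 0 := fun i => by
      split_ifs
      · exact lp_nonneg ε p
      · exact le_rfl
    by_cases h : ∀ i, ¬ (p : ℕ) ∣ D i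
    · rw [hg0 p h, mul_zero, norm_zero]
      exact mul_nonneg hC (Finset.sum_nonneg fun i _ => hnn i)
    · push Not at h
      obtain ⟨i, hi⟩ := h
      rw [Real.norm_eq_abs, abs_mul, abs_of_nonneg (lp_nonneg ε p), mul_comm]
      have h1 : lp ε p ≤ ∑ i, if (p : ℕ) ∣ D i then lp ε p else 0 := by
        have h2 := Finset.single_le_sum (f := fun i => if (p : ℕ) ∣ D i then lp ε p else 0)
          (fun i _ => hnn i) (Finset.mem_univ i)
        simp only [if_pos hi] at h2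
        exact h2
      exact mul_le_mul (hg p) h1 (lp_nonneg ε p) hC
  have h1 := tsum_of_norm_bounded hs1.hasSum hpt
  rw [Real.norm_eq_abs] at h1
  refine h1.trans ?_
  rw [tsum_mul_left, Summable.tsum_finsetSum fun i _ => hs i]
  refine mul_le_mul_of_nonneg_left ?_ hC
  calc (∑ i, ∑' p : Nat.Primes, if (p : ℕ) ∣ D i then lp ε p else 0) ≤ ∑ _i : ι, Λ :=
        Finset.sum_le_sum fun i _ => ((sum_dvd_le (hD i) hε).2).trans (hΛ i)
    _ = Fintype.card ι * Λ := by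
        rw [Finset.sum_const, Finset.card_univ, nsmul_eq_mul]

end Pool.Agent.MPfb225e.Szf
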